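import Pool.Agent.E8helper3.HO.CapO

/-!
# Tuples of fibres of self-dual hypergeometric families of all orders
-/

set_option autoImplicit false

open Pool.Agent.Y113 Pool.Agent.Y119.HY Pool.Agent.Y119.HZ

namespace Pool.Agent.E8helper3.HO

variable {n : ℕ}

lemma det_ne_of_form {J J' Y : Matrix (Fin n) (Fin n) ℂ} (hJ : J.det ≠ 0) (h : Y.transpose * J' * Y = J) : Y.det ≠ 0 := by
  intro h0
  apply hJ
  rw [← h, Matrix.det_mul, h0, mul_zero]

/-- the points of the torsor are the translates of one point under the group -/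
lemma torsor_eq {J J' Y X : Matrix (Fin n) (Fin n) ℂ} (hJ : J.det ≠ 0) (h : Y.transpose * J' * Y = J)
    (hX : X.transpose * J' * X = J) : ∃ g : Matrix (Fin n) (Fin n) ℂ, g.transpose * J * g = J ∧ Y * g = X := by
  have hY : IsUnit Y.det := Ne.isUnit (det_ne_of_form hJ h)
  refine ⟨Y⁻¹ * X, ?_, ?_⟩
  · have h1 : Y * Y⁻¹ = 1 := Matrix.mul_nonsing_inv _ hY
    have h2 : (Y⁻¹).transpose * Y.transpose = 1 := by
      rw [← Matrix.transpose_mul, h1, Matrix.transpose_one]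
    calc (Y⁻¹ * X).transpose * J * (Y⁻¹ * X) =
        X.transpose * ((Y⁻¹).transpose * Y.transpose) * J' * (Y * Y⁻¹) * X := by
          rw [← h, Matrix.transpose_mul]
          simp only [Matrix.mul_assoc]
      _ = X.transpose * J' * X := by rw [h1, h2, Matrix.mul_one, Matrix.mul_one]
      _ = J := hX
  · rw [← Matrix.mul_assoc, Matrix.mul_nonsing_inv _ hY, Matrix.one_mul]

/-- **Few exceptional tuples of fibres.** -/
theorem self_tuples (k δ D : ℕ) (m e : Fin k → ℕ) (hm : ∀ i, 1 ≤ m i) (he : ∀ i, e i ≤ 1) (β : ∀ i, Fin (m i) → ℚ)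
    (hβ : ∀ i j, ∀ a : ℤ, β i j ≠ a) :
    ∃ c C : ℝ, 0 < c ∧ 0 ≤ C ∧ ∀ (V : Submodule ℚ ℂ) [Module.Finite ℚ V], Module.finrank ℚ V ≤ D →
      ∀ Ω : (∀ i, Matrix (Fin (2 * m i + e i)) (Fin (2 * m i + e i)) ℂ), ∀ (x : Fin k → ℕ) (N : ℕ),
      (∀ i, 1 ≤ x i) → 1 ≤ N →
      ∀ S : Finset (Fin k → ℕ), (∀ t ∈ S, (∀ i, x i < t i ∧ t i ≤ x i + N) ∧
        ∃ P : MvPolynomial (Jx fun i => 2 * m i + e i) ℂ,
        P.totalDegree ≤ δ ∧ (∀ s, P.coeff s ∈ V) ∧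
        MvPolynomial.aeval (pw (fun i => ((Real.log (t i) : ℝ) : ℂ))
          fun i => Yt (2 * m i + e i) (Qe (e i) (β i)) (t i) * Ω i) P = 0 ∧
        ∃ (l : Fin k → ℂ) (X : ∀ i, Matrix (Fin (2 * m i + e i)) (Fin (2 * m i + e i)) ℂ),
          (∀ i, (X i).transpose * Jze (e i) (β i) (((1 / (t i : ℝ) : ℝ)) : ℂ) * X i = Je (e i) (β i)) ∧
          MvPolynomial.aeval (pw l fun i => X i * Ω i) P ≠ 0) →
      (S.card : ℝ) ≤ C * (N : ℝ) ^ (k - 1) * ∑ i, (1 + N / ((x i : ℝ) + N) ^ c) := by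
  obtain ⟨c, C, hc, hC, h⟩ := tuples_log k δ D (fun i => 2 * m i + e i) (fun i => Qe (e i) (β i))
    (fun i => {g | g.transpose * Je (e i) (β i) * g = Je (e i) (β i)}) fun i => Fm_e (hm i) (hβ i) (he i)
  refine ⟨c, C, hc, hC, ?_⟩
  intro V _ hV Ω x N hx hN S hS
  refine h V hV Ω x N hx hN S fun t ht => ?_
  obtain ⟨hbox, P, h1, h2, h3, l, X, hX, h4⟩ := hS t ht
  refine ⟨hbox, P, h1, h2, h3, l, ?_⟩
  have ht2 : ∀ i, 2 ≤ t i := fun i => by
    have := (hbox i).1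
    have := hx i
    omega
  have hg := fun i => torsor_eq (Je_det (hm i) (hβ i) (he i)) (Y_form (hm i) (hβ i) (he i) (ht2 i)) (hX i)
  choose g hg1 hg2 using hg
  refine ⟨g, fun i => hg1 i, ?_⟩
  simp only [hg2]
  exact h4

end Pool.Agent.E8helper3.HO
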