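import Pool.Agent.E8helper3.HO.Ort

/-!
# Hypergeometric systems of odd order: the relations between the solutions are invariant under the orthogonal group
-/

set_option autoImplicit false

open Filter Topology Matrix

namespace Pool.Agent.E8helper3.HO

open Pool.Agent.Y119.HY

variable {n : ℕ} {Q : Polynomial ℚ}

section closed

attribute [local instance] Matrix.linftyOpNormedRing Matrix.linftyOpNormedAlgebra

lemma entry_cont (i j : Fin n) : Continuous fun g : Matrix (Fin n) (Fin n) ℂ => g i j :=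
  (continuous_apply j).comp (continuous_apply i)

/-- the Galois monoid is closed -/
theorem Gal_isClosed (Y : ℂ → Matrix (Fin n) (Fin n) ℂ) : IsClosed (Gal Y : Set (Matrix (Fin n) (Fin n) ℂ)) := by
  have h1 : (Gal Y : Set (Matrix (Fin n) (Fin n) ℂ)) = ⋂ P ∈ Rel Y, ⋂ x : ℝ, ⋂ _ : 0 < x, ⋂ _ : x < 1,
      {g | ev P (x : ℂ) (Complex.log x) (Y (x : ℂ) * g) = 0} := by
    ext g
    simp only [Set.mem_iInter]
    rfl
  rw [h1]
  refine isClosed_biInter fun P hP => isClosed_iInter fun x => isClosed_iInter fun _ => isClosed_iInter fun _ => ?_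
  clear hP
  refine isClosed_eq ?_ continuous_const
  unfold ev
  have hX : ∀ i j, Continuous fun g : Matrix (Fin n) (Fin n) ℂ => (Y (x : ℂ) * g) i j := by
    intro i j
    simp only [Matrix.mul_apply]
    exact continuous_finsetSum _ fun l _ => continuous_const.mul (entry_cont l j)
  induction P using MvPolynomial.induction_on with
  | C c => simpa using continuous_const
  | add p q hp hq => simp only [map_add]; exact hp.add hq
  | mul_X p i hp =>
    simp only [map_mul, MvPolynomial.eval_X]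
    refine hp.mul ?_
    rcases i with _ | _ | x
    · exact continuous_const
    · exact continuous_const
    · exact hX x.1 x.2

end closed

/-- the quadratic relations as polynomials -/
noncomputable def Pq (n : ℕ) (Q : Polynomial ℚ) (i j : Fin n) : MvPolynomial (Vr n) ℂ :=
  (∑ l, (∑ k, MvPolynomial.X (some (some (k, i))) * (MvPolynomial.C (Jo n Q k l) * (1 - MvPolynomial.X none) -
    MvPolynomial.X none * MvPolynomial.C (cm (Vm n Q) k l))) * MvPolynomial.X (some (some (l, j)))) -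
    (1 - MvPolynomial.X none) * MvPolynomial.C (Jo n Q i j)

lemma ev_Pq (i j : Fin n) (z L : ℂ) (hz : 1 - z ≠ 0) (X : Matrix (Fin n) (Fin n) ℂ) : ev (Pq n Q i j) z L X =
    (1 - z) * ((X.transpose * Jz n Q z * X) i j - Jo n Q i j) := by
  unfold ev Pq
  rw [map_sub, map_sum, mul_sub]
  congr 1
  · rw [Matrix.mul_apply, Finset.mul_sum]
    refine Finset.sum_congr rfl fun l _ => ?_
    rw [map_mul, map_sum, MvPolynomial.eval_X, Matrix.mul_apply, Finset.sum_mul, Finset.sum_mul, Finset.mul_sum]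
    refine Finset.sum_congr rfl fun k _ => ?_
    simp only [map_mul, map_sub, map_one, MvPolynomial.eval_X, MvPolynomial.eval_C]
    unfold Jz
    rw [Matrix.sub_apply, Matrix.smul_apply, smul_eq_mul, transpose_apply]
    show X k i * (Jo n Q k l * (1 - z) - z * cm (Vm n Q) k l) * X l j =
      (1 - z) * (X k i * (Jo n Q k l - z / (1 - z) * cm (Vm n Q) k l) * X l j)
    field_simp
  · simp only [map_mul, map_sub, map_one, MvPolynomial.eval_X, MvPolynomial.eval_C]
    rfl

/-- the elements of the Galois monoid are isometries -/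
theorem Gal_isom (hQ : QO n Q) {g : Matrix (Fin n) (Fin n) ℂ} (hg : g ∈ Gal (Yn n Q)) :
    g.transpose * Jo n Q * g = Jo n Q := by
  have hx0 : (0 : ℝ) < 1 / 2 := by norm_num
  have hx1 : (1 / 2 : ℝ) < 1 := by norm_num
  have hne : ∀ x : ℝ, x < 1 → 1 - (x : ℂ) ≠ 0 := by
    intro x hx h
    have h2 : (x : ℂ) = ((1 : ℝ) : ℂ) := by
      push_cast
      exact (sub_eq_zero.1 h).symm
    exact absurd (Complex.ofReal_injective h2) hx.ne
  have h1 : (Yn n Q ((1 / 2 : ℝ) : ℂ) * g).transpose * Jz n Q ((1 / 2 : ℝ) : ℂ) * (Yn n Q ((1 / 2 : ℝ) : ℂ) * g) =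
      Jo n Q := by
    ext i j
    have hrel : Pq n Q i j ∈ Rel (Yn n Q) := by
      intro x hx hx1
      rw [ev_Pq i j _ _ (hne x hx1), pair_self hQ (real_mem_Lens hx hx1), sub_self, mul_zero]
    have h2 := hg _ hrel (1 / 2) hx0 hx1
    rw [ev_Pq i j _ _ (hne _ hx1)] at h2
    exact sub_eq_zero.1 ((mul_eq_zero.1 h2).resolve_left (hne _ hx1))
  have h2 := pair_self hQ (real_mem_Lens hx0 hx1)
  calc g.transpose * Jo n Q * g = g.transpose * ((Yn n Q ((1 / 2 : ℝ) : ℂ)).transpose * Jz n Q ((1 / 2 : ℝ) : ℂ) *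
        Yn n Q ((1 / 2 : ℝ) : ℂ)) * g := by rw [h2]
    _ = (Yn n Q ((1 / 2 : ℝ) : ℂ) * g).transpose * Jz n Q ((1 / 2 : ℝ) : ℂ) * (Yn n Q ((1 / 2 : ℝ) : ℂ) * g) := by
        rw [transpose_mul]; simp only [Matrix.mul_assoc]
    _ = _ := h1

lemma cm_Bm' : cm (Bm n Q) = vecMulVec (uc n) (fun j : Fin n => ((Q.coeff j : ℚ) : ℂ)) := by
  ext i j
  rw [cm_apply, vecMulVec_apply]
  unfold Bm uc
  rw [Matrix.of_apply]
  split_ifs <;> simp

/-- the pairing with the first basis vector -/
lemma om_ec' (hn : 1 ≤ n) (v : Fin n → ℂ) (h : v ⟨n - 1, by omega⟩ = 0) : om (Jo n Q) v (ec n) = 0 := by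
  unfold om dotProduct
  refine Finset.sum_eq_zero fun i _ => ?_
  by_cases hi : (i : ℕ) + 1 = n
  · have : i = ⟨n - 1, by omega⟩ := Fin.ext (by simp only; omega)
    rw [this, h, zero_mul]
  · have h1 : (Jo n Q *ᵥ ec n) i = 0 := by
      rw [mv_apply]
      refine Finset.sum_eq_zero fun j _ => ?_
      unfold ec
      split_ifs with hj
      · unfold Jo
        rw [cm_apply]
        unfold Jm
        rw [Matrix.of_apply, if_neg (by have := i.2; omega)]
        simp
      · rw [mul_zero]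
    rw [h1, mul_zero]

/-- **The relations between the solutions of a self-dual hypergeometric system of odd order are invariant under the
orthogonal group.** -/
theorem ort_invar (hQ : QO n Q) (g : Matrix (Fin n) (Fin n) ℂ) (hg : g.transpose * Jo n Q * g = Jo n Q) :
    g ∈ Gal (Yn n Q) := by
  have hn := hQ.three
  have hr := hQ.rh
  obtain ⟨M, Mi, hMMi, hMiM, hgal, hne⟩ := conn hQ.qe hQ.qe' (by rw [hr]; norm_num) (fun k => by
    rw [hr]
    have h1 : ((k : ℂ) + 1) ^ 2 - (1 / 2) ^ 2 = ((((k : ℝ) + 1) ^ 2 - (1 / 2) ^ 2 : ℝ) : ℂ) := by push_cast; rfl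
    rw [h1]
    have h2 : (0 : ℝ) < ((k : ℝ) + 1) ^ 2 - (1 / 2) ^ 2 := by
      have : (0 : ℝ) ≤ k := Nat.cast_nonneg k
      nlinarith
    exact_mod_cast h2.ne')
  set J := Jo n Q with hJd
  have hJ : J.transpose = J := Jo_trans hQ
  have hdet : J.det ≠ 0 := Jo_det hQ
  -- the pseudoreflection
  set T := Tm n Q with hT
  set q : Fin n → ℂ := fun j => ((Q.coeff j : ℚ) : ℂ) with hq
  have hTe : T = vecMulVec (uc n) ((-2 : ℂ) • q) := by
    rw [hT]
    unfold Tm
    rw [hr, cm_Bm', ← hq, vecMulVec_smul]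
    module
  set a := Mi *ᵥ uc n with ha
  set b := ((-2 : ℂ) • q) ᵥ* M with hb
  set p := Mi * T * M with hp
  have hpe : p = vecMulVec a b := by
    rw [hp, hTe, mul_vecMulVec, vecMulVec_mul]
  have hpv : ∀ y, p *ᵥ y = (b ⬝ᵥ y) • a := by
    intro y
    rw [hpe, vecMulVec_mulVec]
    ext i
    simp only [Pi.smul_apply, MulOpposite.smul_eq_mul_unop, MulOpposite.unop_op, smul_eq_mul]
    ring
  have hpp : p * p = p := by
    calc p * p = Mi * T * (M * Mi) * T * M := by rw [hp]; simp only [Matrix.mul_assoc]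
      _ = Mi * (T * T) * M := by rw [hMMi, mul_one]; simp only [Matrix.mul_assoc]
      _ = p := by rw [hT, Tm_sq (by omega) (by rw [hr]; norm_num)]
  have hpec : b ⬝ᵥ ec n ≠ 0 := by
    intro h0
    have h1 := hpv (ec n)
    rw [h0, zero_smul] at h1
    apply hne
    have h2 : M *ᵥ (p *ᵥ ec n) = T *ᵥ (M *ᵥ ec n) := by
      rw [mulVec_mulVec, mulVec_mulVec]
      congr 1
      rw [hp]
      calc M * (Mi * T * M) = (M * Mi) * T * M := by simp only [Matrix.mul_assoc]
        _ = _ := by rw [hMMi, one_mul]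
    rw [← h2, h1, mulVec_zero]
  have ha0 : a ≠ 0 := by
    intro h0
    have h1 := hpv (ec n)
    rw [h0, smul_zero] at h1
    apply hne
    have h2 : M *ᵥ (p *ᵥ ec n) = T *ᵥ (M *ᵥ ec n) := by
      rw [mulVec_mulVec, mulVec_mulVec]
      congr 1
      rw [hp]
      calc M * (Mi * T * M) = (M * Mi) * T * M := by simp only [Matrix.mul_assoc]
        _ = _ := by rw [hMMi, one_mul]
    rw [← h2, h1, mulVec_zero]
  have hba : b ⬝ᵥ a = 1 := by
    have h1 := hpv (p *ᵥ ec n)
    rw [mulVec_mulVec, hpp, hpv, dotProduct_smul, smul_eq_mul] at h1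
    have h2 : (b ⬝ᵥ ec n) • a - ((b ⬝ᵥ ec n * b ⬝ᵥ a)) • a = 0 := by
      rw [sub_eq_zero]
      exact h1
    rw [← sub_smul] at h2
    have h3 := (smul_eq_zero.1 h2).resolve_right ha0
    have h4 : b ⬝ᵥ ec n * (1 - b ⬝ᵥ a) = 0 := by linear_combination h3
    have h5 := (mul_eq_zero.1 h4).resolve_left hpec
    linear_combination -h5
  -- the reflection
  set h := Mi * WW T (rh n Q) (2 * Real.pi * Complex.I) * M with hh
  have hhe : h = 1 - (2 : ℂ) • p := by
    have h1 : Complex.exp (rh n Q * (2 * Real.pi * Complex.I)) = -1 := by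
      rw [hr, ← Complex.exp_pi_mul_I]
      congr 1
      ring
    rw [hh]
    unfold WW
    rw [h1, mul_add, add_mul, mul_one, hMiM, hp, mul_smul_comm, smul_mul_assoc]
    module
  have hhI : Is J h := Is_iff.2 (Gal_isom hQ hgal)
  have hhv : ∀ y, h *ᵥ y = y - (2 * b ⬝ᵥ y) • a := by
    intro y
    rw [hhe, sub_mulVec, one_mulVec, smul_mulVec, hpv, smul_smul]
  have hha : h *ᵥ a = -a := by
    rw [hhv, hba]
    module
  have hay : ∀ y, om J a y = b ⬝ᵥ y * om J a a := by
    intro y
    have h1 := hhI a y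
    rw [hha, hhv, om_negl, om_sub, om_smul] at h1
    linear_combination -(1 / 2 : ℂ) * h1
  have haa : om J a a ≠ 0 := by
    intro h0
    apply ha0
    refine om_nd hdet fun y => ?_
    rw [hay, h0, mul_zero]
  obtain ⟨s, hs⟩ := exists_sqrt (1 / om J a a)
  set v := s • a with hv
  have hvv : om J v v = 1 := by
    rw [hv, om_smul, om_smull, ← mul_assoc, ← sq, hs]
    field_simp
  have hs0 : s ≠ 0 := by
    intro h0
    rw [h0] at hs
    have : (1 : ℂ) / om J a a ≠ 0 := div_ne_zero one_ne_zero haa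
    rw [← hs] at this
    exact this (by norm_num)
  have htv : tv J v (-2) = h := by
    refine mv_ext fun y => ?_
    rw [tv2, hhv, hv, om_smull, smul_smul, hay]
    congr 2
    have : 2 * (s * (b ⬝ᵥ y * om J a a)) * s = 2 * b ⬝ᵥ y * (s ^ 2 * om J a a) := by ring
    rw [this, hs, one_div_mul_cancel haa, mul_one]
  have hvn : (cm (Am n) ^ (n - 1)) *ᵥ v ≠ 0 := by
    rw [Ac_last (by omega)]
    intro h0
    have h1 : v ⟨n - 1, by omega⟩ = 0 := by
      have h2 := congrFun h0 ⟨0, by omega⟩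
      unfold ec at h2
      simpa using h2
    have h2 := om_ec' (Q := Q) (by omega) v h1
    rw [← hJd, hv, om_smull, hay] at h2
    exact mul_ne_zero hs0 (mul_ne_zero hpec haa) h2
  refine ort_all hn hJ hdet Ac_nil Jc_rel hvv hvn (Gal (Yn n Q)) (Gal_isClosed _)
    (fun c g hg => conj_E Ac_nil (sol_c hQ.qe) c g hg) ?_ g hg
  rw [htv]
  exact hgal

end Pool.Agent.E8helper3.HO
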