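import Pool.Agent.Y119.HY.Fin2

/-!
# Hypergeometric systems with arbitrary exponents at infinity
-/

set_option autoImplicit false

open Filter Topology Matrix

namespace Pool.Agent.E8helper3.HO

open Pool.Agent.Y119.HY

/-- monic polynomials of degree `n` without roots at the natural numbers -/
structure QE (n : ℕ) (Q : Polynomial ℚ) : Prop where
  two : 2 ≤ n
  monic : Q.Monic
  deg : Q.natDegree = n
  ne : ∀ l : ℕ, Q.eval (l : ℚ) ≠ 0

variable {n : ℕ} {Q : Polynomial ℚ}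

lemma Bm_mul (k : ℕ) (hQ : QE n Q) (i j : Fin n) : (Bm n Q * Hq n Q k) i j = if (i : ℕ) + 1 = n then
    PowerSeries.coeff (j : ℕ) (Polynomial.aeval (kx k) Q * aq n Q k) -
      PowerSeries.coeff (j : ℕ) (kx k ^ n * aq n Q k) else 0 := by
  rw [Matrix.mul_apply]
  unfold Bm
  simp only [Matrix.of_apply, ite_mul, zero_mul]
  split_ifs with h
  · have h1 : Polynomial.aeval (kx k) Q = ∑ l ∈ Finset.range n, PowerSeries.C (Q.coeff l) * kx k ^ l + kx k ^ n := by
      rw [Polynomial.aeval_eq_sum_range, hQ.deg, Finset.sum_range_succ]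
      have h2 : Q.coeff n = 1 := by
        rw [← hQ.deg]
        exact hQ.monic.coeff_natDegree
      rw [h2, one_smul]
      congr 1
      refine Finset.sum_congr rfl fun l _ => ?_
      rw [PowerSeries.smul_eq_C_mul]
    rw [h1, add_mul, map_add, add_sub_cancel_right, Finset.sum_mul, map_sum, Finset.sum_range]
    refine Finset.sum_congr rfl fun l _ => ?_
    rw [mul_assoc, PowerSeries.coeff_C_mul]
    rfl
  · exact Finset.sum_const_zero

theorem step_q (hQ : QE n Q) (k : ℕ) (i j : Fin n) :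
    ((k : ℚ) + 1) * Hq n Q (k + 1) i j + ((Hq n Q (k + 1) * Am n) i j - (Am n * Hq n Q (k + 1)) i j) =
    (k : ℚ) * Hq n Q k i j + ((Hq n Q k * Am n) i j - (Am n * Hq n Q k) i j) + (Bm n Q * Hq n Q k) i j := by
  have e1 := lin_eq (n := n) (Q := Q) (k + 1) i j
  have e2 := lin_eq (n := n) (Q := Q) k i j
  push_cast at e1
  rw [add_sub_assoc', add_sub_assoc', e1, e2, Am_mul, Am_mul, Bm_mul k hQ]
  by_cases h : (i : ℕ) + 1 < n
  · rw [dif_pos h, dif_pos h, if_neg (by omega)]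
    unfold Hq hq
    simp only [Matrix.of_apply, sub_self, add_zero]
  · have h' : (i : ℕ) + 1 = n := by have := i.2; omega
    rw [dif_neg h, dif_neg h, if_pos h', h', sub_zero, sub_zero, add_sub_cancel, aq_succ]

lemma sol_c (hQ : QE n Q) : Sol (cm (Am n)) (cm (Bm n Q)) (Hc n Q) := by
  refine ⟨?_, fun k => ?_⟩
  · unfold Hc
    rw [Hq_zero, cm_one]
  · ext i j
    have h := step_q hQ k i j
    unfold Hc
    rw [← cm_mul, ← cm_mul, ← cm_mul, ← cm_mul, ← cm_mul]
    simp only [Matrix.add_apply, Matrix.smul_apply, Matrix.sub_apply, smul_eq_mul, cm_apply]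
    exact_mod_cast h

lemma a0_ne (hQ : QE n Q) (k : ℕ) : a0 n Q k ≠ 0 := by
  induction k with
  | zero =>
    unfold a0 aq
    simp
  | succ k ih =>
    rw [a0_succ]
    refine mul_ne_zero ih (div_ne_zero (hQ.ne k) (pow_ne_zero _ ?_))
    exact_mod_cast Nat.succ_ne_zero k

lemma ratio (hQ : QE n Q) : Tendsto (fun k : ℕ => (((Q.eval (k : ℚ) / ((k : ℚ) + 1) ^ n : ℚ)) : ℝ)) atTop (𝓝 1) := by
  set P : Polynomial ℝ := Q.map (algebraMap ℚ ℝ) with hP
  set R : Polynomial ℝ := (Polynomial.X + Polynomial.C 1) ^ n with hR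
  have hRm : R.Monic := (Polynomial.monic_X_add_C (1 : ℝ)).pow n
  have hPm : P.Monic := hQ.monic.map _
  have hdeg : P.degree = R.degree := by
    rw [Polynomial.degree_eq_natDegree hPm.ne_zero, Polynomial.degree_eq_natDegree hRm.ne_zero, hP,
      Polynomial.natDegree_map, hQ.deg, hR, Polynomial.natDegree_pow, Polynomial.natDegree_X_add_C, mul_one]
  have h1 := Polynomial.div_tendsto_atTop_leadingCoeff_div_of_degree_eq P R hdeg
  rw [hPm.leadingCoeff, hRm.leadingCoeff, div_one] at h1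
  have h2 := h1.comp (tendsto_natCast_atTop_atTop (R := ℝ))
  refine h2.congr fun k => ?_
  simp only [Function.comp]
  rw [hR, Polynomial.eval_pow, Polynomial.eval_add, Polynomial.eval_X, Polynomial.eval_C, hP]
  push_cast
  congr 1
  rw [Polynomial.eval_map, ← Polynomial.aeval_def]
  have := Polynomial.aeval_algebraMap_apply ℝ (k : ℚ) Q
  simp only [map_natCast] at this
  rw [this, Polynomial.aeval_def]
  rfl

/-- the first solution is singular at one -/
lemma sing (hQ : QE n Q) (g : ℂ → ℂ) (hg : AnalyticOnNhd ℂ g (Metric.ball 1 1))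
    (hext : ∀ z ∈ Lens, (Hf (Hc n Q) z *ᵥ ec n) ⟨0, by have := hQ.two; omega⟩ = g z) : False := by
  have hn := hQ.two
  have e1 : ∀ z, (Hf (Hc n Q) z *ᵥ ec n) ⟨0, by omega⟩ = ps (fun k => (((a0 n Q k : ℚ) : ℝ) : ℂ)) z := by
    intro z
    rw [mv_apply]
    unfold ec
    rw [Finset.sum_eq_single ⟨0, by omega⟩]
    · rw [if_pos rfl, mul_one]
      unfold Hf
      rw [Matrix.of_apply]
      congr 1
      funext k
      unfold Hc
      rw [cm_apply]
      unfold Hq hq a0
      rw [Matrix.of_apply]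
      simp
    · intro b _ hb
      rw [if_neg, mul_zero]
      intro h'
      exact hb (Fin.ext h')
    · intro h'
      exact absurd (Finset.mem_univ _) h'
  have hpg : PG fun k => (((a0 n Q k : ℚ) : ℝ) : ℂ) := by
    have h := (sol_c hQ).growth Ac_nil ⟨0, by omega⟩ ⟨0, by omega⟩
    refine (congrArg PG ?_).mp h
    funext k
    unfold Hc
    rw [cm_apply]
    unfold Hq hq a0
    rw [Matrix.of_apply]
    simp
  obtain ⟨K₀, hK₀⟩ := Filter.eventually_atTop.1 ((ratio hQ).eventually (lt_mem_nhds (show (9 / 10 : ℝ) < 1 by norm_num)))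
  have hstep : ∀ k, ((a0 n Q (k + 1) : ℚ) : ℝ) = ((a0 n Q k : ℚ) : ℝ) * ((Q.eval (k : ℚ) / ((k : ℚ) + 1) ^ n : ℚ) : ℝ) := by
    intro k
    rw [a0_succ]
    push_cast
    rfl
  rcases lt_or_gt_of_ne (a0_ne hQ K₀) with h0 | h0
  · -- negative
    have hpos : ∀ k ≥ K₀, ((a0 n Q k : ℚ) : ℝ) < 0 := by
      intro k hk
      induction k, hk using Nat.le_induction with
      | base => exact_mod_cast h0
      | succ k hk ih =>
        rw [hstep]
        exact mul_neg_of_neg_of_pos ih (by linarith [hK₀ k hk])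
    refine no_ext (a := fun k => -((a0 n Q k : ℚ) : ℝ)) (K₀ := K₀) ?_ (fun k hk => by linarith [hpos k hk]) (fun k hk => ?_)
      (g := fun z => -g z) hg.neg fun z hz => ?_
    · have := hpg.smul (-1)
      refine (congrArg PG ?_).mp this
      funext k
      push_cast
      ring
    · rw [hstep]
      nlinarith [hpos k hk, hK₀ k hk]
    · rw [← hext z hz, e1 z]
      have := ps_smul (c := fun k => (((a0 n Q k : ℚ) : ℝ) : ℂ)) (-1) z
      rw [neg_one_mul] at this
      rw [← this]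
      congr 1
      funext k
      push_cast
      ring
  · have hpos : ∀ k ≥ K₀, 0 < ((a0 n Q k : ℚ) : ℝ) := by
      intro k hk
      induction k, hk using Nat.le_induction with
      | base => exact_mod_cast h0
      | succ k hk ih =>
        rw [hstep]
        exact mul_pos ih (by linarith [hK₀ k hk])
    refine no_ext hpg hpos (fun k hk => ?_) hg fun z hz => ?_
    · rw [hstep]
      nlinarith [hpos k hk, hK₀ k hk]
    · rw [← hext z hz, e1 z]

/-! ### products of linear factors -/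

section roots

variable {ι : Type} [Fintype ι]

/-- the polynomial `∏ (x + γ_i)` -/
noncomputable def QR (γ : ι → ℚ) : Polynomial ℚ := ∏ i, (Polynomial.X + Polynomial.C (γ i))

lemma QE_QR {γ : ι → ℚ} (hγ : ∀ i, ∀ l : ℕ, (l : ℚ) + γ i ≠ 0) {n : ℕ} (hn : Fintype.card ι = n) (h2 : 2 ≤ n) :
    QE n (QR γ) where
  two := h2
  monic := Polynomial.monic_prod_of_monic _ _ fun i _ => Polynomial.monic_X_add_C _
  deg := by
    unfold QR
    rw [Polynomial.natDegree_prod_of_monic _ _ fun i _ => Polynomial.monic_X_add_C _]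
    simp only [Polynomial.natDegree_X_add_C]
    rw [Finset.sum_const, Finset.card_univ, hn, smul_eq_mul, mul_one]
  ne := by
    intro l
    unfold QR
    rw [Polynomial.eval_prod]
    refine Finset.prod_ne_zero_iff.2 fun i _ => ?_
    rw [Polynomial.eval_add, Polynomial.eval_X, Polynomial.eval_C]
    exact hγ i l

open PowerSeries in
lemma aq_QR (γ : ι → ℚ) {n : ℕ} (hn : Fintype.card ι = n) (k : ℕ) : aq n (QR γ) k = ∏ i, uq (γ i) k := by
  unfold aq uq QR
  rw [Finset.prod_comm]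
  refine Finset.prod_congr rfl fun l _ => ?_
  rw [map_prod]
  have h1 : ∀ i : ι, Polynomial.aeval (kx l) (Polynomial.X + Polynomial.C (γ i)) = (C ((l : ℚ) + γ i) + X : ℚ⟦X⟧) := by
    intro i
    rw [map_add, Polynomial.aeval_X, Polynomial.aeval_C]
    have h2 : algebraMap ℚ ℚ⟦X⟧ (γ i) = C (γ i) := rfl
    rw [h2, map_add]
    unfold kx
    ring
  simp only [h1]
  have h3 : ((kx (l + 1))⁻¹) ^ n = ∏ _i : ι, ((kx (l + 1))⁻¹) := by
    rw [Finset.prod_const, Finset.card_univ, hn]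
  rw [h3, ← Finset.prod_mul_distrib]

open PowerSeries in
/-- the denominators -/
lemma hq_den {γ : ι → ℚ} (hγ : ∀ i, ∀ l : ℕ, (l : ℚ) + γ i ≠ 0) {n : ℕ} (hn : Fintype.card ι = n) :
    ∃ A : ℝ, ∀ K, ∃ d : ℕ, 0 < d ∧ (d : ℝ) ≤ A ^ (K + 1) ∧ ∀ k ≤ K, ∀ i j : ℕ, j < n →
      ∃ a : ℤ, (d : ℚ) * hq n (QR γ) k i j = a := by
  classical
  set Bd : ℕ := 1 + ∑ i, ((γ i).den + (γ i).num.natAbs) with hBd
  have hBi : ∀ i, (γ i).den + (γ i).num.natAbs + 1 ≤ Bd := by
    intro i
    have := Finset.single_le_sum (f := fun i => (γ i).den + (γ i).num.natAbs) (fun _ _ => Nat.zero_le _) (Finset.mem_univ i)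
    omega
  set M : ℕ := ∏ i, ((γ i).den ^ 2) with hM
  have hM1 : 1 ≤ M := by
    rw [hM]
    refine Nat.succ_le_of_lt (Finset.prod_pos fun i _ => ?_)
    have := (γ i).den_pos
    positivity
  refine ⟨(M : ℝ) * ((2 ^ 8) ^ Bd) ^ n, fun K => ?_⟩
  set L : ℕ := Nat.lcmUpto (K * Bd + Bd) with hL
  have hL0 : 0 < L := Nat.lcmUpto_pos _
  have hLd : ∀ γ : ℚ, γ.den + γ.num.natAbs + 1 ≤ Bd → ∀ i : ℕ, 1 ≤ i → i ≤ K * γ.den + γ.num.natAbs + K → i ∣ L := by
    intro γ hγ i h1 h2
    refine Pool.Agent.Y113.dvd_lcmUpto h1 (h2.trans ?_)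
    have h3 : K * (γ.den + 1) ≤ K * Bd := Nat.mul_le_mul_left _ (by omega)
    rw [mul_add, mul_one] at h3
    omega
  refine ⟨M ^ K * L ^ n, by positivity, ?_, fun k hk i j hj => ?_⟩
  · push_cast
    have h1 : (L : ℝ) ≤ (2 ^ 8) ^ (K * Bd + Bd) := Pool.Agent.Y113.lcm_bound _
    have hM1' : (1 : ℝ) ≤ M := by exact_mod_cast hM1
    calc (M : ℝ) ^ K * (L : ℝ) ^ n ≤ (M : ℝ) ^ (K + 1) * ((2 ^ 8) ^ (K * Bd + Bd)) ^ n :=
          mul_le_mul (pow_le_pow_right₀ hM1' (Nat.le_succ K)) (pow_le_pow_left₀ (by positivity) h1 _) (by positivity)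
            (by positivity)
      _ = _ := by
          rw [mul_pow]
          congr 1
          generalize ((2 : ℝ) ^ 8) = B
          rw [← pow_mul, ← pow_mul, ← pow_mul]
          congr 1
          ring
  · -- the factors
    have hm1 : ∀ i, ∃ w ∈ SL L, uq (γ i) k = C (∏ l ∈ Finset.range k, (((l : ℚ) + γ i) / ((l : ℚ) + 1))) * w := fun i =>
      uq_eq (fun l => hγ i l) hk (hLd _ (hBi i))
    choose w1 hw1 hw1' using hm1
    set c : ℚ := ∏ i, (∏ l ∈ Finset.range k, (((l : ℚ) + γ i) / ((l : ℚ) + 1))) with hc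
    have haq : aq n (QR γ) k = C c * ∏ i, w1 i := by
      rw [aq_QR γ hn, hc, map_prod, ← Finset.prod_mul_distrib]
      refine Finset.prod_congr rfl fun i _ => ?_
      rw [hw1' i]
    have hcM : ∃ a : ℤ, ((M : ℚ) ^ k) * c = a := by
      choose a ha using fun i => poch_int (γ i) k
      refine ⟨∏ i, a i, ?_⟩
      rw [hc, hM]
      push_cast
      rw [← Finset.prod_pow, ← Finset.prod_mul_distrib]
      refine Finset.prod_congr rfl fun i _ => ?_
      rw [← ha i]
    obtain ⟨a, ha⟩ := hcM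
    have hmem : kx k ^ i * ∏ i, w1 i ∈ SL L := by
      refine (SL L).mul_mem ((SL L).pow_mem ((SL L).add_mem ?_ (SL_X L)) _)
        ((SL L).prod_mem fun i _ => hw1 i)
      have := SL_C L (k : ℤ)
      exact_mod_cast this
    obtain ⟨b, hb⟩ := SL_coeff hmem j
    refine ⟨(M : ℤ) ^ (K - k) * a * ((L : ℤ) ^ (n - j) * b), ?_⟩
    unfold hq
    rw [haq, show kx k ^ i * (C c * ∏ i, w1 i) = C c * (kx k ^ i * ∏ i, w1 i) by ring,
      PowerSeries.coeff_C_mul]
    push_cast
    rw [← ha, ← hb]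
    have e1 : (M : ℚ) ^ K = (M : ℚ) ^ (K - k) * (M : ℚ) ^ k := by rw [← pow_add]; congr 1; omega
    have e2 : (L : ℚ) ^ n = (L : ℚ) ^ (n - j) * (L : ℚ) ^ j := by rw [← pow_add]; congr 1; omega
    rw [e1, e2]
    ring

open Pool.Agent.Y113 in
theorem sdc_hps {γ : ι → ℚ} (hγ : ∀ i, ∀ l : ℕ, (l : ℚ) + γ i ≠ 0) {n : ℕ} (hn : Fintype.card ι = n) (h2 : 2 ≤ n)
    (i j : Fin n) : SDc (hps n (QR γ) i j) := by
  refine sdc_of ?_ ?_
  · obtain ⟨A, hA⟩ := ((sol_c (QE_QR hγ hn h2)).growth Ac_nil i j).exp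
    refine ⟨A, fun k => ?_⟩
    have h1 := hA k
    unfold Hc at h1
    rw [cm_apply] at h1
    unfold hps
    rw [PowerSeries.coeff_mk]
    refine le_trans (le_of_eq ?_) h1
    have e1 : ((Hq n (QR γ) k i j : ℚ) : ℂ) = (((Hq n (QR γ) k i j : ℚ) : ℝ) : ℂ) := by push_cast; rfl
    rw [e1, Complex.norm_real, Real.norm_eq_abs]
    rfl
  · obtain ⟨A, hA⟩ := hq_den hγ hn
    refine ⟨A, fun K => ?_⟩
    obtain ⟨d, hd0, hd, hd'⟩ := hA K
    refine ⟨d, hd0, hd, fun k hk => ?_⟩
    unfold hps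
    rw [PowerSeries.coeff_mk]
    exact hd' k hk i j j.2

end roots

end Pool.Agent.E8helper3.HO
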