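import Pool.Agent.E8helper3.HO.RlG

/-!
# Hypergeometric families: for almost all tuples of fibres all relations of bounded degree are invariant under the
Galois groups
-/

set_option autoImplicit false

open PowerSeries Pool.Agent.Y113 Pool.Agent.Y120.GF Pool.Agent.Y120.GH

namespace Pool.Agent.E8helper3.HO

open Pool.Agent.Y119.HY (Am Jm cm E Hf Hc Yf Gal E_mul_neg E_isom)
open Pool.Agent.Y119.HZ hiding ode_Hp Bm_rel form_Hp Wp Wp_mul mul_Wp SDc_Wp ode_int gsys_Hp ode_A2 Phi_ode qu_hf hfam_hf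
  Cv_Hp ev_aeval rel_inv relI_vanish hyp_tuples_log

/-- a hypergeometric family with a group of matrices which preserve the relations -/
structure Fm (n : ℕ) (Q : Polynomial ℚ) (𝒢 : Set (Matrix (Fin n) (Fin n) ℂ)) : Prop where
  qe : QE n Q
  qe' : QE n (dual n Q)
  sd : ∀ a b, SDc (Hp n Q a b)
  sd' : ∀ a b, SDc (Hp n (dual n Q) a b)
  mul : ∀ g ∈ 𝒢, ∀ h ∈ 𝒢, g * h ∈ 𝒢
  exp : ∀ c : ℂ, E (cm (Am n)) c ∈ 𝒢
  gal : ∀ g ∈ 𝒢, g ∈ Gal (Yf (cm (Am n)) (Hc n Q))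

lemma Fm.conj {n : ℕ} {Q : Polynomial ℚ} {𝒢 : Set (Matrix (Fin n) (Fin n) ℂ)} (h : Fm n Q 𝒢) (c : ℂ)
    (g : Matrix (Fin n) (Fin n) ℂ) (hg : g ∈ 𝒢) : E (cm (Am n)) c * g * E (cm (Am n)) (-c) ∈ 𝒢 :=
  h.mul _ (h.mul _ (h.exp c) _ hg) _ (h.exp (-c))

variable {k : ℕ} {n : Fin k → ℕ} {Q : Fin k → Polynomial ℚ} {𝒢 : ∀ i, Set (Matrix (Fin (n i)) (Fin (n i)) ℂ)}

theorem relI_vanish (hF : ∀ i, Fm (n i) (Q i) (𝒢 i)) {δ : ℕ} {t : Fin k → ℕ} (ht : ∀ i, 2 ≤ t i)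
    {κ : ∀ i, Matrix (Fin (n i)) (Fin (n i)) ℂ} (hκ : ∀ i, κ i ∈ 𝒢 i) (l : Fin k → ℂ)
    {P : MvPolynomial (Vx n) ℂ} (hP : P ∈ relI δ (fun i => hf (n i) (Q i)) t) :
    MvPolynomial.aeval (pt (fun i j => (Hf (Hc (n i) (Q i)) (((1 / (t i : ℝ) : ℝ)) : ℂ) * κ i) (ix (n i) j).1 (ix (n i) j).2) l) P = 0 := by
  set θ := pt (fun i j => (Hf (Hc (n i) (Q i)) (((1 / (t i : ℝ) : ℝ)) : ℂ) * κ i) (ix (n i) j).1 (ix (n i) j).2) l with hθ
  have h1 : relI δ (fun i => hf (n i) (Q i)) t ≤ RingHom.ker (MvPolynomial.aeval (R := ℂ) θ).toRingHom := by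
    unfold relI
    rw [Ideal.span_le]
    rintro _ ⟨i, R, -, hR, rfl⟩
    show (MvPolynomial.aeval θ) (MvPolynomial.rename (fun j => (⟨i, some j⟩ : Vx n)) (MvPolynomial.map (spec (t i)) R)) = 0
    rw [MvPolynomial.aeval_rename, MvPolynomial.aeval_def, MvPolynomial.eval₂_map]
    have h2 : (algebraMap ℂ ℂ).comp (spec (t i)) = evq (((1 / (t i : ℝ) : ℝ)) : ℂ) := by
      rw [← spec_eq]
      rfl
    rw [h2]
    have h3 : (2 : ℝ) ≤ t i := by exact_mod_cast ht i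
    have h4 := rel_inv (hF i).qe (R := R) hR (x := 1 / (t i : ℝ)) (by positivity) (by rw [div_lt_one (by linarith)]; linarith)
      (hF i).conj (hF i).gal (hκ i)
    have h5 : (θ ∘ fun j => (⟨i, some j⟩ : Vx n)) = fun j : Fin (n i * n i) =>
        (Hf (Hc (n i) (Q i)) (((1 / (t i : ℝ) : ℝ)) : ℂ) * κ i) (ix (n i) j).1 (ix (n i) j).2 := by
      funext j
      rfl
    rw [h5]
    exact h4
  exact h1 hP

/-- **Few exceptional tuples.** -/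
theorem tuples_log (k δ D : ℕ) (n : Fin k → ℕ) (Q : Fin k → Polynomial ℚ)
    (𝒢 : ∀ i, Set (Matrix (Fin (n i)) (Fin (n i)) ℂ)) (hF : ∀ i, Fm (n i) (Q i) (𝒢 i)) :
    ∃ c C : ℝ, 0 < c ∧ 0 ≤ C ∧ ∀ (V : Submodule ℚ ℂ) [Module.Finite ℚ V], Module.finrank ℚ V ≤ D →
      ∀ Ω : (∀ i, Matrix (Fin (n i)) (Fin (n i)) ℂ), ∀ (x : Fin k → ℕ) (N : ℕ), (∀ i, 1 ≤ x i) → 1 ≤ N →
      ∀ S : Finset (Fin k → ℕ), (∀ t ∈ S, (∀ i, x i < t i ∧ t i ≤ x i + N) ∧ ∃ P : MvPolynomial (Jx n) ℂ,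
        P.totalDegree ≤ δ ∧ (∀ s, P.coeff s ∈ V) ∧
        MvPolynomial.aeval (pw (fun i => ((Real.log (t i) : ℝ) : ℂ)) fun i => Yt (n i) (Q i) (t i) * Ω i) P = 0 ∧
        ∃ (l : Fin k → ℂ) (g : ∀ i, Matrix (Fin (n i)) (Fin (n i)) ℂ),
          (∀ i, g i ∈ 𝒢 i) ∧ MvPolynomial.aeval (pw l fun i => Yt (n i) (Q i) (t i) * g i * Ω i) P ≠ 0) →
      (S.card : ℝ) ≤ C * (N : ℝ) ^ (k - 1) * ∑ i, (1 + N / ((x i : ℝ) + N) ^ c) := by
  classical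
  obtain ⟨c, C, hc, hC, hmain⟩ := tuples k (δ * dg n) ((Fintype.card (Option (Ix n))) ^ δ * D) (fun i => n i * n i)
    (fun i => hf (n i) (Q i)) (fun i => by
      obtain ⟨C₁, -, hs, -⟩ := Pool.Agent.Y119.HY.SDc.unif
        (y := fun p : Fin (n i) × Fin (n i) => Hp (n i) (Q i) p.1 p.2) fun p => (hF i).sd p.1 p.2
      exact ⟨C₁, fun j m => hs (ix (n i) j) m⟩) (fun i => hfam_hf (hF i).qe (hF i).qe' (hF i).sd (hF i).sd' _)
  refine ⟨c, C, hc, hC, ?_⟩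
  intro V _ hV Ω x N hx hN S hS
  obtain ⟨hfin, hrank⟩ := Vn_fin Ω V δ
  refine hmain (Vn Ω V δ) (hrank.trans (Nat.mul_le_mul_left _ hV)) x N hN S fun t htS => ?_
  obtain ⟨hbox, P, hPd, hPV, hP0, l, g, hg, hPg⟩ := hS t htS
  refine ⟨hbox, MvPolynomial.aeval (sub' Ω) P, (aeval_MV' Ω hPd hPV).2, (aeval_MV' Ω hPd hPV).1, ?_, ?_⟩
  · -- the value
    have h1 : valpt (fun i => hf (n i) (Q i)) t =
        pt (fun i j => Hf (Hc (n i) (Q i)) (((1 / (t i : ℝ) : ℝ)) : ℂ) (ix (n i) j).1 (ix (n i) j).2)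
          (fun i => ((Real.log (t i) : ℝ) : ℂ)) := by
      unfold valpt
      congr 1
      funext i j
      exact ev_Hp _ _ _
    have h2 : MvPolynomial.aeval (valpt (fun i => hf (n i) (Q i)) t) (MvPolynomial.aeval (sub' Ω) P) =
        MvPolynomial.aeval (fun v => MvPolynomial.aeval (valpt (fun i => hf (n i) (Q i)) t) (sub' Ω v)) P :=
      MvPolynomial.aeval_bind₁ _ _ _
    rw [h2, h1]
    have h3 := fun v => aeval_sub' Ω (fun i => Hf (Hc (n i) (Q i)) (((1 / (t i : ℝ) : ℝ)) : ℂ)) (fun i => ((Real.log (t i) : ℝ) : ℂ)) v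
    simp only [h3]
    exact hP0
  · intro hmem
    apply hPg
    set N' := fun i => cm (Am (n i)) with hN'
    have ht2 : ∀ i, 2 ≤ t i := fun i => by
      have := (hbox i).1
      have := hx i
      omega
    have hN : ∀ i, (N' i) ^ n i = 0 := fun i => Pool.Agent.Y119.HY.Ac_nil
    let κ : ∀ i, Matrix (Fin (n i)) (Fin (n i)) ℂ := fun i => E (N' i) (-((Real.log (t i) : ℝ) : ℂ)) * g i * E (N' i) (l i)
    have hκ : ∀ i, κ i ∈ 𝒢 i := fun i => (hF i).mul _ ((hF i).mul _ ((hF i).exp _) _ (hg i)) _ ((hF i).exp _)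
    have h1 := relI_vanish hF ht2 hκ l hmem
    have h2 : MvPolynomial.aeval (pt (fun i j => (Hf (Hc (n i) (Q i)) (((1 / (t i : ℝ) : ℝ)) : ℂ) * κ i)
        (ix (n i) j).1 (ix (n i) j).2) l) (MvPolynomial.aeval (sub' Ω) P) =
        MvPolynomial.aeval (fun v => MvPolynomial.aeval (pt (fun i j => (Hf (Hc (n i) (Q i)) (((1 / (t i : ℝ) : ℝ)) : ℂ) * κ i)
          (ix (n i) j).1 (ix (n i) j).2) l) (sub' Ω v)) P := MvPolynomial.aeval_bind₁ _ _ _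
    rw [h2] at h1
    have h3 := fun v => aeval_sub' Ω (fun i => Hf (Hc (n i) (Q i)) (((1 / (t i : ℝ) : ℝ)) : ℂ) * κ i) l v
    simp only [h3] at h1
    have h4 : (fun i => Hf (Hc (n i) (Q i)) (((1 / (t i : ℝ) : ℝ)) : ℂ) * κ i * E (cm (Am (n i))) (-l i) * Ω i) =
        fun i => Yt (n i) (Q i) (t i) * g i * Ω i := by
      funext i
      have e1 : E (N' i) (l i) * E (N' i) (-l i) = 1 := E_mul_neg (hN i) (l i)
      calc Hf (Hc (n i) (Q i)) (((1 / (t i : ℝ) : ℝ)) : ℂ) * κ i * E (N' i) (-l i) * Ω i =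
          Hf (Hc (n i) (Q i)) (((1 / (t i : ℝ) : ℝ)) : ℂ) * E (N' i) (-((Real.log (t i) : ℝ) : ℂ)) * g i *
            (E (N' i) (l i) * E (N' i) (-l i)) * Ω i := by
            show Hf (Hc (n i) (Q i)) (((1 / (t i : ℝ) : ℝ)) : ℂ) * (E (N' i) (-((Real.log (t i) : ℝ) : ℂ)) * g i *
              E (N' i) (l i)) * E (N' i) (-l i) * Ω i = _
            simp only [Matrix.mul_assoc]
        _ = _ := by rw [e1, mul_one]; rfl
    rw [h4] at h1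
    exact h1

end Pool.Agent.E8helper3.HO
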