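import Pool.Agent.E8helper3.HO.Ort2
import Pool.Agent.E8helper3.HO.FinG

/-!
# The self-dual hypergeometric families of all orders
-/

set_option autoImplicit false

open Pool.Agent.Y113 Pool.Agent.Y119.HY

namespace Pool.Agent.E8helper3.HO

variable {m : ℕ} {e : ℕ} {β : Fin m → ℚ}

/-- the parameters -/
def gm (e : ℕ) {m : ℕ} (β : Fin m → ℚ) : (Fin m ⊕ Fin m) ⊕ Fin e → ℚ :=
  Sum.elim (Sum.elim β fun j => -β j) fun _ => -(1 / 2)

/-- the polynomial `(x - 1/2)^e ∏_j (x^2 - β_j^2)` -/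
noncomputable def Qe (e : ℕ) {m : ℕ} (β : Fin m → ℚ) : Polynomial ℚ :=
  (Polynomial.X - Polynomial.C (1 / 2)) ^ e * ∏ j, (Polynomial.X ^ 2 - Polynomial.C (β j ^ 2))

/-- the polynomial `(x^2 - 1/4)^e ∏_j (x^2 - β_j^2)` -/
noncomputable def Pe (e : ℕ) {m : ℕ} (β : Fin m → ℚ) : Polynomial ℚ :=
  (Polynomial.X ^ 2 - Polynomial.C (1 / 4)) ^ e * ∏ j, (Polynomial.X ^ 2 - Polynomial.C (β j ^ 2))

lemma QR_gm (e : ℕ) (β : Fin m → ℚ) : QR (gm e β) = Qe e β := by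
  unfold QR gm Qe
  rw [Fintype.prod_sum_type, Fintype.prod_sum_type, mul_comm]
  simp only [Sum.elim_inl, Sum.elim_inr, Finset.prod_const, Finset.card_univ, Fintype.card_fin]
  rw [← Finset.prod_mul_distrib]
  congr 1
  · rw [map_neg, sub_eq_add_neg]
  · refine Finset.prod_congr rfl fun j _ => ?_
    rw [map_neg, map_pow]
    ring

lemma dual_QR {ι : Type} [Fintype ι] (γ : ι → ℚ) {n : ℕ} (hn : Fintype.card ι = n) :
    dual n (QR γ) = QR fun i => -γ i := by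
  unfold dual QR
  rw [Polynomial.prod_comp]
  have h1 : ∀ i, (Polynomial.X + Polynomial.C (γ i)).comp (-Polynomial.X) =
      Polynomial.C (-1) * (Polynomial.X + Polynomial.C (-γ i)) := by
    intro i
    rw [Polynomial.add_comp, Polynomial.X_comp, Polynomial.C_comp, map_neg, map_neg, map_one]
    ring
  simp only [h1]
  rw [Finset.prod_mul_distrib, Finset.prod_const, Finset.card_univ, hn, ← map_pow, ← mul_assoc, ← map_mul, ← mul_pow]
  norm_num

lemma card_gm : Fintype.card ((Fin m ⊕ Fin m) ⊕ Fin e) = 2 * m + e := by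
  simp only [Fintype.card_sum, Fintype.card_fin]
  ring

lemma gm_ne (hβ : ∀ j, ∀ a : ℤ, β j ≠ a) (i : (Fin m ⊕ Fin m) ⊕ Fin e) (a : ℤ) : (a : ℚ) + gm e β i ≠ 0 := by
  unfold gm
  rcases i with (j | j) | j
  · intro h
    exact hβ j (-a) (by push_cast; simp only [Sum.elim_inl] at h; linear_combination h)
  · intro h
    exact hβ j a (by simp only [Sum.elim_inl, Sum.elim_inr] at h; linear_combination -h)
  · intro h
    simp only [Sum.elim_inr] at h
    have h1 : (2 : ℚ) * a = 1 := by linear_combination 2 * h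
    have h2 : (2 : ℤ) * a = 1 := by exact_mod_cast h1
    omega

lemma QE_e (hm : 1 ≤ m) (hβ : ∀ j, ∀ a : ℤ, β j ≠ a) : QE (2 * m + e) (Qe e β) := by
  rw [← QR_gm]
  exact QE_QR (fun i l => by have := gm_ne hβ i (l : ℤ); exact_mod_cast this) card_gm (by omega)

lemma gm_ne' (hβ : ∀ j, ∀ a : ℤ, β j ≠ a) (i : (Fin m ⊕ Fin m) ⊕ Fin e) (l : ℕ) : (l : ℚ) + -gm e β i ≠ 0 := by
  have := gm_ne hβ i (-(l : ℤ))
  intro h
  apply this
  push_cast
  linear_combination -h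

lemma QE_d (hm : 1 ≤ m) (hβ : ∀ j, ∀ a : ℤ, β j ≠ a) : QE (2 * m + e) (dual (2 * m + e) (Qe e β)) := by
  rw [← QR_gm, dual_QR _ card_gm]
  exact QE_QR (fun i l => gm_ne' hβ i l) card_gm (by omega)

lemma sd_e (hm : 1 ≤ m) (hβ : ∀ j, ∀ a : ℤ, β j ≠ a) (a b : Fin (2 * m + e)) :
    SDc (Pool.Agent.Y119.HZ.Hp (2 * m + e) (Qe e β) a b) := by
  have h := sdc_hps (γ := gm e β) (fun i l => by have := gm_ne hβ i (l : ℤ); exact_mod_cast this) card_gm (by omega) a b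
  rw [QR_gm] at h
  exact h

lemma sd_d (hm : 1 ≤ m) (hβ : ∀ j, ∀ a : ℤ, β j ≠ a) (a b : Fin (2 * m + e)) :
    SDc (Pool.Agent.Y119.HZ.Hp (2 * m + e) (dual (2 * m + e) (Qe e β)) a b) := by
  have h := sdc_hps (γ := fun i => -gm e β i) (fun i l => gm_ne' hβ i l) card_gm (by omega) a b
  rw [← dual_QR _ card_gm, QR_gm] at h
  exact h

lemma PQ_Qe : PQ (Qe 1 β) = Pe 1 β := by
  unfold PQ Qe Pe
  rw [pow_one, pow_one, ← mul_assoc]
  congr 1
  have h : (Polynomial.C (1 / 4 : ℚ)) = Polynomial.C (1 / 2 : ℚ) * Polynomial.C (1 / 2 : ℚ) := by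
    rw [← map_mul]
    norm_num
  rw [h]
  ring

lemma Pe_sym (j : ℕ) (hj : Odd j) : (Pe e β).coeff j = 0 := by
  have h1 : Pe e β = Polynomial.expand ℚ 2 ((Polynomial.X - Polynomial.C (1 / 4)) ^ e *
      ∏ i, (Polynomial.X - Polynomial.C (β i ^ 2))) := by
    unfold Pe
    rw [map_mul, map_pow, map_prod]
    congr 1
    · rw [map_sub, Polynomial.expand_X, Polynomial.expand_C]
    · refine Finset.prod_congr rfl fun i _ => ?_
      rw [map_sub, Polynomial.expand_X, Polynomial.expand_C]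
  rw [h1, Polynomial.coeff_expand (by norm_num), if_neg]
  intro h2
  obtain ⟨a, ha⟩ := h2
  obtain ⟨c, hc⟩ := hj
  omega

lemma QO_e (hm : 1 ≤ m) (hβ : ∀ j, ∀ a : ℤ, β j ≠ a) : QO (2 * m + 1) (Qe 1 β) where
  qe := QE_e hm hβ
  qe' := QE_d hm hβ
  odd := ⟨m, rfl⟩
  sym := by
    intro j hj
    rw [PQ_Qe]
    exact Pe_sym j hj

lemma Qe_zero : Qe 0 β = QB β := by
  unfold Qe QB
  rw [pow_zero, one_mul]

lemma Pe_zero : Pe 0 β = QB β := by
  unfold Pe QB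
  rw [pow_zero, one_mul]

lemma QD_e (hm : 1 ≤ m) (hβ : ∀ j, ∀ a : ℤ, β j ≠ a) : QD (2 * m) (QB β) :=
  Pool.Agent.Y119.HZ.QD_QB hm fun j l => ⟨fun h => hβ j (-(l : ℤ)) (by push_cast; linear_combination h),
    fun h => hβ j (l : ℤ) (by push_cast; linear_combination -h)⟩

/-- the form at the origin -/
noncomputable def Je (e : ℕ) {m : ℕ} (β : Fin m → ℚ) : Matrix (Fin (2 * m + e)) (Fin (2 * m + e)) ℂ :=
  cm (Jm (2 * m + e) (Pe e β))

/-- the form at `z` -/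
noncomputable def Jze (e : ℕ) {m : ℕ} (β : Fin m → ℚ) (z : ℂ) : Matrix (Fin (2 * m + e)) (Fin (2 * m + e)) ℂ :=
  Je e β - ((e : ℂ) * (z / (1 - z))) • cm (Vm (2 * m + e) (Qe e β))

lemma Je_det (hm : 1 ≤ m) (hβ : ∀ j, ∀ a : ℤ, β j ≠ a) (he : e ≤ 1) : (Je e β).det ≠ 0 := by
  interval_cases e
  · have := Pool.Agent.Y119.HY.Jc_det (QD_e hm hβ)
    unfold Je
    rw [Pe_zero]
    exact this
  · have := Jo_det (QO_e hm hβ)
    unfold Jo at this
    rw [PQ_Qe] at this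
    exact this

lemma Je_trans (hm : 1 ≤ m) (hβ : ∀ j, ∀ a : ℤ, β j ≠ a) (he : e ≤ 1) :
    (Je e β).transpose = (-1 : ℂ) ^ (e + 1) • Je e β := by
  interval_cases e
  · have := Pool.Agent.Y119.HY.Jc_skew (QD_e hm hβ)
    unfold Je
    rw [Pe_zero]
    simpa using this
  · have := Jo_trans (QO_e hm hβ)
    unfold Jo at this
    rw [PQ_Qe] at this
    unfold Je
    simpa using this

lemma Y_form (hm : 1 ≤ m) (hβ : ∀ j, ∀ a : ℤ, β j ≠ a) (he : e ≤ 1) {t : ℕ} (ht : 2 ≤ t) :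
    (Pool.Agent.Y119.HZ.Yt (2 * m + e) (Qe e β) t).transpose * Jze e β (((1 / (t : ℝ) : ℝ)) : ℂ) *
      Pool.Agent.Y119.HZ.Yt (2 * m + e) (Qe e β) t = Je e β := by
  have ht0 : (2 : ℝ) ≤ t := by exact_mod_cast ht
  have hL : (((1 / (t : ℝ) : ℝ)) : ℂ) ∈ Lens :=
    real_mem_Lens (by positivity) (by rw [div_lt_one (by linarith)]; linarith)
  interval_cases e
  · have := Pool.Agent.Y119.HZ.Yt_form (QD_e hm hβ) ht
    unfold Jze Je
    rw [Nat.cast_zero, zero_mul, zero_smul, sub_zero, Pe_zero, Qe_zero]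
    exact this
  · have := pair_self (QO_e hm hβ) hL
    unfold Jz Jo at this
    rw [PQ_Qe] at this
    unfold Jze Je
    rw [Nat.cast_one, one_mul, Pool.Agent.Y119.HZ.Yt_eq (by omega)]
    exact this

/-- the self-dual families -/
theorem Fm_e (hm : 1 ≤ m) (hβ : ∀ j, ∀ a : ℤ, β j ≠ a) (he : e ≤ 1) :
    Fm (2 * m + e) (Qe e β) {g | g.transpose * Je e β * g = Je e β} where
  qe := QE_e hm hβ
  qe' := QE_d hm hβ
  sd := sd_e hm hβ
  sd' := sd_d hm hβ
  mul := fun _ hg _ hh => Pool.Agent.Y119.HZ.isom_mul hg hh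
  exp := fun c => E_isom Pool.Agent.Y119.HY.Ac_nil Pool.Agent.Y119.HY.Jc_rel c
  gal := by
    intro g hg
    have hg' : g.transpose * Je e β * g = Je e β := hg
    interval_cases e
    · unfold Je at hg'
      rw [Pe_zero] at hg'
      rw [Qe_zero]
      exact hyp_invar (QD_e hm hβ) g hg'
    · refine ort_invar (QO_e hm hβ) g ?_
      unfold Jo
      rw [PQ_Qe]
      exact hg'

end Pool.Agent.E8helper3.HO
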