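import Pool.Agent.E8helper3.HO.Base

/-!
# The inverse of the holomorphic part through the dual hypergeometric equation, and the G-system
-/

set_option autoImplicit false

open PowerSeries

namespace Pool.Agent.E8helper3.HO

open Pool.Agent.Y113 hiding Bm
open Pool.Agent.Y119.HY (Am Jm Bm Hq hq hps Hq_zero Jm_rel Am_nil mul_Am cm)
open Pool.Agent.Y119.HZ hiding ode_Hp Bm_rel form_Hp Wp Wp_mul mul_Wp SDc_Wp ode_int gsys_Hp

variable {n : ℕ} {Q : Polynomial ℚ}

/-- the system at the origin -/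
theorem ode_Hp (hQ : QE n Q) : (1 - X : ℚ⟦X⟧) • (th (Hp n Q) + Hp n Q * km (Am n)) =
    ((1 - X : ℚ⟦X⟧) • km (Am n) + (X : ℚ⟦X⟧) • km (Bm n Q)) * Hp n Q := by
  have hS : (1 - X : ℚ⟦X⟧) • (th (Hp n Q) + Hp n Q * km (Am n) - km (Am n) * Hp n Q) = (X : ℚ⟦X⟧) • (km (Bm n Q) * Hp n Q) := by
    have hc : ∀ k, cf (th (Hp n Q) + Hp n Q * km (Am n) - km (Am n) * Hp n Q) k =
        (k : ℚ) • Hq n Q k + (Hq n Q k * Am n - Am n * Hq n Q k) := by
      intro k
      have h1 : cf (th (Hp n Q) + Hp n Q * km (Am n) - km (Am n) * Hp n Q) k =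
          cf (th (Hp n Q)) k + cf (Hp n Q * km (Am n)) k - cf (km (Am n) * Hp n Q) k := by
        ext i j
        unfold cf
        simp only [Matrix.map_apply, Matrix.sub_apply, Matrix.add_apply, map_sub, map_add]
      rw [h1, cf_th, cf_mul_km, cf_km_mul, cf_Hp, add_sub_assoc]
    ext i j k
    rw [Matrix.smul_apply, Matrix.smul_apply, smul_eq_mul, smul_eq_mul, sub_mul, one_mul, map_sub]
    have h2 : ∀ k, coeff k ((th (Hp n Q) + Hp n Q * km (Am n) - km (Am n) * Hp n Q) i j) =
        ((k : ℚ) • Hq n Q k + (Hq n Q k * Am n - Am n * Hq n Q k)) i j := fun k => congrFun (congrFun (hc k) i) j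
    have h3 : ∀ k, coeff k ((km (Bm n Q) * Hp n Q) i j) = (Bm n Q * Hq n Q k) i j := by
      intro k
      have := congrFun (congrFun (cf_km_mul (Bm n Q) (Hp n Q) k) i) j
      rw [cf_Hp] at this
      exact this
    rcases k with _ | k
    · rw [coeff_zero_X_mul, coeff_zero_X_mul, h2, Hq_zero]
      simp
    · rw [coeff_succ_X_mul, coeff_succ_X_mul, h2, h2, h3]
      have h4 := step_q hQ k i j
      simp only [Matrix.add_apply, Matrix.smul_apply, Matrix.sub_apply, smul_eq_mul]
      push_cast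
      linear_combination h4
  rw [smul_sub] at hS
  rw [add_mul, smul_mul_assoc, smul_mul_assoc, ← hS]
  abel

/-- the dual polynomial `(-1)^n Q(-x)` -/
noncomputable def dual (n : ℕ) (Q : Polynomial ℚ) : Polynomial ℚ := Polynomial.C ((-1) ^ n) * Q.comp (-Polynomial.X)

lemma dual_coeff (l : ℕ) : (dual n Q).coeff l = (-1) ^ (n + l) * Q.coeff l := by
  unfold dual
  have h : (-Polynomial.X : Polynomial ℚ) = Polynomial.C (-1) * Polynomial.X := by
    rw [map_neg, map_one, neg_one_mul]
  rw [Polynomial.coeff_C_mul, h, Polynomial.comp_C_mul_X_coeff, pow_add]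
  ring

lemma Jm_dual_apply (i j : Fin n) : Jm n (dual n Q) i j =
    if n ≤ (i : ℕ) + j + 1 then (-1) ^ ((j : ℕ) + 1) * Q.coeff (i + j + 1 - n) else 0 := by
  unfold Jm
  rw [Matrix.of_apply]
  split_ifs with h
  · rw [dual_coeff, ← mul_assoc, ← pow_add]
    have h1 : (i : ℕ) + (n + ((i : ℕ) + j + 1 - n)) = 2 * i + (j + 1) := by omega
    rw [h1, pow_add, pow_mul, neg_one_sq, one_pow, one_mul]
  · rfl

/-- the two equations are adjoint -/
lemma Bm_rel : (Bm n Q).transpose * Jm n (dual n Q) + Jm n (dual n Q) * Bm n (dual n Q) = 0 := by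
  rcases Nat.eq_zero_or_pos n with h0 | hpos
  · subst h0
    exact Subsingleton.elim _ _
  ext i j
  rw [Matrix.add_apply, Matrix.zero_apply, Matrix.mul_apply, Matrix.mul_apply]
  have e1 : ∑ l, (Bm n Q).transpose i l * Jm n (dual n Q) l j = Q.coeff i * ((-1) ^ ((j : ℕ) + 1) * Q.coeff j) := by
    rw [Finset.sum_eq_single (⟨n - 1, by omega⟩ : Fin n)]
    · rw [Matrix.transpose_apply, Jm_dual_apply, if_pos (by simp only; omega)]
      unfold Bm
      rw [Matrix.of_apply, if_pos (by simp only; omega)]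
      congr 3
      simp only
      omega
    · intro b _ hb
      rw [Matrix.transpose_apply]
      unfold Bm
      rw [Matrix.of_apply, if_neg, zero_mul]
      intro h'
      exact hb (Fin.ext (by simp only; omega))
    · intro h'
      exact absurd (Finset.mem_univ _) h'
  have e2 : ∑ l, Jm n (dual n Q) i l * Bm n (dual n Q) l j = (-1) ^ n * Q.coeff i * ((-1) ^ (n + (j : ℕ)) * Q.coeff j) := by
    rw [Finset.sum_eq_single (⟨n - 1, by omega⟩ : Fin n)]
    · rw [Jm_dual_apply, if_pos (by simp only; omega)]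
      unfold Bm
      rw [Matrix.of_apply, if_pos (by simp only; omega), dual_coeff]
      have e3 : n - 1 + 1 = n := by omega
      have e4 : (i : ℕ) + (n - 1) + 1 - n = i := by omega
      simp only [e3, e4]
    · intro b _ hb
      unfold Bm
      rw [Matrix.of_apply, if_neg, mul_zero]
      intro h'
      exact hb (Fin.ext (by simp only; omega))
    · intro h'
      exact absurd (Finset.mem_univ _) h'
  rw [e1, e2]
  have e5 : (-1 : ℚ) ^ n * (-1) ^ (n + (j : ℕ)) = (-1) ^ (j : ℕ) := by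
    rw [← pow_add, show n + (n + (j : ℕ)) = 2 * n + j by ring, pow_add, pow_mul, neg_one_sq, one_pow, one_mul]
  rw [pow_succ]
  linear_combination Q.coeff i * Q.coeff j * e5

lemma Jm_det' {P : Polynomial ℚ} (hP : P.coeff 0 ≠ 0) : (Jm n P).det ≠ 0 := by
  have h1 := Matrix.det_permute' (Fin.revPerm : Equiv.Perm (Fin n)) (Jm n P)
  have h2 : ((Jm n P).submatrix id (Fin.revPerm : Equiv.Perm (Fin n))).det = ∏ i : Fin n, ((-1) ^ (i : ℕ) * P.coeff 0) := by
    rw [Matrix.det_of_isLowerTriangular]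
    · refine Finset.prod_congr rfl fun i _ => ?_
      rw [Matrix.submatrix_apply]
      unfold Jm
      simp only [Matrix.of_apply, id, Fin.revPerm_apply, Fin.val_rev]
      have := i.2
      rw [if_pos (by omega)]
      congr 2
      omega
    · intro i j hij
      have hij' : (i : ℕ) < j := hij
      rw [Matrix.submatrix_apply]
      unfold Jm
      simp only [Matrix.of_apply, id, Fin.revPerm_apply, Fin.val_rev]
      have := j.2
      rw [if_neg (by omega)]
  have h3 : ((Jm n P).submatrix id (Fin.revPerm : Equiv.Perm (Fin n))).det ≠ 0 := by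
    rw [h2]
    exact Finset.prod_ne_zero_iff.2 fun i _ => mul_ne_zero (pow_ne_zero _ (by norm_num)) hP
  intro h0
  rw [h0, mul_zero] at h1
  exact h3 h1

lemma coeff_zero_ne (hQ : QE n Q) : Q.coeff 0 ≠ 0 := by
  have := hQ.ne 0
  rwa [Nat.cast_zero, ← Polynomial.coeff_zero_eq_eval_zero] at this

lemma Jd_det (hQ : QE n Q) : (Jm n (dual n Q)).det ≠ 0 := by
  refine Jm_det' ?_
  rw [dual_coeff]
  exact mul_ne_zero (pow_ne_zero _ (by norm_num)) (coeff_zero_ne hQ)

/-- the bilinear relations between the solutions of an equation and of its dual -/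
theorem pair_Hp (hQ : QE n Q) (hQ' : QE n (dual n Q)) :
    (Hp n Q).transpose * km (Jm n (dual n Q)) * Hp n (dual n Q) = km (Jm n (dual n Q)) := by
  set Z := (Hp n Q).transpose * km (Jm n (dual n Q)) * Hp n (dual n Q) with hZ
  set H := Hp n Q with hH
  set K := Hp n (dual n Q) with hK
  set J := km (Jm n (dual n Q)) with hJ
  set G : Matrix (Fin n) (Fin n) ℚ⟦X⟧ := (1 - X : ℚ⟦X⟧) • km (Am n) + (X : ℚ⟦X⟧) • km (Bm n Q) with hG
  set G' : Matrix (Fin n) (Fin n) ℚ⟦X⟧ := (1 - X : ℚ⟦X⟧) • km (Am n) + (X : ℚ⟦X⟧) • km (Bm n (dual n Q)) with hG'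
  have hkm : ∀ M : Matrix (Fin n) (Fin n) ℚ, km M.transpose = (km M).transpose := fun M => rfl
  have hGJ : G.transpose * J + J * G' = 0 := by
    have e1 : (km (Am n)).transpose * J + J * km (Am n) = 0 := by
      rw [hJ, ← hkm]
      unfold km
      rw [← map_mul, ← map_mul, ← map_add, Jm_rel, map_zero]
    have e2 : (km (Bm n Q)).transpose * J + J * km (Bm n (dual n Q)) = 0 := by
      rw [hJ, ← hkm]
      unfold km
      rw [← map_mul, ← map_mul, ← map_add, Bm_rel, map_zero]
    have e3 : G.transpose * J + J * G' = (1 - X : ℚ⟦X⟧) • ((km (Am n)).transpose * J + J * km (Am n)) +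
        (X : ℚ⟦X⟧) • ((km (Bm n Q)).transpose * J + J * km (Bm n (dual n Q))) := by
      rw [hG, hG', Matrix.transpose_add, Matrix.transpose_smul, Matrix.transpose_smul, add_mul, mul_add, smul_mul_assoc,
        smul_mul_assoc, mul_smul_comm, mul_smul_comm, smul_add, smul_add]
      abel
    rw [e3, e1, e2, smul_zero, smul_zero, add_zero]
  have hode := ode_Hp hQ
  have hode' := ode_Hp hQ'
  rw [← hH, ← hG] at hode
  rw [← hK, ← hG'] at hode'
  have hth : (1 - X : ℚ⟦X⟧) • th H = G * H - (1 - X : ℚ⟦X⟧) • (H * km (Am n)) := by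
    rw [← hode, smul_add]
    abel
  have hth' : (1 - X : ℚ⟦X⟧) • th K = G' * K - (1 - X : ℚ⟦X⟧) • (K * km (Am n)) := by
    rw [← hode', smul_add]
    abel
  have hthZ : th Z = (th H).transpose * J * K + H.transpose * J * th K := by
    rw [hZ, th_mul, th_mul, hJ, th_km, Matrix.mul_zero, add_zero, th_transpose]
  have h1 : (1 - X : ℚ⟦X⟧) • (th Z + ((km (Am n)).transpose * Z + Z * km (Am n))) = 0 := by
    have e1 : (1 - X : ℚ⟦X⟧) • ((th H).transpose * J * K) =
        (H.transpose * G.transpose - (1 - X : ℚ⟦X⟧) • ((km (Am n)).transpose * H.transpose)) * J * K := by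
      rw [← smul_mul_assoc, ← smul_mul_assoc, ← Matrix.transpose_smul, hth, Matrix.transpose_sub, Matrix.transpose_smul,
        Matrix.transpose_mul, Matrix.transpose_mul]
    have e2 : (1 - X : ℚ⟦X⟧) • (H.transpose * J * th K) = H.transpose * J * (G' * K - (1 - X : ℚ⟦X⟧) • (K * km (Am n))) := by
      rw [← mul_smul_comm, hth']
    rw [smul_add, hthZ, smul_add, e1, e2, smul_add, hZ]
    have e3 : (H.transpose * G.transpose - (1 - X : ℚ⟦X⟧) • ((km (Am n)).transpose * H.transpose)) * J * K =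
        H.transpose * (G.transpose * J) * K - (1 - X : ℚ⟦X⟧) • ((km (Am n)).transpose * (H.transpose * J * K)) := by
      rw [sub_mul, sub_mul, smul_mul_assoc, smul_mul_assoc]
      simp only [Matrix.mul_assoc]
    have e4 : H.transpose * J * (G' * K - (1 - X : ℚ⟦X⟧) • (K * km (Am n))) =
        H.transpose * (J * G') * K - (1 - X : ℚ⟦X⟧) • ((H.transpose * J * K) * km (Am n)) := by
      rw [mul_sub, mul_smul_comm]
      simp only [Matrix.mul_assoc]
    rw [e3, e4]
    have e5 : H.transpose * (G.transpose * J) * K + H.transpose * (J * G') * K = 0 := by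
      rw [← add_mul, ← mul_add, hGJ, Matrix.mul_zero, Matrix.zero_mul]
    calc _ = H.transpose * (G.transpose * J) * K + H.transpose * (J * G') * K := by abel
      _ = 0 := e5
  have h1X : (1 - X : ℚ⟦X⟧) ≠ 0 := by
    intro h0
    have := congrArg (coeff 0) h0
    simp at this
  have h2 : th Z + ((km (Am n)).transpose * Z + Z * km (Am n)) = 0 := by
    ext1 i j
    have h3 := congrFun (congrFun h1 i) j
    rw [Matrix.smul_apply, smul_eq_mul, Matrix.zero_apply] at h3
    exact (mul_eq_zero.1 h3).resolve_left h1X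
  refine cf_ext fun k => ?_
  have h3 : (k : ℚ) • cf Z k + ((Am n).transpose * cf Z k + cf Z k * Am n) = 0 := by
    have e1 : cf (th Z + ((km (Am n)).transpose * Z + Z * km (Am n))) k =
        cf (th Z) k + (cf ((km (Am n)).transpose * Z) k + cf (Z * km (Am n)) k) := by
      ext i j
      unfold cf
      simp only [Matrix.map_apply, Matrix.add_apply, map_add]
    rw [h2, cf_th, ← hkm, cf_km_mul, cf_mul_km] at e1
    rw [← e1]
    ext i j
    unfold cf
    simp
  rcases k with _ | k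
  · have h4 : ∀ M N : Matrix (Fin n) (Fin n) ℚ⟦X⟧, cf (M * N) 0 = cf M 0 * cf N 0 := by
      intro M N
      ext i j
      unfold cf
      rw [Matrix.map_apply, Matrix.mul_apply, Matrix.mul_apply, map_sum]
      refine Finset.sum_congr rfl fun l _ => ?_
      rw [Matrix.map_apply, Matrix.map_apply, coeff_zero_eq_constantCoeff_apply, coeff_zero_eq_constantCoeff_apply,
        coeff_zero_eq_constantCoeff_apply, map_mul]
    have h5 : cf H.transpose 0 = (cf H 0).transpose := rfl
    rw [hZ, h4, h4, h5, hH, hK, cf_Hp, cf_Hp, Hq_zero, Hq_zero, Matrix.transpose_one, one_mul, mul_one]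
  · rw [nil_zero (by exact_mod_cast Nat.succ_ne_zero k) h3]
    ext i j
    unfold cf
    rw [Matrix.map_apply, hJ, km_apply, coeff_C, if_neg (Nat.succ_ne_zero k), Matrix.zero_apply]

/-! ### the inverse -/

/-- the inverse of the holomorphic part -/
noncomputable def Wp (n : ℕ) (Q : Polynomial ℚ) : Matrix (Fin n) (Fin n) ℚ⟦X⟧ :=
  (km (Jm n (dual n Q)) * (Hp n (dual n Q) * km (Jm n (dual n Q))⁻¹)).transpose

lemma mul_Wp (hQ : QE n Q) (hQ' : QE n (dual n Q)) : Hp n Q * Wp n Q = 1 := by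
  have h1 : (Hp n Q).transpose * (km (Jm n (dual n Q)) * (Hp n (dual n Q) * km (Jm n (dual n Q))⁻¹)) = 1 := by
    rw [← Matrix.mul_assoc, ← Matrix.mul_assoc, pair_Hp hQ hQ']
    unfold km
    rw [← map_mul, Matrix.mul_nonsing_inv _ (Ne.isUnit (Jd_det hQ)), map_one]
  have h2 := mul_eq_one_comm.1 h1
  have h3 := congrArg Matrix.transpose h2
  rw [Matrix.transpose_mul, Matrix.transpose_transpose, Matrix.transpose_one] at h3
  exact h3

lemma SDc_Wp (h : ∀ i j, SDc (Hp n (dual n Q) i j)) (i j : Fin n) : SDc (Wp n Q i j) :=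
  SDc_matmul (SDc_km _) (SDc_matmul h (SDc_km _)) j i

/-! ### integral equations -/

lemma ode_int (hQ : QE n Q) {D : ℕ} {b : Fin n → Fin n → ℤ} (hb : ∀ i j, (b i j : ℚ) = D * Bm n Q i j) (i j : Fin n) :
    ps (T1 D) * (X * d⁄dX ℚ (Hp n Q i j) + ∑ k, Hp n Q i k * C (Am n k j)) = ∑ k, ps (A1 n D b i k) * Hp n Q k j := by
  have h1 := congrFun (congrFun (ode_Hp hQ) i) j
  rw [Matrix.smul_apply, Matrix.add_apply, Matrix.mul_apply, Matrix.mul_apply, smul_eq_mul] at h1
  rw [ps_T1, mul_assoc]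
  have h2 : X * d⁄dX ℚ (Hp n Q i j) = th (Hp n Q) i j := rfl
  have h3 : ∑ k, Hp n Q i k * C (Am n k j) = ∑ k, Hp n Q i k * km (Am n) k j := rfl
  rw [h2, h3, h1, Finset.mul_sum]
  refine Finset.sum_congr rfl fun k _ => ?_
  rw [ps_A1 hb, Matrix.add_apply, Matrix.smul_apply, Matrix.smul_apply, smul_eq_mul, smul_eq_mul, km_apply, km_apply]
  ring

/-- **the entries of the holomorphic part form a G-system** -/
theorem gsys_Hp (hQ : QE n Q) (hQ' : QE n (dual n Q)) (hH : ∀ i j, SDc (Hp n Q i j))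
    (hH' : ∀ i j, SDc (Hp n (dual n Q) i j)) {D : ℕ} {b : Fin n → Fin n → ℤ}
    (hb : ∀ i j, (b i j : ℚ) = D * Bm n Q i j) :
    ∃ (q : ℕ) (C : ℝ), GSys q C (Polynomial.X * T1 D) (fun p : Fin n × Fin n => Hp n Q p.1 p.2) :=
  gsysL (N := Am n) Am_nil (mul_Wp hQ hQ') (ode_int hQ hb) hH (SDc_Wp hH')

end Pool.Agent.E8helper3.HO
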