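import Pool.Agent.E8helper3.HO.One
import Pool.Agent.E8helper3.HO.InvG

/-!
# The hypergeometric system: pairings, connection with the solutions at one, and the pseudoreflection
-/

set_option autoImplicit false

open Filter Topology Matrix Polynomial

namespace Pool.Agent.E8helper3.HO

open Pool.Agent.Y119.HY

variable {n : ℕ} {N0 B B' : Matrix (Fin n) (Fin n) ℂ} {H H' : ℕ → Matrix (Fin n) (Fin n) ℂ}

lemma pair_HD' {F : ℂ → Matrix (Fin n) (Fin n) ℂ} {G G' F' : Matrix (Fin n) (Fin n) ℂ} {Y Z : ℂ → Matrix (Fin n) (Fin n) ℂ}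
    {z : ℂ} (hG : G.transpose * F z + F' + F z * G' = 0) (hF : HD F F' z)
    (hY : HD Y (G * Y z) z) (hZ : HD Z (G' * Z z) z) :
    HD (fun w => (Y w).transpose * F w * Z w) 0 z := by
  refine ((hY.transpose.mul hF).mul hZ).congr ?_
  rw [transpose_mul]
  calc ((Y z).transpose * G.transpose * F z + (Y z).transpose * F') * Z z + (Y z).transpose * F z * (G' * Z z)
      = (Y z).transpose * (G.transpose * F z + F' + F z * G') * Z z := by
        simp only [Matrix.mul_assoc, Matrix.mul_add, Matrix.add_mul]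
    _ = 0 := by rw [hG, Matrix.mul_zero, Matrix.zero_mul]

/-- **the pairing of the solutions at the origin** -/
theorem pair_gen (h0 : N0 ^ n = 0) (hH : Sol N0 B H) (hH' : Sol N0 B' H') {F F' : ℂ → Matrix (Fin n) (Fin n) ℂ}
    (hFan : ∀ i j, AnalyticOnNhd ℂ (fun z => F z i j) (Metric.ball 0 1)) (hFd : ∀ z ∈ Lens, HD F (F' z) z)
    (hF : ∀ z ∈ Lens, (Gm N0 B z).transpose * F z + F' z + F z * Gm N0 B' z = 0) {z : ℂ} (hz : z ∈ Lens) :
    (Yf N0 H z).transpose * F z * Yf N0 H' z = F 0 := by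
  have hhalf : ((1 / 2 : ℝ) : ℂ) ∈ Lens := real_mem_Lens (by norm_num) (by norm_num)
  set S := (Yf N0 H ((1 / 2 : ℝ) : ℂ)).transpose * F ((1 / 2 : ℝ) : ℂ) * Yf N0 H' ((1 / 2 : ℝ) : ℂ) with hS
  have hconst : ∀ w ∈ Lens, (Yf N0 H w).transpose * F w * Yf N0 H' w = S := by
    intro w hw
    refine const_Lens (F := fun w => (Yf N0 H w).transpose * F w * Yf N0 H' w) (fun x hx => ?_) hw hhalf
    have h1 := Yf_ode hH h0 (mem_Lens.1 hx).1 (slit_Lens hx)
    have h2 := Yf_ode hH' h0 (mem_Lens.1 hx).1 (slit_Lens hx)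
    exact pair_HD' (hF x hx) (hFd x hx) h1 h2
  rw [hconst z hz]
  -- the holomorphic part
  have hHan : ∀ i j, AnalyticOnNhd ℂ (fun z => ((Hf H z).transpose * F z * Hf H' z) i j) (Metric.ball 0 1) := by
    intro i j
    simp only [Matrix.mul_apply, Matrix.transpose_apply]
    refine Finset.analyticOnNhd_fun_sum _ fun l _ => AnalyticOnNhd.mul ?_ (Hf_an hH' h0 l j)
    refine Finset.analyticOnNhd_fun_sum _ fun k _ => ?_
    exact (Hf_an hH h0 k i).mul (hFan k l)
  have hlog : ∀ i j : Fin n, ∀ w ∈ Metric.ball (0 : ℂ) 1, C (((Hf H w).transpose * F w * Hf H' w) i j) +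
      -(((Ep (-N0)).transpose * S.map C * Ep (-N0)) i j) = 0 := by
    intro i j
    refine PA.log_zero (f := fun w => C (((Hf H w).transpose * F w * Hf H' w) i j) +
      -(((Ep (-N0)).transpose * S.map C * Ep (-N0)) i j)) ((PA.ofFun (hHan i j)).add (PA.const _)) fun x hx hx1 => ?_
    have h1 := hconst x (real_mem_Lens hx hx1)
    have h2 : ((Ep (-N0)).transpose * S.map C * Ep (-N0)).map (Polynomial.eval ((Real.log x : ℝ) : ℂ)) =
        (Hf H x).transpose * F x * Hf H' x := by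
      rw [map_mul_eval, map_mul_eval, Matrix.transpose_map, map_C_eval, Ep_eval, E_neg, ← h1]
      unfold Yf
      rw [← Complex.ofReal_log hx.le, transpose_mul]
      set L : ℂ := ((Real.log x : ℝ) : ℂ)
      have h3 : E N0 L * E N0 (-L) = 1 := E_mul_neg h0 L
      have h4 : (E N0 (-L)).transpose * (E N0 L).transpose = 1 := by
        rw [← transpose_mul, h3, transpose_one]
      calc (E N0 (-L)).transpose * ((E N0 L).transpose * (Hf H x).transpose * F x * (Hf H' x * E N0 L)) * E N0 (-L)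
          = ((E N0 (-L)).transpose * (E N0 L).transpose) * (Hf H x).transpose * F x * Hf H' x * (E N0 L * E N0 (-L)) := by
            simp only [Matrix.mul_assoc]
        _ = _ := by rw [h3, h4, one_mul, mul_one]
    rw [eval_add, eval_neg, eval_C, ← h2]
    simp only [Matrix.map_apply]
    ring
  ext i j
  have h5 := congrArg (Polynomial.eval 0) (hlog i j 0 (Metric.mem_ball_self one_pos))
  rw [eval_add, eval_neg, eval_C, Hf_zero hH, Hf_zero hH', transpose_one, one_mul, mul_one, eval_zero] at h5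
  have h6 : ((Ep (-N0)).transpose * S.map C * Ep (-N0)).map (Polynomial.eval 0) = S := by
    rw [map_mul_eval, map_mul_eval, Matrix.transpose_map, map_C_eval, Ep_eval, E_zero (by
      rw [neg_pow, h0, mul_zero]), transpose_one, one_mul, mul_one]
  have h7 := congrFun (congrFun h6 i) j
  rw [Matrix.map_apply] at h7
  rw [h7] at h5
  linear_combination -h5

/-! ### the dual pairing -/

variable {Q : Polynomial ℚ}

/-- the constant form -/
noncomputable def Jd (n : ℕ) (Q : Polynomial ℚ) : Matrix (Fin n) (Fin n) ℂ := cm (Jm n (dual n Q))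

lemma Jd_rel (z : ℂ) : (Gm (cm (Am n)) (cm (Bm n Q)) z).transpose * Jd n Q +
    Jd n Q * Gm (cm (Am n)) (cm (Bm n (dual n Q))) z = 0 := by
  have e0 : (cm (Am n)).transpose * Jd n Q + Jd n Q * cm (Am n) = 0 := Jc_rel
  have e1 : (cm (Bm n Q)).transpose * Jd n Q + Jd n Q * cm (Bm n (dual n Q)) = 0 := by
    unfold Jd
    rw [← cm_transpose, ← cm_mul, ← cm_mul, ← cm_add, Bm_rel, cm_zero]
  unfold Gm
  rw [transpose_add, transpose_smul, transpose_smul, add_mul, smul_mul_assoc, smul_mul_assoc, mul_add, mul_smul_comm,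
    mul_smul_comm, eq_neg_of_add_eq_zero_left e0, eq_neg_of_add_eq_zero_left e1]
  simp only [smul_neg]
  abel

lemma Jd_det' (hQ : QE n Q) : (Jd n Q).det ≠ 0 := by
  have h : (Jd n Q).det = algebraMap ℚ ℂ (Jm n (dual n Q)).det := (RingHom.map_det _ _).symm
  rw [h]
  exact (_root_.map_ne_zero _).2 (Jd_det hQ)

/-- the solution at the origin -/
noncomputable abbrev Yn (n : ℕ) (Q : Polynomial ℚ) : ℂ → Matrix (Fin n) (Fin n) ℂ := Yf (cm (Am n)) (Hc n Q)

theorem pair_dual (hQ : QE n Q) (hQ' : QE n (dual n Q)) {z : ℂ} (hz : z ∈ Lens) :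
    (Yn n Q z).transpose * Jd n Q * Yn n (dual n Q) z = Jd n Q :=
  pair_gen (F := fun _ => Jd n Q) (F' := fun _ => 0) Ac_nil (sol_c hQ) (sol_c hQ') (fun _ _ => analyticOnNhd_const)
    (fun z _ => HD.const _ z) (fun z _ => by rw [add_zero]; exact Jd_rel z) hz

lemma Yn_det (hQ : QE n Q) (hQ' : QE n (dual n Q)) {z : ℂ} (hz : z ∈ Lens) : (Yn n Q z).det ≠ 0 := by
  intro h0
  have h1 := congrArg Matrix.det (pair_dual hQ hQ' hz)
  rw [det_mul, det_mul, det_transpose, h0, zero_mul, zero_mul] at h1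
  exact Jd_det' hQ h1.symm

/-- solutions which vanish at one point vanish -/
lemma sol_zero (hQ : QE n Q) (hQ' : QE n (dual n Q)) {U : ℂ → Matrix (Fin n) (Fin n) ℂ}
    (hU : ∀ z ∈ Lens, HD U (Gm (cm (Am n)) (cm (Bm n Q)) z * U z) z) {z₀ : ℂ} (hz₀ : z₀ ∈ Lens) (h0 : U z₀ = 0) {z : ℂ}
    (hz : z ∈ Lens) : U z = 0 := by
  have hY := fun z (hz : z ∈ Lens) => Yf_ode (sol_c hQ') Ac_nil (mem_Lens.1 hz).1 (slit_Lens hz)
  have h1 : (U z).transpose * Jd n Q * Yn n (dual n Q) z = (U z₀).transpose * Jd n Q * Yn n (dual n Q) z₀ :=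
    const_Lens (F := fun z => (U z).transpose * Jd n Q * Yn n (dual n Q) z)
      (fun x hx => pair_HD' (F := fun _ => Jd n Q) (F' := 0) (by rw [add_zero]; exact Jd_rel x) (HD.const _ x) (hU x hx)
        (hY x hx)) hz hz₀
  rw [h0, transpose_zero, Matrix.zero_mul, Matrix.zero_mul] at h1
  have h2 : IsUnit (Jd n Q * Yn n (dual n Q) z).det := by
    rw [det_mul]
    refine Ne.isUnit (mul_ne_zero (Jd_det' hQ) ?_)
    intro h3
    have h4 := congrArg Matrix.det (pair_dual hQ hQ' hz)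
    rw [det_mul, det_mul, h3, mul_zero] at h4
    exact Jd_det' hQ h4.symm
  have h3 : (U z).transpose = 0 := by
    calc (U z).transpose = (U z).transpose * ((Jd n Q * Yn n (dual n Q) z) * (Jd n Q * Yn n (dual n Q) z)⁻¹) := by
          rw [mul_nonsing_inv _ h2, mul_one]
      _ = ((U z).transpose * Jd n Q * Yn n (dual n Q) z) * (Jd n Q * Yn n (dual n Q) z)⁻¹ := by
          simp only [Matrix.mul_assoc]
      _ = 0 := by rw [h1, Matrix.zero_mul]
  rw [← transpose_transpose (U z), h3, transpose_zero]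

/-! ### analytic functions given by polynomials -/

lemma ev_an {U : Set ℂ} {a b : ℂ → ℂ} {X : ℂ → Matrix (Fin n) (Fin n) ℂ} (ha : AnalyticOnNhd ℂ a U)
    (hb : AnalyticOnNhd ℂ b U) (hX : ∀ i j, AnalyticOnNhd ℂ (fun z => X z i j) U) (P : MvPolynomial (Vr n) ℂ) :
    AnalyticOnNhd ℂ (fun z => ev P (a z) (b z) (X z)) U := by
  unfold ev
  induction P using MvPolynomial.induction_on with
  | C c => simpa using analyticOnNhd_const
  | add p q hp hq => simp only [map_add]; exact hp.add hq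
  | mul_X p i hp =>
    simp only [map_mul, MvPolynomial.eval_X]
    refine hp.mul ?_
    rcases i with _ | _ | x
    · exact ha
    · exact hb
    · exact hX x.1 x.2

/-- **monodromy at one** -/
theorem mono_one {T M Mi : Matrix (Fin n) (Fin n) ℂ} {ρ : ℂ} (hT : T * T = T) {K : ℕ → Matrix (Fin n) (Fin n) ℂ}
    (hK : ∀ i j, PG fun k => K k i j) {Y : ℂ → Matrix (Fin n) (Fin n) ℂ} (hMi : M * Mi = 1)
    (hY : ∀ x : ℝ, 0 < x → x < 1 → Y x = Zf T ρ K (1 - (x : ℂ)) * M) :
    Mi * WW T ρ (2 * Real.pi * Complex.I) * M ∈ Gal Y := by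
  intro P hP x hx hx1
  set U : Set ℂ := {u | u.re < 0} with hU
  have hUc : IsPreconnected U := (convex_halfSpace_re_lt 0).isPreconnected
  have hexp : ∀ u ∈ U, ‖Complex.exp u‖ < 1 := by
    intro u hu
    rw [Complex.norm_exp]
    exact Real.exp_lt_one_iff.2 hu
  have hlog : AnalyticOnNhd ℂ (fun u : ℂ => Complex.log (1 - Complex.exp u)) U := by
    intro u hu
    refine AnalyticAt.clog (analyticAt_const.sub analyticAt_cexp) ?_
    left
    have h1 : (Complex.exp u).re ≤ ‖Complex.exp u‖ := Complex.re_le_norm _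
    have h2 := hexp u hu
    rw [Complex.sub_re, Complex.one_re]
    linarith
  have hHan : ∀ i j, AnalyticOnNhd ℂ (fun u : ℂ => Hf K (Complex.exp u) i j) U := by
    intro i j u hu
    have h1 : AnalyticAt ℂ (fun w => Hf K w i j) (Complex.exp u) := Hf_an' hK i j _ (by
      rw [Metric.mem_ball, dist_zero_right]
      exact hexp u hu)
    exact h1.fun_comp analyticAt_cexp
  have hWan : ∀ i j, AnalyticOnNhd ℂ (fun u : ℂ => WW T ρ u i j) U := by
    intro i j
    unfold WW
    simp only [Matrix.add_apply, Matrix.smul_apply, smul_eq_mul]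
    exact analyticOnNhd_const.add (((analyticOnNhd_const.mul analyticOnNhd_id).cexp.sub analyticOnNhd_const).mul
      analyticOnNhd_const)
  set F : ℂ → ℂ := fun u => ev P (1 - Complex.exp u) (Complex.log (1 - Complex.exp u)) (Hf K (Complex.exp u) * WW T ρ u * M)
    with hF
  have hFan : AnalyticOnNhd ℂ F U := by
    refine ev_an (analyticOnNhd_const.sub fun u _ => analyticAt_cexp) hlog (fun i j => ?_) P
    simp only [Matrix.mul_apply]
    refine Finset.analyticOnNhd_fun_sum _ fun l _ => AnalyticOnNhd.mul ?_ analyticOnNhd_const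
    exact Finset.analyticOnNhd_fun_sum _ fun k _ => (hHan _ _).mul (hWan _ _)
  have hreal : ∀ s : ℝ, s < 0 → F (s : ℂ) = 0 := by
    intro s hs
    have h1 : Real.exp s < 1 := Real.exp_lt_one_iff.2 hs
    have h2 : 0 < Real.exp s := Real.exp_pos s
    have h3 := hP (1 - Real.exp s) (by linarith) (by linarith)
    rw [hY (1 - Real.exp s) (by linarith) (by linarith)] at h3
    unfold Zf at h3
    push_cast at h3
    rw [sub_sub_cancel] at h3
    have h4 : Complex.log (Complex.exp (s : ℂ)) = (s : ℂ) := by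
      rw [← Complex.ofReal_exp, ← Complex.ofReal_log h2.le, Real.log_exp]
    rw [h4] at h3
    exact h3
  have hzero : ∀ u ∈ U, F u = 0 := by
    intro u hu
    have h1 : ((-1 : ℝ) : ℂ) ∈ U := by
      show ((-1 : ℝ) : ℂ).re < 0
      rw [Complex.ofReal_re]
      norm_num
    refine hFan.eqOn_zero_of_preconnected_of_frequently_eq_zero hUc h1 ?_ hu
    have h2 : Tendsto (fun s : ℝ => (s : ℂ)) (𝓝[≠] (-1)) (𝓝[≠] ((-1 : ℝ) : ℂ)) := by
      refine tendsto_nhdsWithin_of_tendsto_nhds_of_eventually_within _ ?_ ?_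
      · exact (Complex.continuous_ofReal.tendsto _).mono_left nhdsWithin_le_nhds
      · filter_upwards [self_mem_nhdsWithin] with s hs
        intro h
        exact hs (Complex.ofReal_injective h)
    refine h2.frequently ?_
    refine Eventually.frequently ?_
    have h3 : ∀ᶠ s : ℝ in 𝓝 (-1), s < 0 := gt_mem_nhds (by norm_num)
    filter_upwards [nhdsWithin_le_nhds h3] with s hs
    exact hreal s hs
  -- evaluate
  set u : ℂ := ((Real.log (1 - x) : ℝ) : ℂ) with hu
  have hx1' : 0 < 1 - x := by linarith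
  have hexpu : Complex.exp u = 1 - (x : ℂ) := by
    rw [hu, ← Complex.ofReal_exp, Real.exp_log hx1']
    push_cast
    rfl
  have huU : u + 2 * Real.pi * Complex.I ∈ U := by
    show (u + 2 * Real.pi * Complex.I).re < 0
    have h1 : (u + 2 * Real.pi * Complex.I).re = Real.log (1 - x) := by
      rw [hu]
      simp
    rw [h1]
    exact Real.log_neg hx1' (by linarith)
  have h1 := hzero _ huU
  rw [hF] at h1
  simp only at h1
  rw [Complex.exp_add, Complex.exp_two_pi_mul_I, mul_one, hexpu, sub_sub_cancel, WW_add hT] at h1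
  rw [hY x hx hx1]
  unfold Zf
  have h2 : Complex.log (1 - (x : ℂ)) = u := by
    rw [hu, Complex.ofReal_log hx1'.le]
    push_cast
    rfl
  rw [h2]
  have h3 : Hf K (1 - (x : ℂ)) * WW T ρ u * M * (Mi * WW T ρ (2 * Real.pi * Complex.I) * M) =
      Hf K (1 - (x : ℂ)) * (WW T ρ u * WW T ρ (2 * Real.pi * Complex.I)) * M := by
    calc _ = Hf K (1 - (x : ℂ)) * WW T ρ u * (M * Mi) * WW T ρ (2 * Real.pi * Complex.I) * M := by
          simp only [Matrix.mul_assoc]
      _ = _ := by rw [hMi, mul_one]; simp only [Matrix.mul_assoc]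
  rw [h3]
  exact h1

/-! ### the residue at one -/

/-- the exponent -/
noncomputable def rh (n : ℕ) (Q : Polynomial ℚ) : ℂ := ((-Q.coeff (n - 1) : ℚ) : ℂ)

lemma Bm_sq (hn : 1 ≤ n) : Bm n Q * Bm n Q = Q.coeff (n - 1) • Bm n Q := by
  ext i j
  rw [Matrix.mul_apply, Matrix.smul_apply, smul_eq_mul]
  unfold Bm
  rw [Finset.sum_eq_single (⟨n - 1, by omega⟩ : Fin n)]
  · simp only [Matrix.of_apply]
    rw [if_pos (show n - 1 + 1 = n by omega)]
    split_ifs <;> ring
  · intro b _ hb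
    simp only [Matrix.of_apply]
    rw [if_neg (show ¬ ((b : ℕ) + 1 = n) from fun h => hb (Fin.ext (by simp only; omega))), mul_zero]
  · intro h
    exact absurd (Finset.mem_univ _) h

/-- the projection -/
noncomputable def Tm (n : ℕ) (Q : Polynomial ℚ) : Matrix (Fin n) (Fin n) ℂ := (rh n Q)⁻¹ • (-cm (Bm n Q))

lemma rh_Tm (h : rh n Q ≠ 0) : rh n Q • Tm n Q = -cm (Bm n Q) := by
  unfold Tm
  rw [smul_smul, mul_inv_cancel₀ h, one_smul]

lemma cm_Bm_sq (hn : 1 ≤ n) : (-cm (Bm n Q)) * (-cm (Bm n Q)) = rh n Q • (-cm (Bm n Q)) := by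
  rw [neg_mul_neg, ← cm_mul, Bm_sq hn]
  ext i j
  unfold rh
  rw [cm_apply, Matrix.smul_apply, Matrix.smul_apply, Matrix.neg_apply, cm_apply, smul_eq_mul, smul_eq_mul]
  push_cast
  ring

lemma Tm_sq (hn : 1 ≤ n) (h : rh n Q ≠ 0) : Tm n Q * Tm n Q = Tm n Q := by
  unfold Tm
  rw [smul_mul_smul_comm, cm_Bm_sq hn, smul_smul]
  congr 1
  field_simp

/-- **the connection with the solutions at one and the pseudoreflection in the Galois group** -/
theorem conn (hQ : QE n Q) (hQ' : QE n (dual n Q)) (h0 : rh n Q ≠ 0) (hρ : ∀ k : ℕ, ((k : ℂ) + 1) ^ 2 - rh n Q ^ 2 ≠ 0) :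
    ∃ M Mi : Matrix (Fin n) (Fin n) ℂ, M * Mi = 1 ∧ Mi * M = 1 ∧
      Mi * WW (Tm n Q) (rh n Q) (2 * Real.pi * Complex.I) * M ∈ Gal (Yn n Q) ∧ Tm n Q *ᵥ (M *ᵥ ec n) ≠ 0 := by
  have hn := hQ.two
  have hT := Tm_sq (Q := Q) (by omega : 1 ≤ n) h0
  have hN := cm_Bm_sq (Q := Q) (by omega : 1 ≤ n)
  obtain ⟨K, hK'⟩ := exists_sol' hN hρ (-cm (Am n))
  have hg := fun i j => growth' hN hρ hK' i j
  have hK : Sol (rh n Q • Tm n Q) (-cm (Am n)) K := by rw [rh_Tm h0]; exact hK'
  set Z : ℂ → Matrix (Fin n) (Fin n) ℂ := fun z => Zf (Tm n Q) (rh n Q) K (1 - z) with hZ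
  have hZd : ∀ z ∈ Lens, HD Z (Gm (cm (Am n)) (cm (Bm n Q)) z * Z z) z := by
    intro z hz
    have hz' := symm_Lens hz
    have h1 := Zf_ode hT hK hg (mem_Lens.1 hz').1 (slit_Lens hz')
    have h2 : HasDerivAt (fun w : ℂ => 1 - w) (-1) z := by
      simpa using (hasDerivAt_id z).const_sub 1
    refine (h1.comp h2).congr ?_
    rw [hZ, ← smul_mul_assoc]
    congr 1
    unfold Gm
    rw [sub_sub_cancel, smul_neg, rh_Tm h0, smul_neg]
    rw [← neg_add, neg_smul, one_smul, neg_neg, add_comm]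
  -- a point where the solution is invertible
  obtain ⟨z₀, hz₀, hz₀'⟩ : ∃ z₀ ∈ Lens, (Z z₀).det ≠ 0 := by
    have hcont : ContinuousAt (fun w : ℂ => (Hf K w).det) 0 := by
      have h1 : ContinuousAt (fun w : ℂ => Hf K w) 0 := by
        refine continuousAt_pi.2 fun i => continuousAt_pi.2 fun j => ?_
        exact (Hf_an' hg i j 0 (Metric.mem_ball_self one_pos)).continuousAt
      exact (Continuous.matrix_det continuous_id).continuousAt.comp h1
    have h1 : (Hf K 0).det ≠ 0 := by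
      rw [Hf_zero hK, det_one]
      exact one_ne_zero
    have h2 : ∀ᶠ w : ℂ in 𝓝 0, (Hf K w).det ≠ 0 := hcont.eventually_ne h1
    have hof : Tendsto (fun x : ℝ => (x : ℂ)) (𝓝[>] 0) (𝓝 0) :=
      tendsto_nhdsWithin_of_tendsto_nhds (by
        have := Complex.continuous_ofReal.tendsto 0
        simpa using this)
    have h3 : ∀ᶠ x : ℝ in 𝓝[>] 0, x < 1 := tendsto_nhdsWithin_of_tendsto_nhds tendsto_id (gt_mem_nhds one_pos)
    obtain ⟨x, hx⟩ := ((hof.eventually h2).and (h3.and self_mem_nhdsWithin)).exists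
    obtain ⟨hx1, hx2, hx3⟩ := hx
    have hx3' : 0 < x := hx3
    refine ⟨((1 - x : ℝ) : ℂ), real_mem_Lens (by linarith) (by linarith), ?_⟩
    rw [hZ]
    simp only
    unfold Zf
    have e1 : (1 - (((1 - x : ℝ)) : ℂ)) = (x : ℂ) := by push_cast; ring
    rw [e1, det_mul]
    refine mul_ne_zero hx1 ?_
    intro h4
    have h5 := congrArg Matrix.det (WW_mul_neg (ρ := rh n Q) hT (Complex.log (x : ℂ)))
    rw [det_mul, h4, zero_mul, det_one] at h5
    exact zero_ne_one h5
  have hZu : IsUnit (Z z₀).det := Ne.isUnit hz₀'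
  have hYu : IsUnit (Yn n Q z₀).det := Ne.isUnit (Yn_det hQ hQ' hz₀)
  set M := (Z z₀)⁻¹ * Yn n Q z₀ with hM
  set Mi := (Yn n Q z₀)⁻¹ * Z z₀ with hMi
  have hMMi : M * Mi = 1 := by
    calc M * Mi = (Z z₀)⁻¹ * (Yn n Q z₀ * (Yn n Q z₀)⁻¹) * Z z₀ := by rw [hM, hMi]; simp only [Matrix.mul_assoc]
      _ = 1 := by rw [mul_nonsing_inv _ hYu, mul_one, nonsing_inv_mul _ hZu]
  have hMiM : Mi * M = 1 := mul_eq_one_comm.1 hMMi
  have hYd := fun z (hz : z ∈ Lens) => Yf_ode (sol_c hQ) Ac_nil (mem_Lens.1 hz).1 (slit_Lens hz)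
  have hconn : ∀ z ∈ Lens, Yn n Q z = Z z * M := by
    intro z hz
    have h1 : ∀ z ∈ Lens, HD (fun z => Yn n Q z - Z z * M)
        (Gm (cm (Am n)) (cm (Bm n Q)) z * (Yn n Q z - Z z * M)) z := by
      intro z hz i j
      have h2 := hYd z hz i j
      have h3 := ((hZd z hz).mul (HD.const M z)) i j
      refine (h2.sub h3).congr_deriv ?_
      rw [mul_sub, Matrix.sub_apply, Matrix.add_apply, Matrix.mul_zero, Matrix.zero_apply, add_zero, Matrix.mul_assoc]
    have h2 := sol_zero hQ hQ' h1 hz₀ (by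
      rw [hM, ← Matrix.mul_assoc, mul_nonsing_inv _ hZu, one_mul, sub_self]) hz
    exact sub_eq_zero.1 h2
  refine ⟨M, Mi, hMMi, hMiM, mono_one hT hg hMMi fun x hx hx1 => hconn x (real_mem_Lens hx hx1), fun hcon => ?_⟩
  have hn2 := hQ.two
  refine sing hQ (fun z => (Hf K (1 - z) *ᵥ (M *ᵥ ec n)) ⟨0, by omega⟩) ?_ fun z hz => ?_
  · simp only [Matrix.mulVec, dotProduct]
    refine Finset.analyticOnNhd_fun_sum _ fun j _ => AnalyticOnNhd.mul ?_ analyticOnNhd_const
    intro z hz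
    have h3 : AnalyticAt ℂ (fun w => Hf K w ⟨0, by omega⟩ j) (1 - z) := Hf_an' hg _ j (1 - z) (by
      rw [Metric.mem_ball, dist_comm, dist_eq_norm] at hz
      rwa [Metric.mem_ball, dist_zero_right])
    have h4 : AnalyticAt ℂ (fun w : ℂ => 1 - w) z := analyticAt_const.sub analyticAt_id
    exact h3.fun_comp h4
  · have h3 := congrArg (fun X : Matrix (Fin n) (Fin n) ℂ => X *ᵥ ec n) (hconn z hz)
    have h4 : WW (Tm n Q) (rh n Q) (Complex.log (1 - z)) *ᵥ (M *ᵥ ec n) = M *ᵥ ec n := by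
      unfold WW
      rw [add_mulVec, one_mulVec, smul_mulVec, hcon, smul_zero, add_zero]
    simp only [hZ] at h3
    unfold Zf Yn Yf at h3
    rw [← mulVec_mulVec, E_fix (Ac_ec n), ← mulVec_mulVec, ← mulVec_mulVec, h4] at h3
    rw [h3]

end Pool.Agent.E8helper3.HO
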