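import Pool.Agent.E8helper3.HO.Lie
import Pool.Agent.Y119.HY.Grp

/-!
# Closed monoids which contain a reflection and are normalised by a regular unipotent group contain the orthogonal group
-/

set_option autoImplicit false
set_option linter.unusedSectionVars false

open Matrix

namespace Pool.Agent.E8helper3.HO

open Pool.Agent.Y119.HY (om om_eq om_add om_smul tv tv_mulVec tv_conj E E_exp E_add E_zero E_mul_neg E_isom chain_li)

variable {n : ℕ} {J : Matrix (Fin n) (Fin n) ℂ}

/-! ### symmetric forms -/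

lemma om_comm (hJ : J.transpose = J) (u v : Fin n → ℂ) : om J v u = om J u v := by
  unfold om
  have h1 : v ⬝ᵥ (J *ᵥ u) = u ⬝ᵥ (J.transpose *ᵥ v) := by
    rw [mulVec_transpose, dotProduct_comm u, ← dotProduct_mulVec]
  rw [h1, hJ]

lemma om_sub (u v w : Fin n → ℂ) : om J u (v - w) = om J u v - om J u w := by
  unfold om; rw [mulVec_sub, dotProduct_sub]

lemma om_neg (u v : Fin n → ℂ) : om J u (-v) = -om J u v := by
  unfold om; rw [mulVec_neg, dotProduct_neg]

lemma om_zero (u : Fin n → ℂ) : om J u 0 = 0 := by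
  unfold om; rw [mulVec_zero, dotProduct_zero]

lemma om_addl (u v w : Fin n → ℂ) : om J (u + v) w = om J u w + om J v w := by
  unfold om; rw [add_dotProduct]

lemma om_subl (u v w : Fin n → ℂ) : om J (u - v) w = om J u w - om J v w := by
  unfold om; rw [sub_dotProduct]

lemma om_smull (c : ℂ) (u v : Fin n → ℂ) : om J (c • u) v = c * om J u v := by
  unfold om; rw [smul_dotProduct, smul_eq_mul]

lemma om_negl (u v : Fin n → ℂ) : om J (-u) v = -om J u v := by
  unfold om; rw [neg_dotProduct]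

lemma om_zerol (v : Fin n → ℂ) : om J 0 v = 0 := by
  unfold om; rw [zero_dotProduct]

/-- skew matrices -/
def Sk (J T : Matrix (Fin n) (Fin n) ℂ) : Prop := ∀ x y, om J (T *ᵥ x) y = -om J x (T *ᵥ y)

/-- isometries -/
def Is (J g : Matrix (Fin n) (Fin n) ℂ) : Prop := ∀ x y, om J (g *ᵥ x) (g *ᵥ y) = om J x y

lemma om_mat (A B : Matrix (Fin n) (Fin n) ℂ) (x y : Fin n → ℂ) :
    om J (A *ᵥ x) (B *ᵥ y) = x ⬝ᵥ ((A.transpose * J * B) *ᵥ y) := by
  unfold om
  rw [mulVec_mulVec, ← vecMul_transpose, ← dotProduct_mulVec, mulVec_mulVec, ← Matrix.mul_assoc]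

lemma dot_ext {A B : Matrix (Fin n) (Fin n) ℂ} (h : ∀ x y : Fin n → ℂ, x ⬝ᵥ (A *ᵥ y) = x ⬝ᵥ (B *ᵥ y)) : A = B := by
  refine mulVec_injective (funext fun y => ?_)
  refine dotProduct_eq _ _ fun x => ?_
  rw [dotProduct_comm, h, dotProduct_comm]

lemma Is_iff {g : Matrix (Fin n) (Fin n) ℂ} : Is J g ↔ g.transpose * J * g = J := by
  constructor
  · intro h
    refine dot_ext fun x y => ?_
    rw [← om_mat]
    exact h x y
  · intro h x y
    rw [om_mat, h]
    rfl

lemma Sk_iff {T : Matrix (Fin n) (Fin n) ℂ} : Sk J T ↔ T.transpose * J + J * T = 0 := by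
  have h1 : ∀ x y : Fin n → ℂ, om J (T *ᵥ x) y = x ⬝ᵥ ((T.transpose * J) *ᵥ y) := by
    intro x y
    have := om_mat (J := J) T 1 x y
    rwa [one_mulVec, mul_one] at this
  have h2 : ∀ x y : Fin n → ℂ, om J x (T *ᵥ y) = x ⬝ᵥ ((J * T) *ᵥ y) := by
    intro x y
    have := om_mat (J := J) 1 T x y
    rwa [one_mulVec, transpose_one, one_mul] at this
  constructor
  · intro h
    refine dot_ext fun x y => ?_
    rw [add_mulVec, dotProduct_add, ← h1, ← h2, h x y, zero_mulVec, dotProduct_zero, neg_add_cancel]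
  · intro h x y
    rw [h1, h2, ← dotProduct_neg, ← neg_mulVec, eq_neg_of_add_eq_zero_left h]

lemma Sk.self (hJ : J.transpose = J) {T : Matrix (Fin n) (Fin n) ℂ} (h : Sk J T) (x : Fin n → ℂ) :
    om J (T *ᵥ x) x = 0 := by
  have h1 := h x x
  rw [om_comm hJ (T *ᵥ x) x] at h1
  have h2 : (2 : ℂ) * om J (T *ᵥ x) x = 0 := by linear_combination h1
  simpa using h2

/-- `x ∧ y` -/
noncomputable def wd (J : Matrix (Fin n) (Fin n) ℂ) (u w : Fin n → ℂ) : Matrix (Fin n) (Fin n) ℂ :=
  vecMulVec u (w ᵥ* J) - vecMulVec w (u ᵥ* J)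

lemma vmv (u w x : Fin n → ℂ) : vecMulVec u (w ᵥ* J) *ᵥ x = om J w x • u := by
  rw [vecMulVec_mulVec, om_eq]
  ext i
  simp only [Pi.smul_apply, MulOpposite.smul_eq_mul_unop, MulOpposite.unop_op, smul_eq_mul]
  ring

lemma wd_mulVec (u w x : Fin n → ℂ) : wd J u w *ᵥ x = om J w x • u - om J u x • w := by
  unfold wd
  rw [sub_mulVec, vmv, vmv]

lemma wd_self (u : Fin n → ℂ) : wd J u u = 0 := sub_self _

lemma mv_ext {A B : Matrix (Fin n) (Fin n) ℂ} (h : ∀ x : Fin n → ℂ, A *ᵥ x = B *ᵥ x) : A = B :=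
  mulVec_injective (funext h)

lemma wd_add (u v w : Fin n → ℂ) : wd J (u + v) w = wd J u w + wd J v w := by
  refine mv_ext fun x => ?_
  rw [add_mulVec, wd_mulVec, wd_mulVec, wd_mulVec, om_addl, smul_add, add_smul]
  abel

lemma wd_smul (c : ℂ) (u w : Fin n → ℂ) : wd J (c • u) w = c • wd J u w := by
  refine mv_ext fun x => ?_
  rw [smul_mulVec, wd_mulVec, wd_mulVec, om_smull]
  module

lemma wd_comm (u w : Fin n → ℂ) : wd J u w = -wd J w u := by
  unfold wd
  rw [neg_sub]

lemma wd_skew (hJ : J.transpose = J) (u w : Fin n → ℂ) : Sk J (wd J u w) := by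
  intro x y
  rw [wd_mulVec, wd_mulVec, om_subl, om_smull, om_smull, om_sub, om_smul, om_smul, om_comm hJ u x, om_comm hJ w x]
  ring

/-- brackets with skew matrices -/
lemma br_wd {T : Matrix (Fin n) (Fin n) ℂ} (hT : Sk J T) (u w : Fin n → ℂ) :
    T * wd J u w - wd J u w * T = wd J (T *ᵥ u) w + wd J u (T *ᵥ w) := by
  refine mv_ext fun x => ?_
  rw [sub_mulVec, add_mulVec, ← mulVec_mulVec, ← mulVec_mulVec, wd_mulVec, wd_mulVec, wd_mulVec, wd_mulVec, mulVec_sub,
    mulVec_smul, mulVec_smul, hT u x, hT w x, neg_smul, neg_smul]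
  abel

/-- the reflection -/
lemma tv2 (v x : Fin n → ℂ) : tv J v (-2) *ᵥ x = x - (2 * om J v x) • v := by
  rw [tv_mulVec, neg_mul, neg_smul, sub_eq_add_neg]

lemma rf_isom (hJ : J.transpose = J) {v : Fin n → ℂ} (hv : om J v v = 1) : Is J (tv J v (-2)) := by
  intro x y
  rw [tv2, tv2, om_sub, om_subl, om_subl, om_smull, om_smull, om_smul, om_smul, hv, om_comm hJ v x]
  ring

lemma rf_sq {v : Fin n → ℂ} (hv : om J v v = 1) : tv J v (-2) * tv J v (-2) = 1 := by
  refine mv_ext fun x => ?_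
  rw [← mulVec_mulVec, tv2, tv2, one_mulVec, om_sub, om_smul, hv]
  module

lemma rf_conj (hJ : J.transpose = J) {v : Fin n → ℂ} {Y : Matrix (Fin n) (Fin n) ℂ} (hY : Sk J Y) :
    tv J v (-2) * Y * tv J v (-2) = Y - (2 : ℂ) • wd J (Y *ᵥ v) v := by
  refine mv_ext fun x => ?_
  rw [sub_mulVec, smul_mulVec, wd_mulVec, ← mulVec_mulVec, ← mulVec_mulVec, tv2, tv2, mulVec_sub, mulVec_smul, om_sub,
    om_smul, om_comm hJ (Y *ᵥ v) v, hY.self hJ v, hY v x]
  module

/-! ### the Lie algebra -/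

section lie

attribute [local instance] Matrix.linftyOpNormedRing Matrix.linftyOpNormedAlgebra

variable [NeZero n]

local instance : CompleteSpace (Matrix (Fin n) (Fin n) ℂ) := FiniteDimensional.complete ℂ _

variable {N : Matrix (Fin n) (Fin n) ℂ} {S : Submonoid (Matrix (Fin n) (Fin n) ℂ)}
  {hS : IsClosed (S : Set (Matrix (Fin n) (Fin n) ℂ))}

lemma E_deriv (hN : N ^ n = 0) : HasDerivAt (fun c : ℂ => E N c) N 0 := by
  have h := hasDerivAt_exp_smul_const (𝕂 := ℂ) N (0 : ℂ)
  rw [zero_smul, NormedSpace.exp_zero, one_mul] at h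
  refine h.congr_of_eventuallyEq (Filter.Eventually.of_forall fun c => ?_)
  exact E_exp hN c

lemma E_deriv_neg (hN : N ^ n = 0) : HasDerivAt (fun c : ℂ => E N (-c)) (-N) 0 := by
  have h1 : HasDerivAt (fun c : ℂ => E N c) N (-(0 : ℂ)) := by
    rw [neg_zero]
    exact E_deriv hN
  have h2 := h1.scomp (0 : ℂ) (hasDerivAt_neg (0 : ℂ))
  rw [neg_one_smul] at h2
  exact h2

lemma E_zero' (hN : N ^ n = 0) : E N (-0) = 1 := by rw [neg_zero, E_zero hN]

/-- the derivative of the conjugates -/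
lemma conj_deriv (hN : N ^ n = 0) (X : Matrix (Fin n) (Fin n) ℂ) :
    HasDerivAt (fun c : ℂ => E N c * X * E N (-c)) (N * X - X * N) 0 := by
  have h := ((E_deriv hN).mul (hasDerivAt_const (0 : ℂ) X)).mul (E_deriv_neg hN)
  refine h.congr_deriv ?_
  simp only [Pi.mul_apply, E_zero hN, E_zero' hN, mul_zero, add_zero, mul_one, one_mul, mul_neg, sub_eq_add_neg]

lemma ad_mem (hN : N ^ n = 0) (hE : ∀ c : ℂ, ∀ g ∈ S, E N c * g * E N (-c) ∈ S) {X : Matrix (Fin n) (Fin n) ℂ}
    (hX : X ∈ LieOf S hS) : N * X - X * N ∈ LieOf S hS := by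
  refine deriv_mem_sub (conj_deriv hN X) fun c => ?_
  have e2 : E N (-c) * E N c = 1 := by
    have := E_mul_neg hN (-c)
    rwa [neg_neg] at this
  exact conj_mem_LieOf (E_mul_neg hN c) e2 (hE c) hX

/-- **The Lie algebra contains the orthogonal Lie algebra.** -/
theorem wd_mem (hJ : J.transpose = J) (hN : N ^ n = 0) (hNJ : Sk J N) {v : Fin n → ℂ} (hvv : om J v v = 1)
    (hv : (N ^ (n - 1)) *ᵥ v ≠ 0) (hE : ∀ c : ℂ, ∀ g ∈ S, E N c * g * E N (-c) ∈ S) (hvS : tv J v (-2) ∈ S)
    (x y : Fin n → ℂ) : wd J x y ∈ LieOf S hS := by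
  set r := tv J v (-2) with hr
  have hrr : r * r = 1 := rf_sq hvv
  -- the projection
  have hP : ∀ Y ∈ LieOf S hS, Sk J Y → wd J (Y *ᵥ v) v ∈ LieOf S hS := by
    intro Y hY hYs
    have h1 : r * Y * r ∈ LieOf S hS := conj_mem_LieOf hrr hrr (fun s hs => S.mul_mem (S.mul_mem hvS hs) hvS) hY
    have h2 := (LieOf S hS).sub_mem hY h1
    rw [hr, rf_conj hJ hYs, sub_sub_cancel] at h2
    have h3 := (LieOf S hS).smul_mem (1 / 2 : ℂ) h2
    rwa [smul_smul, one_div_mul_cancel (two_ne_zero), one_smul] at h3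
  -- the first element
  have h1 : wd J (N *ᵥ v) v ∈ LieOf S hS := by
    have hd : HasDerivAt (fun c : ℂ => r * (E N c * r * E N (-c))) (r * (N * r - r * N)) 0 :=
      (conj_deriv hN r).const_mul r
    have h2 : r * (N * r - r * N) ∈ LieOf S hS := by
      refine curve_mem_LieOf hd ?_ fun c => S.mul_mem hvS (hE c _ hvS)
      simp only [E_zero hN, E_zero' hN, one_mul, mul_one, hrr]
    have h3 : r * (N * r - r * N) = (-2 : ℂ) • wd J (N *ᵥ v) v := by
      rw [mul_sub, ← mul_assoc, ← mul_assoc, hrr, one_mul, hr, rf_conj hJ hNJ]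
      module
    rw [h3] at h2
    have h4 := (LieOf S hS).smul_mem (-(1 / 2) : ℂ) h2
    rw [smul_smul] at h4
    norm_num at h4
    exact h4
  -- the chain
  have hchain : ∀ j : ℕ, wd J ((N ^ j) *ᵥ v) v ∈ LieOf S hS := by
    intro j
    induction j with
    | zero =>
      rw [pow_zero, one_mulVec, wd_self]
      exact (LieOf S hS).zero_mem
    | succ j ih =>
      have h2 := ad_mem hN hE ih
      rw [br_wd hNJ, mulVec_mulVec, ← pow_succ'] at h2
      set a := (N ^ j) *ᵥ v with ha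
      set b := (N ^ (j + 1)) *ᵥ v with hb
      have hsk : Sk J (wd J b v + wd J a (N *ᵥ v)) := by
        intro p q
        rw [add_mulVec, add_mulVec, om_addl, om_add, wd_skew hJ b v p q, wd_skew hJ a (N *ᵥ v) p q]
        ring
      have h3 := hP _ h2 hsk
      have h4 : (wd J b v + wd J a (N *ᵥ v)) *ᵥ v = b - om J b v • v - om J a v • (N *ᵥ v) := by
        rw [add_mulVec, wd_mulVec, wd_mulVec, hvv, hNJ.self hJ v]
        module
      rw [h4, sub_eq_add_neg, sub_eq_add_neg, wd_add, wd_add, ← neg_smul, ← neg_smul, wd_smul, wd_smul, wd_self,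
        smul_zero, add_zero] at h3
      have h5 := (LieOf S hS).sub_mem h3 ((LieOf S hS).smul_mem (-om J a v) h1)
      rwa [add_sub_cancel_right] at h5
  -- all vectors
  have hall : ∀ x, wd J x v ∈ LieOf S hS := by
    let U : Submodule ℂ (Fin n → ℂ) :=
      { carrier := {x | wd J x v ∈ LieOf S hS}
        zero_mem' := by
          have h0 : wd J 0 v = 0 := by
            have := wd_smul (J := J) 0 v v
            rwa [zero_smul, zero_smul] at this
          show wd J 0 v ∈ LieOf S hS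
          rw [h0]
          exact (LieOf S hS).zero_mem
        add_mem' := by
          intro a b ha hb
          show wd J (a + b) v ∈ LieOf S hS
          rw [wd_add]
          exact (LieOf S hS).add_mem ha hb
        smul_mem' := by
          intro c a ha
          show wd J (c • a) v ∈ LieOf S hS
          rw [wd_smul]
          exact (LieOf S hS).smul_mem c ha }
    have hU : U = ⊤ := by
      rw [eq_top_iff, ← (chain_li hN hv).span_eq_top_of_card_eq_finrank' (by simp)]
      rw [Submodule.span_le]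
      rintro _ ⟨i, rfl⟩
      exact hchain i
    intro x
    have : x ∈ U := by rw [hU]; trivial
    exact this
  have h5 := br_mem_LieOf (hall y) (hall x)
  rw [br_wd (wd_skew hJ y v)] at h5
  have e1 : wd J y v *ᵥ v = y - om J y v • v := by rw [wd_mulVec, hvv, one_smul]
  have e2 : wd J y v *ᵥ x = om J v x • y - om J y x • v := wd_mulVec _ _ _
  rw [e1, e2, wd_comm x (y - om J y v • v)] at h5
  have e3 : wd J (om J v x • y - om J y x • v) v = om J v x • wd J y v := by
    rw [sub_eq_add_neg, ← neg_smul, wd_add, wd_smul, wd_smul, wd_self, smul_zero, add_zero]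
  have e4 : wd J (y - om J y v • v) x = -wd J x y + om J y v • wd J x v := by
    rw [sub_eq_add_neg, ← neg_smul, wd_add, wd_smul, wd_comm y x, wd_comm v x]
    module
  rw [e3, e4] at h5
  have h6 := (LieOf S hS).sub_mem h5 ((LieOf S hS).sub_mem ((LieOf S hS).smul_mem (om J v x) (hall y))
    ((LieOf S hS).smul_mem (om J y v) (hall x)))
  have e5 : om J v x • wd J y v + -(-wd J x y + om J y v • wd J x v) -
      (om J v x • wd J y v - om J y v • wd J x v) = wd J x y := by module
  rwa [e5] at h6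

end lie

end Pool.Agent.E8helper3.HO
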