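import Pool.Agent.E8helper3.HO.GrpO

/-!
# Closed monoids which contain a reflection and are normalised by a regular unipotent group contain the orthogonal group
-/

set_option autoImplicit false
set_option linter.unusedSectionVars false

open Matrix

namespace Pool.Agent.E8helper3.HO

open Pool.Agent.Y119.HY (om om_eq om_add om_smul tv tv_mulVec tv_conj tv_smul E E_exp E_add E_zero E_mul_neg E_isom chain_li)

variable {n : ℕ} {J : Matrix (Fin n) (Fin n) ℂ}

/-! ### vectors -/

lemma om_nd (hdet : J.det ≠ 0) {z : Fin n → ℂ} (h : ∀ y, om J z y = 0) : z = 0 := by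
  have h1 : ∀ w : Fin n → ℂ, z ⬝ᵥ w = 0 := by
    intro w
    have h2 := h (J⁻¹ *ᵥ w)
    unfold om at h2
    rw [mulVec_mulVec, mul_nonsing_inv _ (Ne.isUnit hdet), one_mulVec] at h2
    exact h2
  funext i
  have := h1 (Pi.single i 1)
  rwa [dotProduct_single_one] at this

lemma exists_aniso (hJ : J.transpose = J) (hdet : J.det ≠ 0) (hn : 3 ≤ n) {v x : Fin n → ℂ} (hv : om J v v = 1)
    (hvx : om J v x = 0) (hx : om J x x ≠ 0) : ∃ z, om J v z = 0 ∧ om J x z = 0 ∧ om J z z ≠ 0 := by
  by_contra hcon
  push Not at hcon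
  -- a vector in the kernel
  let f : (Fin n → ℂ) →ₗ[ℂ] (Fin 2 → ℂ) :=
    { toFun := fun z => ![om J v z, om J x z]
      map_add' := fun a b => by
        ext i
        fin_cases i <;> simp [om_add]
      map_smul' := fun c a => by
        ext i
        fin_cases i <;> simp [om_smul] }
  have hker : LinearMap.ker f ≠ ⊥ := by
    refine LinearMap.ker_ne_bot_of_finrank_lt ?_
    rw [Module.finrank_fin_fun, Module.finrank_fin_fun]
    omega
  obtain ⟨z, hz, hz0⟩ := Submodule.exists_mem_ne_zero_of_ne_bot hker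
  have hz' : f z = 0 := hz
  have h1 : om J v z = 0 := congrFun hz' 0
  have h2 : om J x z = 0 := congrFun hz' 1
  apply hz0
  refine om_nd hdet fun y => ?_
  -- the projection of `y`
  set y' := y - om J v y • v - (om J x y / om J x x) • x with hy'
  have hxv : om J x v = 0 := by rw [om_comm hJ]; exact hvx
  have h3 : om J v y' = 0 := by
    rw [hy', om_sub, om_sub, om_smul, om_smul, hv, hvx]
    ring
  have h4 : om J x y' = 0 := by
    rw [hy', om_sub, om_sub, om_smul, om_smul, hxv]
    field_simp
    ring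
  have h5 := hcon y' h3 h4
  have h6 := hcon z h1 h2
  have h7 := hcon (z + y') (by rw [om_add, h1, h3, add_zero]) (by rw [om_add, h2, h4, add_zero])
  rw [om_add, om_addl, om_addl, h5, h6, om_comm hJ z y'] at h7
  have h8 : om J z y' = 0 := by
    have : (2 : ℂ) * om J z y' = 0 := by linear_combination h7
    simpa using this
  rw [hy', om_sub, om_sub, om_smul, om_smul, om_comm hJ v z, om_comm hJ x z, h1, h2] at h8
  linear_combination h8

lemma exists_sqrt (a : ℂ) : ∃ s : ℂ, s ^ 2 = a := IsAlgClosed.exists_pow_nat_eq a two_pos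

lemma exists_iso (hJ : J.transpose = J) (hdet : J.det ≠ 0) (hn : 3 ≤ n) {v x : Fin n → ℂ} (hv : om J v v = 1)
    (hvx : om J v x = 0) (hx : x ≠ 0) : ∃ u, om J u u = 0 ∧ om J u v = 0 ∧ om J u x ≠ 0 := by
  have hxv : om J x v = 0 := by rw [om_comm hJ]; exact hvx
  by_cases ha : om J x x = 0
  · obtain ⟨w, hw⟩ : ∃ w, om J x w ≠ 0 := by
      by_contra hcon
      push Not at hcon
      exact hx (om_nd hdet hcon)
    set c := om J x w with hc
    set w' := (1 / c) • (w - om J v w • v) with hw'
    have h1 : om J x w' = 1 := by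
      rw [hw', om_smul, om_sub, om_smul, hxv, ← hc]
      field_simp
      ring
    have h2 : om J v w' = 0 := by
      rw [hw', om_smul, om_sub, om_smul, hv]
      ring
    clear_value w'
    refine ⟨w' - (om J w' w' / 2) • x, ?_, ?_, ?_⟩
    · rw [om_sub, om_subl, om_subl, om_smul, om_smul, om_smull, om_smull, ha, om_comm hJ x w', h1]
      ring
    · rw [om_subl, om_smull, om_comm hJ v w', h2, hxv]
      ring
    · rw [om_subl, om_smull, om_comm hJ x w', h1, ha]
      simp
  · obtain ⟨z, hz1, hz2, hz3⟩ := exists_aniso hJ hdet hn hv hvx ha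
    obtain ⟨s, hs⟩ := exists_sqrt (-(om J x x) / om J z z)
    have hs' : s * (s * om J z z) = -om J x x := by
      rw [← mul_assoc, ← sq, hs]
      field_simp
    refine ⟨x + s • z, ?_, ?_, ?_⟩
    · rw [om_add, om_addl, om_addl, om_smul, om_smul, om_smull, om_smull, om_comm hJ x z, hz2, hs']
      ring
    · rw [om_addl, om_smull, hxv, om_comm hJ v z, hz1]
      ring
    · rw [om_addl, om_smull, om_comm hJ x z, hz2, mul_zero, add_zero]
      exact ha

/-! ### reflections -/

section refl

attribute [local instance] Matrix.linftyOpNormedRing Matrix.linftyOpNormedAlgebra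

variable [NeZero n]

local instance : CompleteSpace (Matrix (Fin n) (Fin n) ℂ) := FiniteDimensional.complete ℂ _

variable {S : Submonoid (Matrix (Fin n) (Fin n) ℂ)} {hS : IsClosed (S : Set (Matrix (Fin n) (Fin n) ℂ))}

lemma siegel (hJ : J.transpose = J) (hn : 3 ≤ n) (L : ∀ x y, wd J x y ∈ LieOf S hS) {x u : Fin n → ℂ}
    (hx : om J x x = 1) (hu : om J u u = 0) (hux : om J u x = 0) (hxS : tv J x (-2) ∈ S) : tv J (x + u) (-2) ∈ S := by
  set T := wd J u x with hT
  have hxu : om J x u = 0 := by rw [om_comm hJ]; exact hux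
  have h1 : T *ᵥ x = u := by rw [hT, wd_mulVec, hx, hux, one_smul, zero_smul, sub_zero]
  have h2 : T *ᵥ u = 0 := by rw [hT, wd_mulVec, hxu, hu, zero_smul, zero_smul, sub_zero]
  have hT3 : T ^ 3 = 0 := by
    refine mv_ext fun z => ?_
    have h3 : T *ᵥ z = om J x z • u - om J u z • x := wd_mulVec _ _ _
    have h4 : T *ᵥ (T *ᵥ z) = -(om J u z) • u := by
      rw [h3, mulVec_sub, mulVec_smul, mulVec_smul, h1, h2, smul_zero, zero_sub, neg_smul]
    rw [pow_succ, pow_two, ← mulVec_mulVec, ← mulVec_mulVec, h3, ← h3, h4, mulVec_smul, h2, smul_zero, zero_mulVec]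
  have hTn : T ^ n = 0 := by
    obtain ⟨m, rfl⟩ := Nat.exists_eq_add_of_le hn
    rw [pow_add, hT3, zero_mul]
  have hE1 : E T 1 ∈ S := by
    rw [E_exp hTn]
    exact L u x 1
  have hE2 : E T (-1) ∈ S := by
    rw [E_exp hTn]
    exact L u x (-1)
  have h5 := tv_conj (E T 1) (E T (-1)) (E_mul_neg hTn 1) (E_isom hTn (Sk_iff.1 (wd_skew hJ u x)) 1) x (-2)
  have h6 : E T 1 *ᵥ x = x + u := by
    have h7 : ∀ i, (T ^ (i + 1 + 1)) *ᵥ x = 0 := by
      intro i
      rw [pow_succ, ← mulVec_mulVec, h1, pow_succ, ← mulVec_mulVec, h2, mulVec_zero]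
    obtain ⟨m, hm⟩ := Nat.exists_eq_add_of_le' (show 2 ≤ n by omega)
    unfold E
    rw [show Finset.range n = Finset.range (m + 1 + 1) by rw [hm], Finset.sum_range_succ', Finset.sum_range_succ', add_mulVec, add_mulVec, sum_mulVec,
      Finset.sum_eq_zero fun i _ => by rw [smul_mulVec, h7, smul_zero]]
    simp only [zero_add, pow_one, Nat.factorial_one, Nat.cast_one, div_one, pow_zero, Nat.factorial_zero, one_smul,
      one_mulVec, h1]
    exact add_comm _ _
  rw [h6] at h5
  rw [← h5]
  exact S.mul_mem (S.mul_mem hE1 hxS) hE2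

/-- all reflections -/
theorem all_rf (hJ : J.transpose = J) (hdet : J.det ≠ 0) (hn : 3 ≤ n) (L : ∀ x y, wd J x y ∈ LieOf S hS)
    {v : Fin n → ℂ} (hv : om J v v = 1) (hvS : tv J v (-2) ∈ S) {x : Fin n → ℂ} (hx : om J x x = 1) :
    tv J x (-2) ∈ S := by
  -- vectors with scalar product one
  have key : ∀ {v : Fin n → ℂ}, om J v v = 1 → tv J v (-2) ∈ S → ∀ {x : Fin n → ℂ}, om J x x = 1 → om J v x = 1 →
      tv J x (-2) ∈ S := by
    intro v hv hvS x hx hvx
    have h1 := siegel hJ hn L (x := v) (u := x - v) hv (by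
      rw [om_sub, om_subl, om_subl, hx, hv, hvx, om_comm hJ v x, hvx]
      ring) (by rw [om_subl, om_comm hJ v x, hvx, hv, sub_self]) hvS
    rwa [add_sub_cancel] at h1
  by_cases h1 : om J v x = 1
  · exact key hv hvS hx h1
  set x' := x - om J v x • v with hx'
  by_cases h2 : x' = 0
  · have h3 : x = om J v x • v := sub_eq_zero.1 h2
    have h4 : om J v x ^ 2 = 1 := by
      have h5 := hx
      rw [h3, om_smul, om_smull, hv] at h5
      linear_combination h5
    rw [h3, tv_smul, h4, one_mul]
    exact hvS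
  have h3 : om J v x' = 0 := by
    rw [hx', om_sub, om_smul, hv]
    ring
  obtain ⟨u, hu1, hu2, hu3⟩ := exists_iso hJ hdet hn hv h3 h2
  have h4 : om J u x' = om J u x := by
    rw [hx', om_sub, om_smul, hu2]
    ring
  rw [h4] at hu3
  set c := (1 - om J v x) / om J u x with hc
  set z := v + c • u with hz
  have hzv : om J z z = 1 := by
    rw [hz, om_add, om_addl, om_addl, om_smul, om_smul, om_smull, om_smull, hu1, hu2, om_comm hJ u v, hu2, hv]
    ring
  have hzS : tv J z (-2) ∈ S := by
    refine siegel hJ hn L hv ?_ ?_ hvS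
    · rw [om_smul, om_smull, hu1]
      ring
    · rw [om_smull, hu2, mul_zero]
  refine key hzv hzS hx ?_
  rw [hz, om_addl, om_smull, hc]
  field_simp
  ring

end refl

/-! ### the orthogonal group is generated by reflections -/

lemma Is.mul {g h : Matrix (Fin n) (Fin n) ℂ} (hg : Is J g) (hh : Is J h) : Is J (g * h) := by
  intro x y
  rw [← mulVec_mulVec, ← mulVec_mulVec, hg, hh]

/-- **Weak theorem of Cartan and Dieudonné.** -/
theorem ort_gen (hJ : J.transpose = J) (hdet : J.det ≠ 0) (S : Submonoid (Matrix (Fin n) (Fin n) ℂ))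
    (hS : ∀ x, om J x x = 1 → tv J x (-2) ∈ S) {g : Matrix (Fin n) (Fin n) ℂ} (hg : Is J g) : g ∈ S := by
  classical
  let B : LinearMap.BilinForm ℂ (Fin n → ℂ) := Matrix.toLinearMap₂' ℂ J
  have hB : ∀ u v, B u v = om J u v := by
    intro u v
    show Matrix.toLinearMap₂' ℂ J u v = _
    rw [Matrix.toLinearMap₂'_apply']
    rfl
  have hsym : LinearMap.IsSymm B := ⟨fun u v => by
    rw [RingHom.id_apply, hB, hB, om_comm hJ]⟩
  obtain ⟨b', hb'⟩ := LinearMap.BilinForm.exists_orthogonal_basis hsym
  have hfr : Module.finrank ℂ (Fin n → ℂ) = n := Module.finrank_fin_fun ℂ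
  let b := b'.reindex (finCongr hfr)
  have horth : ∀ i j : Fin n, i ≠ j → om J (b i) (b j) = 0 := by
    intro i j hij
    rw [← hB]
    have h1 : b i = b' ((finCongr hfr).symm i) := Module.Basis.reindex_apply _ _ _
    have h2 : b j = b' ((finCongr hfr).symm j) := Module.Basis.reindex_apply _ _ _
    rw [h1, h2]
    exact hb' (fun h => hij ((finCongr hfr).symm.injective h))
  have hne : ∀ i : Fin n, om J (b i) (b i) ≠ 0 := by
    intro i h0
    apply b.ne_zero i
    refine om_nd hdet fun y => ?_
    rw [← b.sum_repr y, ← hB, map_sum]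
    refine Finset.sum_eq_zero fun j _ => ?_
    rw [map_smul, hB]
    by_cases hij : i = j
    · rw [← hij, h0, smul_zero]
    · rw [horth i j hij, smul_zero]
  -- reflections in anisotropic vectors
  have hrefl : ∀ u : Fin n → ℂ, om J u u ≠ 0 → ∃ r ∈ S, Is J r ∧ r * r = 1 ∧
      ∀ x, r *ᵥ x = x - (2 * om J u x / om J u u) • u := by
    intro u hu
    obtain ⟨s, hs⟩ := exists_sqrt (1 / om J u u)
    have h1 : om J (s • u) (s • u) = 1 := by
      rw [om_smul, om_smull, ← mul_assoc, ← sq, hs]
      field_simp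
    refine ⟨tv J (s • u) (-2), hS _ h1, rf_isom hJ h1, rf_sq h1, fun x => ?_⟩
    rw [tv2, om_smull, smul_smul]
    congr 2
    have : 2 * (s * om J u x) * s = 2 * om J u x * s ^ 2 := by ring
    rw [this, hs]
    ring
  -- induction
  have key : ∀ k : ℕ, k ≤ n → ∀ g : Matrix (Fin n) (Fin n) ℂ, Is J g → (∀ i : Fin n, (i : ℕ) < n - k → g *ᵥ b i = b i) →
      g ∈ S := by
    intro k
    induction k with
    | zero =>
      intro _ g _ hfix
      have : g = 1 := by
        refine mv_ext fun x => ?_
        rw [one_mulVec, ← b.sum_repr x, mulVec_sum]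
        refine Finset.sum_congr rfl fun i _ => ?_
        rw [mulVec_smul, hfix i (by have := i.2; omega)]
      rw [this]
      exact S.one_mem
    | succ k ih =>
      intro hk g hg hfix
      set j : Fin n := ⟨n - (k + 1), by omega⟩ with hj
      set w := g *ᵥ b j with hw
      have hww : om J w w = om J (b j) (b j) := hg _ _
      have hwi : ∀ i : Fin n, (i : ℕ) < n - (k + 1) → om J w (b i) = 0 := by
        intro i hi
        have h1 := hg (b j) (b i)
        rw [hfix i hi] at h1
        rw [hw, h1]
        refine horth j i fun h => ?_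
        rw [← h, hj] at hi
        simp at hi
      have hji : ∀ i : Fin n, (i : ℕ) < n - (k + 1) → om J (b j) (b i) = 0 := by
        intro i hi
        refine horth j i fun h => ?_
        rw [← h, hj] at hi
        simp at hi
      -- it suffices to move `w` to `b j`
      have hred : ∀ r ∈ S, Is J r → (∃ r' ∈ S, r' * r = 1) → r *ᵥ w = b j → (∀ i : Fin n, (i : ℕ) < n - (k + 1) → r *ᵥ b i = b i) →
          g ∈ S := by
        intro r _ hr ⟨r', hr', hrr'⟩ hrw hri
        have h1 : r * g ∈ S := by
          refine ih (by omega) (r * g) (hr.mul hg) fun i hi => ?_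
          rw [← mulVec_mulVec]
          by_cases h : (i : ℕ) < n - (k + 1)
          · rw [hfix i h, hri i h]
          · have : i = j := Fin.ext (by rw [hj]; simp only; omega)
            rw [this, ← hw, hrw]
        have h2 : g = r' * (r * g) := by rw [← mul_assoc, hrr', one_mul]
        rw [h2]
        exact S.mul_mem hr' h1
      by_cases ha : om J (w - b j) (w - b j) = 0
      · -- the sum is anisotropic
        have ha' : om J (w + b j) (w + b j) ≠ 0 := by
          intro h0
          have h1 : om J (w - b j) (w - b j) + om J (w + b j) (w + b j) = 2 * om J w w + 2 * om J (b j) (b j) := by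
            rw [om_sub, om_subl, om_subl, om_add, om_addl, om_addl]
            ring
          rw [ha, h0, hww] at h1
          have h2 : (4 : ℂ) * om J (b j) (b j) = 0 := by linear_combination -h1
          exact hne j (by simpa using h2)
        obtain ⟨r, hrS, hrI, hrr, hr⟩ := hrefl _ ha'
        obtain ⟨q, hqS, hqI, hqq, hq⟩ := hrefl _ (hne j)
        refine hred (q * r) (S.mul_mem hqS hrS) (hqI.mul hrI) ⟨r * q, S.mul_mem hrS hqS, ?_⟩ ?_ ?_
        · calc r * q * (q * r) = r * (q * q) * r := by simp only [Matrix.mul_assoc]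
            _ = 1 := by rw [hqq, mul_one, hrr]
        · have h1 : r *ᵥ w = -b j := by
            rw [hr]
            have h2 : 2 * om J (w + b j) w = om J (w + b j) (w + b j) := by
              rw [om_add, om_addl, om_addl, hww, om_comm hJ (b j) w]
              ring
            rw [h2, div_self ha', one_smul]
            abel
          rw [← mulVec_mulVec, h1, hq, om_neg]
          have h3 : 2 * -om J (b j) (b j) / om J (b j) (b j) = -2 := by
            field_simp [hne j]
          rw [h3]
          module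
        · intro i hi
          rw [← mulVec_mulVec, hr, om_addl, hwi i hi, hji i hi, add_zero, mul_zero, zero_div, zero_smul, sub_zero, hq,
            hji i hi, mul_zero, zero_div, zero_smul, sub_zero]
      · obtain ⟨r, hrS, hrI, hrr, hr⟩ := hrefl _ ha
        refine hred r hrS hrI ⟨r, hrS, hrr⟩ ?_ ?_
        · rw [hr]
          have h2 : 2 * om J (w - b j) w = om J (w - b j) (w - b j) := by
            rw [om_sub, om_subl, om_subl, hww, om_comm hJ (b j) w]
            ring
          rw [h2, div_self ha, one_smul]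
          abel
        · intro i hi
          rw [hr, om_subl, hwi i hi, hji i hi, sub_zero, mul_zero, zero_div, zero_smul, sub_zero]
  exact key n le_rfl g hg fun i hi => by omega

section main

attribute [local instance] Matrix.linftyOpNormedRing Matrix.linftyOpNormedAlgebra

/-- **Density.** -/
theorem ort_all (hn : 3 ≤ n) (hJ : J.transpose = J) (hdet : J.det ≠ 0) {N : Matrix (Fin n) (Fin n) ℂ} (hN : N ^ n = 0)
    (hNJ : N.transpose * J + J * N = 0) {v : Fin n → ℂ} (hvv : om J v v = 1) (hv : (N ^ (n - 1)) *ᵥ v ≠ 0)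
    (S : Submonoid (Matrix (Fin n) (Fin n) ℂ)) (hS : IsClosed (S : Set (Matrix (Fin n) (Fin n) ℂ)))
    (hE : ∀ c : ℂ, ∀ g ∈ S, E N c * g * E N (-c) ∈ S) (hvS : tv J v (-2) ∈ S)
    (g : Matrix (Fin n) (Fin n) ℂ) (hg : g.transpose * J * g = J) : g ∈ S := by
  have : NeZero n := ⟨by omega⟩
  have : CompleteSpace (Matrix (Fin n) (Fin n) ℂ) := FiniteDimensional.complete ℂ _
  have L : ∀ x y, wd J x y ∈ LieOf S hS := wd_mem hJ hN (Sk_iff.2 hNJ) hvv hv hE hvS
  exact ort_gen hJ hdet S (fun x hx => all_rf hJ hdet hn L hvv hvS hx) (Is_iff.2 hg)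

end main

end Pool.Agent.E8helper3.HO
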