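import Mathlib

/-!
# Closed submonoids of Banach algebras: the space of the elements `X` with `exp (t X)` in the monoid
-/

set_option autoImplicit false
set_option linter.unusedSectionVars false

open Filter Topology

namespace Pool.Agent.E8helper3.HO

section

variable {𝔸 : Type*} [NormedRing 𝔸] [NormedAlgebra ℂ 𝔸] [CompleteSpace 𝔸] [NormOneClass 𝔸]

lemma norm_exp_le (x : 𝔸) : ‖NormedSpace.exp x‖ ≤ Real.exp ‖x‖ := by
  have h1 := NormedSpace.norm_expSeries_summable' (𝕂 := ℂ) x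
  have h2 : HasSum (fun n : ℕ => ((n.factorial : ℝ)⁻¹) • ‖x‖ ^ n) (Real.exp ‖x‖) := by
    rw [Real.exp_eq_exp_ℝ]
    exact NormedSpace.exp_series_hasSum_exp' (𝕂 := ℝ) ‖x‖
  rw [NormedSpace.exp_eq_tsum ℂ]
  refine (norm_tsum_le_tsum_norm h1).trans ?_
  rw [← h2.tsum_eq]
  refine h1.tsum_le_tsum (fun n => ?_) h2.summable
  rw [norm_smul, norm_inv, Complex.norm_natCast, smul_eq_mul]
  exact mul_le_mul_of_nonneg_left (norm_pow_le x n) (by positivity)

lemma telescope (a b : 𝔸) (M : ℝ) (ha : ‖a‖ ≤ M) (hb : ‖b‖ ≤ M) (n : ℕ) :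
    ‖a ^ (n + 1) - b ^ (n + 1)‖ ≤ (n + 1) * ‖a - b‖ * M ^ n := by
  induction n with
  | zero => simp
  | succ n ih =>
    have hM : 0 ≤ M := (norm_nonneg a).trans ha
    have e : a ^ (n + 1 + 1) - b ^ (n + 1 + 1) =
        a ^ (n + 1) * (a - b) + (a ^ (n + 1) - b ^ (n + 1)) * b := by
      rw [pow_succ a (n + 1), pow_succ b (n + 1)]
      noncomm_ring
    rw [e]
    calc _ ≤ ‖a ^ (n + 1) * (a - b)‖ + ‖(a ^ (n + 1) - b ^ (n + 1)) * b‖ := norm_add_le _ _
      _ ≤ ‖a ^ (n + 1)‖ * ‖a - b‖ + ‖a ^ (n + 1) - b ^ (n + 1)‖ * ‖b‖ :=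
        add_le_add (norm_mul_le _ _) (norm_mul_le _ _)
      _ ≤ M ^ (n + 1) * ‖a - b‖ + ((n + 1) * ‖a - b‖ * M ^ n) * M := by
        have h1 : ‖a ^ (n + 1)‖ ≤ M ^ (n + 1) :=
          (norm_pow_le a _).trans (pow_le_pow_left₀ (norm_nonneg _) ha _)
        gcongr
      _ = _ := by push_cast; ring

lemma tendsto_half : Tendsto (fun m : ℕ => (1 / 2 ^ m : ℂ)) atTop (𝓝[≠] 0) := by
  rw [tendsto_nhdsWithin_iff]
  constructor
  · have : Tendsto (fun m : ℕ => ((1 / 2 : ℂ)) ^ m) atTop (𝓝 0) :=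
      tendsto_pow_atTop_nhds_zero_of_norm_lt_one (by norm_num)
    refine this.congr fun m => ?_
    rw [one_div_pow]
  · refine Eventually.of_forall fun m => ?_
    simp

/-- the one-parameter group of a curve -/
theorem curve_tendsto {f : ℂ → 𝔸} {X : 𝔸} (hf : HasDerivAt f X 0) (hf0 : f 0 = 1) :
    Tendsto (fun m : ℕ => f (1 / 2 ^ m : ℂ) ^ 2 ^ m) atTop (𝓝 (NormedSpace.exp X)) := by
  set C : ℝ := ‖X‖ + 1 with hC
  -- the bound of the curve
  have hbd : ∀ᶠ m : ℕ in atTop, ‖f (1 / 2 ^ m : ℂ)‖ ≤ Real.exp ((1 / 2 ^ m) * C) := by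
    have h1 := hf.tendsto_slope_zero
    have h2 := (h1.comp tendsto_half).norm
    have h3 := h2.eventually (gt_mem_nhds (show ‖X‖ < C by rw [hC]; linarith))
    filter_upwards [h3] with m hm
    simp only [Function.comp_apply, zero_add] at hm
    have hn : ‖(1 / 2 ^ m : ℂ)‖ = 1 / 2 ^ m := by
      rw [norm_div, norm_pow]; norm_num
    rw [norm_smul, norm_inv, hn, hf0] at hm
    have hp : (0 : ℝ) < 1 / 2 ^ m := by positivity
    have h4 : ‖f (1 / 2 ^ m : ℂ) - 1‖ ≤ (1 / 2 ^ m) * C := by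
      have := mul_le_mul_of_nonneg_left hm.le hp.le
      rwa [← mul_assoc, mul_inv_cancel₀ hp.ne', one_mul] at this
    calc ‖f (1 / 2 ^ m : ℂ)‖ = ‖(f (1 / 2 ^ m : ℂ) - 1) + 1‖ := by rw [sub_add_cancel]
      _ ≤ ‖f (1 / 2 ^ m : ℂ) - 1‖ + ‖(1 : 𝔸)‖ := norm_add_le _ _
      _ ≤ (1 / 2 ^ m) * C + 1 := by rw [norm_one]; linarith
      _ ≤ _ := Real.add_one_le_exp _
  -- the difference
  have hdiff : Tendsto (fun m : ℕ => (2 : ℝ) ^ m * ‖f (1 / 2 ^ m : ℂ) - NormedSpace.exp ((1 / 2 ^ m : ℂ) • X)‖)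
      atTop (𝓝 0) := by
    have hx := hasDerivAt_exp_smul_const (𝕂 := ℂ) X (0 : ℂ)
    have hg := hf.sub hx
    rw [zero_smul, NormedSpace.exp_zero, one_mul, sub_self] at hg
    have h1 := hg.tendsto_slope_zero
    have h2 := (h1.comp tendsto_half).norm
    rw [norm_zero] at h2
    refine h2.congr fun m => ?_
    simp only [Function.comp_apply, Pi.sub_apply, zero_add, zero_smul]
    rw [norm_smul, hf0, NormedSpace.exp_zero]
    simp
  rw [tendsto_iff_norm_sub_tendsto_zero]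
  have h1 := hdiff.mul_const (Real.exp C)
  rw [zero_mul] at h1
  refine squeeze_zero' (Eventually.of_forall fun _ => norm_nonneg _) ?_ h1
  filter_upwards [hbd] with m haM
  set a := f (1 / 2 ^ m : ℂ) with ha
  set b := NormedSpace.exp ((1 / 2 ^ m : ℂ) • X) with hb
  have e1 : NormedSpace.exp X = b ^ 2 ^ m := by
    let _ : NormedAlgebra ℚ 𝔸 := NormedAlgebra.restrictScalars ℚ ℂ 𝔸
    rw [hb, ← NormedSpace.exp_nsmul]
    congr 1
    rw [← Nat.cast_smul_eq_nsmul ℂ, smul_smul]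
    push_cast
    have h2 : (2 : ℂ) ^ m ≠ 0 := pow_ne_zero _ two_ne_zero
    rw [mul_one_div, div_self h2, one_smul]
  rw [e1]
  have hn : ‖(1 / 2 ^ m : ℂ)‖ = 1 / 2 ^ m := by
    rw [norm_div, norm_pow]; norm_num
  set M := Real.exp ((1 / 2 ^ m) * C) with hM
  have hbM : ‖b‖ ≤ M := by
    refine (norm_exp_le _).trans ?_
    rw [hM, Real.exp_le_exp, norm_smul, hn]
    refine mul_le_mul_of_nonneg_left ?_ (by positivity)
    rw [hC]; linarith
  obtain ⟨k, hk⟩ : ∃ k : ℕ, 2 ^ m = k + 1 := ⟨2 ^ m - 1, by have := Nat.one_le_two_pow (n := m); omega⟩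
  have hkR : (k : ℝ) + 1 = 2 ^ m := by exact_mod_cast hk.symm
  rw [hk]
  refine (telescope a b M haM hbM k).trans ?_
  rw [hkR]
  refine mul_le_mul_of_nonneg_left ?_ (by positivity)
  have hM1 : 1 ≤ M := by
    rw [hM]; exact Real.one_le_exp (by positivity)
  calc M ^ k ≤ M ^ (k + 1) := pow_le_pow_right₀ hM1 (Nat.le_succ k)
    _ = Real.exp C := by
      rw [hM, ← Real.exp_nat_mul]
      congr 1
      push_cast
      rw [hkR]
      field_simp

variable {S : Submonoid 𝔸}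

/-- the exponential of the velocity of a curve in a closed submonoid -/
theorem curve_mem (hS : IsClosed (S : Set 𝔸)) {f : ℂ → 𝔸} {X : 𝔸} (hf : HasDerivAt f X 0) (hf0 : f 0 = 1)
    (hfS : ∀ c, f c ∈ S) : NormedSpace.exp X ∈ S :=
  hS.mem_of_tendsto (curve_tendsto hf hf0) (Eventually.of_forall fun _ => S.pow_mem (hfS _) _)

/-- the Lie algebra of a closed submonoid -/
noncomputable def LieOf (S : Submonoid 𝔸) (hS : IsClosed (S : Set 𝔸)) : Submodule ℂ 𝔸 where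
  carrier := {X | ∀ t : ℂ, NormedSpace.exp (t • X) ∈ S}
  zero_mem' := fun t => by
    rw [smul_zero, NormedSpace.exp_zero]
    exact S.one_mem
  add_mem' := by
    intro X Y hX hY t
    have hx := hasDerivAt_exp_smul_const (𝕂 := ℂ) (t • X) (0 : ℂ)
    have hy := hasDerivAt_exp_smul_const (𝕂 := ℂ) (t • Y) (0 : ℂ)
    have h := hx.mul hy
    rw [zero_smul, zero_smul, NormedSpace.exp_zero, one_mul, one_mul, one_mul, mul_one, ← smul_add] at h
    refine curve_mem hS h ?_ fun c => ?_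
    · show NormedSpace.exp ((0 : ℂ) • (t • X)) * NormedSpace.exp ((0 : ℂ) • (t • Y)) = 1
      rw [zero_smul, zero_smul, NormedSpace.exp_zero, one_mul]
    · show NormedSpace.exp (c • (t • X)) * NormedSpace.exp (c • (t • Y)) ∈ S
      rw [smul_smul, smul_smul]
      exact S.mul_mem (hX _) (hY _)
  smul_mem' := by
    intro c X hX t
    rw [smul_smul]
    exact hX _

variable {hS : IsClosed (S : Set 𝔸)}

lemma mem_LieOf {X : 𝔸} : X ∈ LieOf S hS ↔ ∀ t : ℂ, NormedSpace.exp (t • X) ∈ S := Iff.rfl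

/-- velocities -/
theorem curve_mem_LieOf {f : ℂ → 𝔸} {X : 𝔸} (hf : HasDerivAt f X 0) (hf0 : f 0 = 1)
    (hfS : ∀ c, f c ∈ S) : X ∈ LieOf S hS := by
  intro t
  have h1 : HasDerivAt (fun c : ℂ => c * t) t 0 := by simpa using (hasDerivAt_id (0 : ℂ)).mul_const t
  have h2 : HasDerivAt f X ((fun c : ℂ => c * t) 0) := by simpa using hf
  have h3 := h2.scomp (0 : ℂ) h1
  refine curve_mem hS h3 ?_ fun c => hfS _
  simp [hf0]

/-- conjugation -/
theorem conj_mem_LieOf {g h : 𝔸} (hgh : g * h = 1) (hhg : h * g = 1) (hconj : ∀ s ∈ S, g * s * h ∈ S) {X : 𝔸}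
    (hX : X ∈ LieOf S hS) : g * X * h ∈ LieOf S hS := by
  intro t
  let u : 𝔸ˣ := ⟨g, h, hgh, hhg⟩
  let _ : NormedAlgebra ℚ 𝔸 := NormedAlgebra.restrictScalars ℚ ℂ 𝔸
  have h1 : NormedSpace.exp ((u : 𝔸) * (t • X) * (u⁻¹ : 𝔸ˣ)) = (u : 𝔸) * NormedSpace.exp (t • X) * (u⁻¹ : 𝔸ˣ) :=
    NormedSpace.exp_units_conj u (t • X)
  have h2 : ((u : 𝔸) * (t • X) * (u⁻¹ : 𝔸ˣ)) = t • (g * X * h) := by
    show g * (t • X) * h = _
    rw [mul_smul_comm, smul_mul_assoc]
  rw [h2] at h1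
  rw [h1]
  exact hconj _ (hX t)

/-- derivatives of curves in a finite dimensional subspace -/
theorem deriv_mem_sub [FiniteDimensional ℂ 𝔸] {L : Submodule ℂ 𝔸} {f : ℂ → 𝔸} {D : 𝔸} (hf : HasDerivAt f D 0)
    (hfL : ∀ c, f c ∈ L) : D ∈ L := by
  have h1 := hf.tendsto_slope_zero
  have hcl : IsClosed (L : Set 𝔸) := L.closed_of_finiteDimensional
  refine hcl.mem_of_tendsto (h1.comp tendsto_half) (Eventually.of_forall fun _ => ?_)
  exact L.smul_mem _ (L.sub_mem (hfL _) (hfL _))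

/-- brackets -/
theorem br_mem_LieOf [FiniteDimensional ℂ 𝔸] {X Y : 𝔸} (hX : X ∈ LieOf S hS) (hY : Y ∈ LieOf S hS) :
    X * Y - Y * X ∈ LieOf S hS := by
  let _ : NormedAlgebra ℚ 𝔸 := NormedAlgebra.restrictScalars ℚ ℂ 𝔸
  have hx := hasDerivAt_exp_smul_const (𝕂 := ℂ) X (0 : ℂ)
  have hx' := hasDerivAt_exp_smul_const (𝕂 := ℂ) (-X) (0 : ℂ)
  have h := (hx.mul (hasDerivAt_const (0 : ℂ) Y)).mul hx'
  have h0 : HasDerivAt (fun c : ℂ => NormedSpace.exp (c • X) * Y * NormedSpace.exp (c • (-X))) (X * Y - Y * X) 0 := by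
    refine h.congr_deriv ?_
    simp only [Pi.mul_apply, zero_smul, NormedSpace.exp_zero, one_mul, mul_zero, add_zero, mul_one, mul_neg,
      sub_eq_add_neg]
  refine deriv_mem_sub h0 fun c => ?_
  have h1 : c • (-X) = -(c • X) := smul_neg _ _
  have e1 : NormedSpace.exp (c • X) * NormedSpace.exp (-(c • X)) = 1 := by
    rw [← NormedSpace.exp_add_of_commute (Commute.refl (c • X)).neg_right, add_neg_cancel, NormedSpace.exp_zero]
  have e2 : NormedSpace.exp (-(c • X)) * NormedSpace.exp (c • X) = 1 := by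
    rw [← NormedSpace.exp_add_of_commute (Commute.refl (c • X)).neg_left, neg_add_cancel, NormedSpace.exp_zero]
  show NormedSpace.exp (c • X) * Y * NormedSpace.exp (c • (-X)) ∈ LieOf S hS
  rw [h1]
  refine conj_mem_LieOf e1 e2 (fun s hs => ?_) hY
  refine S.mul_mem (S.mul_mem (hX c) hs) ?_
  have := hX (-c)
  rwa [neg_smul] at this

end

end Pool.Agent.E8helper3.HO
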