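import Pool.Agent.E8helper3.HO.Base

/-!
# Local solutions at a singularity where the residue is a multiple of a projection
-/

set_option autoImplicit false

open Filter Topology Matrix

namespace Pool.Agent.E8helper3.HO

open Pool.Agent.Y119.HY

variable {n : ℕ} {N0 N1 : Matrix (Fin n) (Fin n) ℂ} {ρ : ℂ}

/-! ### the recursion -/

lemma DD_cube (hN : N0 * N0 = ρ • N0) (X : Matrix (Fin n) (Fin n) ℂ) :
    DD N0 (DD N0 (DD N0 X)) = (ρ ^ 2) • DD N0 X := by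
  have h1 : ∀ Y : Matrix (Fin n) (Fin n) ℂ, Y * N0 * N0 = ρ • (Y * N0) := fun Y => by
    rw [Matrix.mul_assoc, hN, mul_smul_comm]
  have h2 : ∀ Y : Matrix (Fin n) (Fin n) ℂ, N0 * (N0 * Y) = ρ • (N0 * Y) := fun Y => by
    rw [← Matrix.mul_assoc, hN, smul_mul_assoc]
  have h3 : DD N0 (DD N0 X) = ρ • (X * N0) + ρ • (N0 * X) - (2 : ℂ) • (N0 * X * N0) := by
    rw [DD_apply, DD_apply, sub_mul, mul_sub, h1, h2, ← Matrix.mul_assoc]
    module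
  rw [h3, DD_apply, DD_apply]
  simp only [add_mul, sub_mul, mul_add, mul_sub, smul_mul_assoc, mul_smul_comm, ← Matrix.mul_assoc, h1, hN]
  module

/-- the inverse of `κ + D` -/
noncomputable def RP (N0 : Matrix (Fin n) (Fin n) ℂ) (ρ κ : ℂ) (X : Matrix (Fin n) (Fin n) ℂ) :
    Matrix (Fin n) (Fin n) ℂ := κ⁻¹ • X - (κ ^ 2 - ρ ^ 2)⁻¹ • DD N0 X + (κ⁻¹ * (κ ^ 2 - ρ ^ 2)⁻¹) • DD N0 (DD N0 X)

lemma RP_right (hN : N0 * N0 = ρ • N0) {κ : ℂ} (hκ : κ ≠ 0) (hκρ : κ ^ 2 - ρ ^ 2 ≠ 0) (X : Matrix (Fin n) (Fin n) ℂ) :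
    κ • RP N0 ρ κ X + DD N0 (RP N0 ρ κ X) = X := by
  unfold RP
  rw [map_add, map_sub, map_smul, map_smul, map_smul, DD_cube hN]
  set D1 := DD N0 X
  set D2 := DD N0 D1
  have e : κ • (κ⁻¹ • X - (κ ^ 2 - ρ ^ 2)⁻¹ • D1 + (κ⁻¹ * (κ ^ 2 - ρ ^ 2)⁻¹) • D2) +
      (κ⁻¹ • D1 - (κ ^ 2 - ρ ^ 2)⁻¹ • D2 + (κ⁻¹ * (κ ^ 2 - ρ ^ 2)⁻¹) • ρ ^ 2 • D1) =
      (κ * κ⁻¹) • X + (-(κ * (κ ^ 2 - ρ ^ 2)⁻¹) + κ⁻¹ + κ⁻¹ * (κ ^ 2 - ρ ^ 2)⁻¹ * ρ ^ 2) • D1 +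
      ((κ * κ⁻¹) * (κ ^ 2 - ρ ^ 2)⁻¹ - (κ ^ 2 - ρ ^ 2)⁻¹) • D2 := by module
  rw [e, mul_inv_cancel₀ hκ]
  have e2 : -(κ * (κ ^ 2 - ρ ^ 2)⁻¹) + κ⁻¹ + κ⁻¹ * (κ ^ 2 - ρ ^ 2)⁻¹ * ρ ^ 2 = 0 := by
    field_simp
    ring
  rw [e2, one_mul, sub_self]
  module

lemma RP_left (hN : N0 * N0 = ρ • N0) {κ : ℂ} (hκ : κ ≠ 0) (hκρ : κ ^ 2 - ρ ^ 2 ≠ 0) (X : Matrix (Fin n) (Fin n) ℂ) :
    RP N0 ρ κ (κ • X + DD N0 X) = X := by
  unfold RP
  rw [map_add, map_add, map_smul, map_smul, DD_cube hN]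
  set D1 := DD N0 X
  set D2 := DD N0 D1
  have e : κ⁻¹ • (κ • X + D1) - (κ ^ 2 - ρ ^ 2)⁻¹ • (κ • D1 + D2) + (κ⁻¹ * (κ ^ 2 - ρ ^ 2)⁻¹) • (κ • D2 + ρ ^ 2 • D1) =
      (κ * κ⁻¹) • X + (-(κ * (κ ^ 2 - ρ ^ 2)⁻¹) + κ⁻¹ + κ⁻¹ * (κ ^ 2 - ρ ^ 2)⁻¹ * ρ ^ 2) • D1 +
      ((κ * κ⁻¹) * (κ ^ 2 - ρ ^ 2)⁻¹ - (κ ^ 2 - ρ ^ 2)⁻¹) • D2 := by module
  rw [e, mul_inv_cancel₀ hκ]
  have e2 : -(κ * (κ ^ 2 - ρ ^ 2)⁻¹) + κ⁻¹ + κ⁻¹ * (κ ^ 2 - ρ ^ 2)⁻¹ * ρ ^ 2 = 0 := by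
    field_simp
    ring
  rw [e2, one_mul, sub_self]
  module

/-- existence -/
theorem exists_sol' (hN : N0 * N0 = ρ • N0) (hρ : ∀ k : ℕ, ((k : ℂ) + 1) ^ 2 - ρ ^ 2 ≠ 0)
    (N1 : Matrix (Fin n) (Fin n) ℂ) : ∃ H, Sol N0 N1 H := by
  set H : ℕ → Matrix (Fin n) (Fin n) ℂ := fun k => Nat.rec (motive := fun _ => Matrix (Fin n) (Fin n) ℂ) 1
    (fun k X => RP N0 ρ ((k : ℂ) + 1) ((k : ℂ) • X + (X * N0 - N0 * X) + N1 * X)) k with hH
  refine ⟨H, rfl, fun k => ?_⟩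
  have h1 : ((k : ℂ) + 1) ≠ 0 := by exact_mod_cast Nat.succ_ne_zero k
  have h2 : H (k + 1) = RP N0 ρ ((k : ℂ) + 1) ((k : ℂ) • H k + (H k * N0 - N0 * H k) + N1 * H k) := rfl
  have h3 := RP_right hN h1 (hρ k) ((k : ℂ) • H k + (H k * N0 - N0 * H k) + N1 * H k)
  rw [← h2, DD_apply] at h3
  exact h3

lemma inv_bound (hρ : ∀ k : ℕ, ((k : ℂ) + 1) ^ 2 - ρ ^ 2 ≠ 0) : ∃ B : ℝ, 0 ≤ B ∧ ∀ k : ℕ,
    ‖(((k : ℂ) + 1) ^ 2 - ρ ^ 2)⁻¹‖ ≤ B / ((k : ℝ) + 1) := by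
  have h1 : Tendsto (fun k : ℕ => ((k : ℂ) + 1) ^ 2 / (((k : ℂ) + 1) ^ 2 - ρ ^ 2)) atTop (𝓝 1) := by
    have h2 : Tendsto (fun k : ℕ => (1 / ((k : ℂ) + 1))) atTop (𝓝 0) := tendsto_one_div_add_atTop_nhds_zero_nat
    have h3 : Tendsto (fun k : ℕ => 1 / (1 - ρ ^ 2 * (1 / ((k : ℂ) + 1)) ^ 2)) atTop (𝓝 (1 / (1 - ρ ^ 2 * 0 ^ 2))) := by
      refine Tendsto.div tendsto_const_nhds (tendsto_const_nhds.sub ((h2.pow 2).const_mul _)) ?_
      simp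
    have e : (1 : ℂ) / (1 - ρ ^ 2 * 0 ^ 2) = 1 := by simp
    rw [e] at h3
    refine h3.congr fun k => ?_
    have h4 : ((k : ℂ) + 1) ≠ 0 := by exact_mod_cast Nat.succ_ne_zero k
    have h5 := hρ k
    have h6 : 1 - ρ ^ 2 * (1 / ((k : ℂ) + 1)) ^ 2 = (((k : ℂ) + 1) ^ 2 - ρ ^ 2) / ((k : ℂ) + 1) ^ 2 := by
      field_simp
    rw [h6, one_div_div]
  obtain ⟨B, hB⟩ := h1.norm.bddAbove_range
  have hB' : ∀ k : ℕ, ‖((k : ℂ) + 1) ^ 2 / (((k : ℂ) + 1) ^ 2 - ρ ^ 2)‖ ≤ B := fun k => hB ⟨k, rfl⟩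
  have hB0 : 0 ≤ B := (norm_nonneg _).trans (hB' 0)
  refine ⟨B, hB0, fun k => ?_⟩
  have hk : (1 : ℝ) ≤ (k : ℝ) + 1 := by linarith [Nat.cast_nonneg (α := ℝ) k]
  have h2 := hB' k
  have h3 : ‖((k : ℂ) + 1)‖ = (k : ℝ) + 1 := by
    have : ((k : ℂ) + 1) = (((k : ℝ) + 1 : ℝ) : ℂ) := by push_cast; rfl
    rw [this, Complex.norm_real, Real.norm_of_nonneg (by linarith)]
  rw [div_eq_mul_inv, norm_mul, norm_pow, h3] at h2
  rw [le_div_iff₀ (by linarith)]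
  refine le_trans ?_ h2
  rw [mul_comm]
  refine mul_le_mul_of_nonneg_right ?_ (norm_nonneg _)
  nlinarith

section growth

attribute [local instance] Matrix.linftyOpNormedAddCommGroup Matrix.linftyOpNormedRing Matrix.linftyOpNormedAlgebra

lemma norm_aux {E : Type*} [SeminormedAddCommGroup E] [NormedSpace ℂ E] (a b : ℂ) (x y z : E) :
    ‖a • x - b • y + (a * b) • z‖ ≤ ‖a‖ * ‖x‖ + ‖b‖ * ‖y‖ + ‖a‖ * ‖b‖ * ‖z‖ := by
  refine (norm_add_le _ _).trans (add_le_add ((norm_sub_le _ _).trans ?_) ?_)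
  · rw [norm_smul, norm_smul]
  · rw [norm_smul, norm_mul]

lemma RP_norm (hρ : ∀ k : ℕ, ((k : ℂ) + 1) ^ 2 - ρ ^ 2 ≠ 0) : ∃ K : ℝ, 0 ≤ K ∧ ∀ (k : ℕ) (Y : Matrix (Fin n) (Fin n) ℂ),
    ‖RP N0 ρ ((k : ℂ) + 1) Y‖ ≤ K / ((k : ℝ) + 1) * ‖Y‖ := by
  obtain ⟨B, hB0, hB⟩ := inv_bound hρ
  refine ⟨1 + B * (2 * ‖N0‖) + B * (2 * ‖N0‖) ^ 2, by positivity, fun k Y => ?_⟩
  have hk : (1 : ℝ) ≤ (k : ℝ) + 1 := by linarith [Nat.cast_nonneg (α := ℝ) k]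
  have h1 : ‖((k : ℂ) + 1)⁻¹‖ = 1 / ((k : ℝ) + 1) := by
    have : ((k : ℂ) + 1) = (((k : ℝ) + 1 : ℝ) : ℂ) := by push_cast; rfl
    rw [this, norm_inv, Complex.norm_real, Real.norm_of_nonneg (by linarith), one_div]
  have hb := hB k
  have h2 : ‖DD N0 Y‖ ≤ (2 * ‖N0‖) * ‖Y‖ := DD_norm Y
  have h3 : ‖DD N0 (DD N0 Y)‖ ≤ (2 * ‖N0‖) ^ 2 * ‖Y‖ := by
    refine (DD_norm _).trans ?_
    rw [sq, mul_assoc (2 * ‖N0‖) (2 * ‖N0‖)]
    exact mul_le_mul_of_nonneg_left h2 (by positivity)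
  have hle1 : 1 / ((k : ℝ) + 1) ≤ 1 := by rw [div_le_one (by linarith)]; exact hk
  unfold RP
  refine (norm_aux _ _ _ _ _).trans ?_
  rw [h1]
  generalize ‖DD N0 Y‖ = d1 at h2 ⊢
  generalize ‖DD N0 (DD N0 Y)‖ = d2 at h3 ⊢
  have hb0 := norm_nonneg (((((k : ℂ) + 1) ^ 2 - ρ ^ 2)⁻¹ : ℂ))
  generalize ‖(((k : ℂ) + 1) ^ 2 - ρ ^ 2)⁻¹‖ = b at hb hb0 ⊢
  have hY := norm_nonneg Y
  have hN := norm_nonneg N0
  generalize ‖Y‖ = y at h2 h3 hY ⊢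
  generalize ‖N0‖ = m at h2 h3 hN ⊢
  generalize ((k : ℝ) + 1) = κ at hk hb hle1 ⊢
  have hBκ : 0 ≤ B / κ := by positivity
  have e1 : b * d1 ≤ (B / κ) * ((2 * m) * y) :=
    (mul_le_mul_of_nonneg_left h2 hb0).trans (mul_le_mul_of_nonneg_right hb (by positivity))
  have e2 : 1 / κ * b * d2 ≤ (B / κ) * ((2 * m) ^ 2 * y) := by
    have e3 : 1 / κ * b ≤ B / κ := (mul_le_of_le_one_left hb0 hle1).trans hb
    have e4 : 0 ≤ 1 / κ * b := mul_nonneg (by positivity) hb0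
    exact (mul_le_mul_of_nonneg_left h3 e4).trans (mul_le_mul_of_nonneg_right e3 (by positivity))
  calc 1 / κ * y + b * d1 + 1 / κ * b * d2 ≤ 1 / κ * y + (B / κ) * ((2 * m) * y) + (B / κ) * ((2 * m) ^ 2 * y) := by
        linarith
    _ = _ := by ring

/-- growth -/
theorem growth' {H : ℕ → Matrix (Fin n) (Fin n) ℂ} (hN : N0 * N0 = ρ • N0)
    (hρ : ∀ k : ℕ, ((k : ℂ) + 1) ^ 2 - ρ ^ 2 ≠ 0) (hH : Sol N0 N1 H) (i j : Fin n) : PG fun k => H k i j := by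
  obtain ⟨K, hK0, hK⟩ := RP_norm (N0 := N0) hρ
  set K1 : ℝ := K * ‖N1 - 1‖ with hK1
  have hK10 : 0 ≤ K1 := by positivity
  set q : ℕ := ⌈K1⌉₊ with hq
  have hstep : ∀ k, ‖H (k + 1)‖ ≤ (1 + K1 / ((k : ℝ) + 1)) * ‖H k‖ := by
    intro k
    have h1 : ((k : ℂ) + 1) ≠ 0 := by exact_mod_cast Nat.succ_ne_zero k
    have h2 : ((k : ℂ) + 1) • (H (k + 1) - H k) + DD N0 (H (k + 1) - H k) = (N1 - 1) * H k := by
      have h3 := hH.step k
      rw [DD_apply, sub_mul, mul_sub, sub_mul, one_mul]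
      have h4 : ((k : ℂ) + 1) • (H (k + 1) - H k) = ((k : ℂ) + 1) • H (k + 1) - ((k : ℂ) • H k + H k) := by
        rw [smul_sub, add_smul (k : ℂ) 1 (H k), one_smul]
      rw [h4]
      calc _ = (((k : ℂ) + 1) • H (k + 1) + (H (k + 1) * N0 - N0 * H (k + 1))) - (k : ℂ) • H k - H k
            - (H k * N0 - N0 * H k) := by abel
        _ = _ := by rw [h3]; abel
    have h5 := RP_left hN h1 (hρ k) (H (k + 1) - H k)
    rw [h2] at h5
    have h6 : ‖H (k + 1) - H k‖ ≤ K1 / ((k : ℝ) + 1) * ‖H k‖ := by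
      rw [← h5]
      refine (hK k _).trans ?_
      calc K / ((k : ℝ) + 1) * ‖(N1 - 1) * H k‖ ≤ K / ((k : ℝ) + 1) * (‖N1 - 1‖ * ‖H k‖) :=
            mul_le_mul_of_nonneg_left (norm_mul_le _ _) (by positivity)
        _ = _ := by rw [hK1]; ring
    calc ‖H (k + 1)‖ = ‖H k + (H (k + 1) - H k)‖ := by rw [add_sub_cancel]
      _ ≤ ‖H k‖ + ‖H (k + 1) - H k‖ := norm_add_le _ _
      _ ≤ _ := by linarith
  have hbd : ∀ k : ℕ, ‖H k‖ ≤ ‖H 0‖ * ((k : ℝ) + 1) ^ q := by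
    intro k
    induction k with
    | zero => simp
    | succ k ih =>
      have hk : (0 : ℝ) < (k : ℝ) + 1 := by positivity
      have h1 : 1 + K1 / ((k : ℝ) + 1) ≤ (1 + 1 / ((k : ℝ) + 1)) ^ q := by
        have h2 := one_add_mul_le_pow (a := 1 / ((k : ℝ) + 1)) (by have : (0 : ℝ) ≤ 1 / ((k : ℝ) + 1) := by positivity
                                                                   linarith) q
        refine le_trans ?_ h2
        have : K1 ≤ q := Nat.le_ceil _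
        rw [mul_one_div]
        gcongr
      calc ‖H (k + 1)‖ ≤ (1 + K1 / ((k : ℝ) + 1)) * ‖H k‖ := hstep k
        _ ≤ (1 + 1 / ((k : ℝ) + 1)) ^ q * (‖H 0‖ * ((k : ℝ) + 1) ^ q) :=
          mul_le_mul h1 ih (norm_nonneg _) (by positivity)
        _ = ‖H 0‖ * ((1 + 1 / ((k : ℝ) + 1)) * ((k : ℝ) + 1)) ^ q := by rw [mul_pow]; ring
        _ = ‖H 0‖ * (((k + 1 : ℕ) : ℝ) + 1) ^ q := by
          congr 2
          push_cast
          field_simp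
  exact ⟨‖H 0‖, q, fun k => (entry_le _ i j).trans (hbd k)⟩

end growth

/-! ### the differential equation -/

variable {H : ℕ → Matrix (Fin n) (Fin n) ℂ}

lemma Hf_an' (hg : ∀ i j, PG fun k => H k i j) (i j : Fin n) :
    AnalyticOnNhd ℂ (fun z => Hf H z i j) (Metric.ball 0 1) := ps_an (hg i j)

lemma Hf_ode' (hH : Sol N0 N1 H) (hg : ∀ i j, PG fun k => H k i j) {z : ℂ} (hz : ‖z‖ < 1) (hz0 : z ≠ 0) :
    HD (Hf H) ((1 / z) • (N0 * Hf H z - Hf H z * N0) + (1 / (1 - z)) • (N1 * Hf H z)) z := by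
  intro i j
  have hd : HasDerivAt (ps fun k => H k i j) (deriv (ps fun k => H k i j) z) z :=
    ((ps_an (hg i j)) z (by rwa [Metric.mem_ball, dist_zero_right])).differentiableAt.hasDerivAt
  have h1z : (1 - z) ≠ 0 := by
    intro h0
    have : z = 1 := (sub_eq_zero.1 h0).symm
    rw [this, norm_one] at hz
    exact lt_irrefl _ hz
  refine hd.congr_deriv ?_
  -- the sequences
  have hgl : PG fun k => (N0 * H k) i j := by
    simp only [Matrix.mul_apply]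
    exact PG.sum _ fun l _ => (hg l j).smul _
  have hgr : PG fun k => (H k * N0) i j := by
    simp only [Matrix.mul_apply]
    refine PG.sum _ fun l _ => ?_
    simp only [mul_comm (H _ i l)]
    exact (hg i l).smul _
  have hg1 : PG fun k => (N1 * H k) i j := by
    simp only [Matrix.mul_apply]
    exact PG.sum _ fun l _ => (hg l j).smul _
  have el : ps (fun k => (N0 * H k) i j) z = (N0 * Hf H z) i j := by
    simp only [Matrix.mul_apply]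
    rw [ps_sum _ (fun l _ => (hg l j).smul _) hz]
    exact Finset.sum_congr rfl fun l _ => ps_smul _ _
  have er : ps (fun k => (H k * N0) i j) z = (Hf H z * N0) i j := by
    simp only [Matrix.mul_apply, mul_comm (H _ i _)]
    rw [ps_sum _ (fun l _ => (hg i l).smul _) hz]
    refine Finset.sum_congr rfl fun l _ => ?_
    rw [ps_smul, mul_comm]
    rfl
  have e1 : ps (fun k => (N1 * H k) i j) z = (N1 * Hf H z) i j := by
    simp only [Matrix.mul_apply]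
    rw [ps_sum _ (fun l _ => (hg l j).smul _) hz]
    exact Finset.sum_congr rfl fun l _ => ps_smul _ _
  set D : ℕ → ℂ := fun k => (k : ℂ) * H k i j + ((H k * N0) i j + (-1) * (N0 * H k) i j) with hD
  have hDg : PG D := (hg i j).nat.add (hgr.add (hgl.smul (-1)))
  have eD : ps D z = z * deriv (ps fun k => H k i j) z + ((Hf H z * N0) i j - (N0 * Hf H z) i j) := by
    rw [hD, ps_add (hg i j).nat (hgr.add (hgl.smul (-1))) hz, ps_add hgr (hgl.smul (-1)) hz, ps_smul, el, er,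
      ← ps_deriv (hg i j) hz]
    ring
  have hD0 : D 0 = 0 := by
    rw [hD]
    simp only
    rw [hH.zero]
    simp
  have hDs : ∀ k, D (k + 1) = D k + (N1 * H k) i j := by
    intro k
    have := congrFun (congrFun (hH.step k) i) j
    simp only [Matrix.add_apply, Matrix.smul_apply, Matrix.sub_apply, smul_eq_mul] at this
    rw [hD]
    simp only
    push_cast
    linear_combination this
  have hfin : ps D z = z * (ps D z + (N1 * Hf H z) i j) := by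
    conv_lhs => rw [ps_shift hDg hz, hD0, zero_add]
    congr 1
    simp only [hDs]
    rw [ps_add hDg hg1 hz, e1]
  simp only [Matrix.add_apply, Matrix.smul_apply, Matrix.sub_apply, smul_eq_mul]
  rw [eD] at hfin
  have h2 : (1 - z) * (z * deriv (ps fun k => H k i j) z + ((Hf H z * N0) i j - (N0 * Hf H z) i j)) =
      z * (N1 * Hf H z) i j := by linear_combination hfin
  field_simp
  linear_combination h2

/-- `w ^ (ρ T)` as a function of `s = log w` -/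
noncomputable def WW (T : Matrix (Fin n) (Fin n) ℂ) (ρ s : ℂ) : Matrix (Fin n) (Fin n) ℂ :=
  1 + (Complex.exp (ρ * s) - 1) • T

variable {T : Matrix (Fin n) (Fin n) ℂ}

lemma WW_add (hT : T * T = T) (s t : ℂ) : WW T ρ (s + t) = WW T ρ s * WW T ρ t := by
  unfold WW
  rw [mul_add ρ, Complex.exp_add, add_mul, one_mul, mul_add, mul_one, smul_mul_smul_comm, hT]
  module

lemma WW_zero : WW T ρ 0 = 1 := by
  unfold WW
  rw [mul_zero, Complex.exp_zero, sub_self, zero_smul, add_zero]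

lemma WW_mul_neg (hT : T * T = T) (s : ℂ) : WW T ρ s * WW T ρ (-s) = 1 := by
  rw [← WW_add hT, add_neg_cancel, WW_zero]

lemma WW_HD (hT : T * T = T) (s : ℂ) : HD (WW T ρ) ((ρ • T) * WW T ρ s) s := by
  intro i j
  have h1 : (ρ • T) * WW T ρ s = (Complex.exp (ρ * s) * ρ) • T := by
    unfold WW
    rw [mul_add, mul_one, smul_mul_smul_comm, hT]
    module
  rw [h1]
  unfold WW
  simp only [Matrix.add_apply, Matrix.smul_apply, smul_eq_mul]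
  have h2 : HasDerivAt (fun w : ℂ => Complex.exp (ρ * w)) (Complex.exp (ρ * s) * ρ) s := by
    have := ((hasDerivAt_id s).const_mul ρ).cexp
    simpa using this
  exact ((h2.sub_const 1).mul_const (T i j)).const_add _

/-- the solution at the singularity -/
noncomputable def Zf (T : Matrix (Fin n) (Fin n) ℂ) (ρ : ℂ) (H : ℕ → Matrix (Fin n) (Fin n) ℂ) (z : ℂ) :
    Matrix (Fin n) (Fin n) ℂ := Hf H z * WW T ρ (Complex.log z)

theorem Zf_ode (hT : T * T = T) (hH : Sol (ρ • T) N1 H) (hg : ∀ i j, PG fun k => H k i j) {z : ℂ} (hz : ‖z‖ < 1)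
    (hz0 : z ∈ Complex.slitPlane) : HD (Zf T ρ H) (Gm (ρ • T) N1 z * Zf T ρ H z) z := by
  have hz0' : z ≠ 0 := Complex.slitPlane_ne_zero hz0
  have h1 := Hf_ode' hH hg hz hz0'
  have h2 : HD (fun w => WW T ρ (Complex.log w)) (z⁻¹ • ((ρ • T) * WW T ρ (Complex.log z))) z :=
    (WW_HD hT (Complex.log z)).comp (Complex.hasDerivAt_log hz0)
  refine (h1.mul h2).congr ?_
  unfold Gm Zf
  simp only [add_mul, smul_mul_assoc, sub_mul, mul_smul_comm, Matrix.mul_assoc, smul_sub, one_div]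
  abel

end Pool.Agent.E8helper3.HO
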