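import Pool.Agent.E8helper3.HO.Conn
import Pool.Agent.E8helper3.HO.GrpO2

/-!
# Hypergeometric systems of odd order: the relations between the solutions are invariant under the orthogonal group
-/

set_option autoImplicit false

open Filter Topology Matrix

namespace Pool.Agent.E8helper3.HO

open Pool.Agent.Y119.HY

variable {n : ℕ} {Q : Polynomial ℚ}

/-- the polynomial `(x + 1/2) Q(x)` -/
noncomputable def PQ (Q : Polynomial ℚ) : Polynomial ℚ := (Polynomial.X + Polynomial.C (1 / 2)) * Q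

/-- self-dual polynomials of odd degree -/
structure QO (n : ℕ) (Q : Polynomial ℚ) : Prop where
  qe : QE n Q
  qe' : QE n (dual n Q)
  odd : Odd n
  sym : ∀ j, Odd j → (PQ Q).coeff j = 0

lemma PQ_zero : (PQ Q).coeff 0 = 1 / 2 * Q.coeff 0 := by
  unfold PQ
  rw [add_mul, Polynomial.coeff_add, Polynomial.coeff_X_mul_zero, Polynomial.coeff_C_mul, zero_add]

lemma PQ_succ (j : ℕ) : (PQ Q).coeff (j + 1) = Q.coeff j + 1 / 2 * Q.coeff (j + 1) := by
  unfold PQ
  rw [add_mul, Polynomial.coeff_add, Polynomial.coeff_X_mul, Polynomial.coeff_C_mul]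

lemma QO.three (hQ : QO n Q) : 3 ≤ n := by
  obtain ⟨a, ha⟩ := hQ.odd
  have := hQ.qe.two
  omega

lemma QO.last (hQ : QO n Q) : Q.coeff (n - 1) = -1 / 2 := by
  have hn := hQ.three
  have h1 := hQ.sym n hQ.odd
  obtain ⟨m, hm⟩ : ∃ m, n = m + 1 := ⟨n - 1, by omega⟩
  have h2 : Q.coeff n = 1 := by
    rw [← hQ.qe.deg]
    exact hQ.qe.monic.coeff_natDegree
  rw [hm, PQ_succ, ← hm, h2] at h1
  have h3 : n - 1 = m := by omega
  rw [h3]
  linarith

lemma QO.rh (hQ : QO n Q) : rh n Q = 1 / 2 := by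
  unfold Pool.Agent.E8helper3.HO.rh
  rw [hQ.last]
  norm_num

/-- the matrix `q qᵀ` -/
noncomputable def Vm (n : ℕ) (Q : Polynomial ℚ) : Matrix (Fin n) (Fin n) ℚ := Matrix.of fun i j => Q.coeff i * Q.coeff j

lemma tr_Am_mul (X : Matrix (Fin n) (Fin n) ℚ) (i j : Fin n) :
    ((Am n).transpose * X) i j = if h : (i : ℕ) = 0 then 0 else X ⟨i - 1, by omega⟩ j := by
  have h1 : ((Am n).transpose * X) i j = (X.transpose * Am n) j i := by
    rw [← Matrix.transpose_apply (X.transpose * Am n), Matrix.transpose_mul, Matrix.transpose_transpose]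
  rw [h1, mul_Am]
  rfl

lemma mul_Bm (X : Matrix (Fin n) (Fin n) ℚ) (hn : 1 ≤ n) (i j : Fin n) :
    (X * Bm n Q) i j = X i ⟨n - 1, by omega⟩ * Q.coeff j := by
  rw [Matrix.mul_apply, Finset.sum_eq_single (⟨n - 1, by omega⟩ : Fin n)]
  · unfold Bm
    rw [Matrix.of_apply, if_pos (show n - 1 + 1 = n by omega)]
  · intro b _ hb
    unfold Bm
    rw [Matrix.of_apply, if_neg (fun h => hb (Fin.ext (by simp only; omega))), mul_zero]
  · intro h
    exact absurd (Finset.mem_univ _) h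

lemma tr_Bm_mul (X : Matrix (Fin n) (Fin n) ℚ) (hn : 1 ≤ n) (i j : Fin n) :
    ((Bm n Q).transpose * X) i j = Q.coeff i * X ⟨n - 1, by omega⟩ j := by
  have h1 : ((Bm n Q).transpose * X) i j = (X.transpose * Bm n Q) j i := by
    rw [← Matrix.transpose_apply (X.transpose * Bm n Q), Matrix.transpose_mul, Matrix.transpose_transpose]
  rw [h1, mul_Bm _ hn, mul_comm]
  rfl

lemma rel_B (hQ : QO n Q) : (Bm n Q).transpose * Vm n Q + Vm n Q * Bm n Q = -Vm n Q := by
  have hn := hQ.three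
  ext i j
  rw [Matrix.add_apply, tr_Bm_mul _ (by omega), mul_Bm _ (by omega), Matrix.neg_apply]
  unfold Vm
  simp only [Matrix.of_apply]
  rw [hQ.last]
  ring

lemma rel_A (hQ : QO n Q) : (Bm n Q).transpose * Jm n (PQ Q) + Jm n (PQ Q) * Bm n Q =
    ((Am n).transpose * Vm n Q + Vm n Q * Am n) + Vm n Q := by
  have hn := hQ.three
  ext i j
  rw [Matrix.add_apply, Matrix.add_apply, Matrix.add_apply, tr_Bm_mul _ (by omega), mul_Bm _ (by omega), tr_Am_mul, mul_Am]
  have e1 : Jm n (PQ Q) ⟨n - 1, by omega⟩ j = (PQ Q).coeff j := by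
    unfold Jm
    rw [Matrix.of_apply, if_pos (by simp only; omega)]
    have h1 : Even (n - 1) := by
      obtain ⟨a, ha⟩ := hQ.odd
      exact ⟨a, by omega⟩
    have h2 : n - 1 + (j : ℕ) + 1 - n = j := by omega
    simp only [h1.neg_one_pow, h2, one_mul]
  have e2 : Jm n (PQ Q) i ⟨n - 1, by omega⟩ = (PQ Q).coeff i := by
    unfold Jm
    rw [Matrix.of_apply, if_pos (by simp only; omega)]
    have h2 : (i : ℕ) + (n - 1) + 1 - n = i := by omega
    simp only [h2]
    rcases Nat.even_or_odd (i : ℕ) with h | h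
    · rw [h.neg_one_pow, one_mul]
    · rw [hQ.sym _ h, mul_zero]
  have e3 : ∀ i : Fin n, (PQ Q).coeff i = (if h : (i : ℕ) = 0 then 0 else Q.coeff (i - 1)) + 1 / 2 * Q.coeff i := by
    intro i
    split_ifs with h
    · rw [h, PQ_zero, zero_add]
    · obtain ⟨m, hm⟩ := Nat.exists_eq_succ_of_ne_zero h
      rw [hm, Nat.succ_eq_add_one, PQ_succ, Nat.add_sub_cancel]
  rw [e1, e2, e3 i, e3 j]
  unfold Vm
  simp only [Matrix.of_apply]
  split_ifs <;> ring

lemma Jo_symm (hQ : QO n Q) : (Jm n (PQ Q)).transpose = Jm n (PQ Q) := by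
  ext i j
  rw [Matrix.transpose_apply]
  unfold Jm
  simp only [Matrix.of_apply]
  have h0 : (j : ℕ) + i + 1 = i + j + 1 := by omega
  rw [h0]
  split_ifs with h
  · rcases Nat.even_or_odd ((i : ℕ) + j) with h1 | h1
    · have h2 : (-1 : ℚ) ^ (j : ℕ) = (-1) ^ (i : ℕ) := by
        rcases Nat.even_or_odd (i : ℕ) with h3 | h3
        · rw [h3.neg_one_pow, ((Nat.even_add.1 h1).1 h3).neg_one_pow]
        · rw [h3.neg_one_pow, Odd.neg_one_pow]
          rw [← Nat.not_even_iff_odd] at h3 ⊢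
          exact fun h4 => h3 ((Nat.even_add.1 h1).2 h4)
      rw [h2]
    · have h2 : Odd ((i : ℕ) + j + 1 - n) := by
        obtain ⟨a, ha⟩ := hQ.odd
        obtain ⟨b, hb⟩ := h1
        exact ⟨b - a, by omega⟩
      rw [hQ.sym _ h2, mul_zero, mul_zero]
  · rfl

/-- the form at the origin -/
noncomputable def Jo (n : ℕ) (Q : Polynomial ℚ) : Matrix (Fin n) (Fin n) ℂ := cm (Jm n (PQ Q))

/-- the form -/
noncomputable def Jz (n : ℕ) (Q : Polynomial ℚ) (z : ℂ) : Matrix (Fin n) (Fin n) ℂ := Jo n Q - (z / (1 - z)) • cm (Vm n Q)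

lemma Jz_zero : Jz n Q 0 = Jo n Q := by
  unfold Jz
  rw [zero_div, zero_smul, sub_zero]

lemma Jo_trans (hQ : QO n Q) : (Jo n Q).transpose = Jo n Q := by
  unfold Jo
  rw [← cm_transpose, Jo_symm hQ]

lemma Jo_det (hQ : QO n Q) : (Jo n Q).det ≠ 0 := by
  have h : (Jo n Q).det = algebraMap ℚ ℂ (Jm n (PQ Q)).det := (RingHom.map_det _ _).symm
  rw [h]
  refine (map_ne_zero _).2 (Jm_det' ?_)
  rw [PQ_zero]
  exact mul_ne_zero (by norm_num) (coeff_zero_ne hQ.qe)

lemma one_sub_ne {z : ℂ} (hz : ‖z‖ < 1) : 1 - z ≠ 0 := by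
  intro h0
  have : z = 1 := (sub_eq_zero.1 h0).symm
  rw [this, norm_one] at hz
  exact lt_irrefl _ hz

lemma Jz_rel (hQ : QO n Q) {z : ℂ} (hz : z ≠ 0) (hz1 : 1 - z ≠ 0) :
    (Gm (cm (Am n)) (cm (Bm n Q)) z).transpose * Jz n Q z + (-(1 / (1 - z) ^ 2)) • cm (Vm n Q) +
      Jz n Q z * Gm (cm (Am n)) (cm (Bm n Q)) z = 0 := by
  have eC : (cm (Am n)).transpose * Jo n Q + Jo n Q * cm (Am n) = 0 := Jc_rel
  have eA : (cm (Bm n Q)).transpose * Jo n Q + Jo n Q * cm (Bm n Q) =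
      ((cm (Am n)).transpose * cm (Vm n Q) + cm (Vm n Q) * cm (Am n)) + cm (Vm n Q) := by
    unfold Jo
    rw [← cm_transpose, ← cm_transpose, ← cm_mul, ← cm_mul, ← cm_mul, ← cm_mul, ← cm_add, ← cm_add, ← cm_add, rel_A hQ]
  have eB : (cm (Bm n Q)).transpose * cm (Vm n Q) + cm (Vm n Q) * cm (Bm n Q) = -cm (Vm n Q) := by
    rw [← cm_transpose, ← cm_mul, ← cm_mul, ← cm_add, rel_B hQ, cm_neg]
  set A := cm (Am n)
  set B := cm (Bm n Q)
  set V := cm (Vm n Q)
  set J := Jo n Q with hJ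
  have h1 : (Gm A B z).transpose * Jz n Q z + (-(1 / (1 - z) ^ 2)) • V + Jz n Q z * Gm A B z =
      (1 / z) • (A.transpose * J + J * A) + (1 / (1 - z)) • (B.transpose * J + J * B) -
      (z / (1 - z) * (1 / z)) • (A.transpose * V + V * A) - (z / (1 - z) * (1 / (1 - z))) • (B.transpose * V + V * B) -
      (1 / (1 - z) ^ 2) • V := by
    unfold Gm Jz
    rw [transpose_add, transpose_smul, transpose_smul]
    simp only [add_mul, mul_add, sub_mul, mul_sub, smul_mul_assoc, mul_smul_comm, ← hJ]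
    module
  rw [h1, eC, eA, eB]
  have h2 : z / (1 - z) * (1 / z) = 1 / (1 - z) := by field_simp
  have h3 : 1 / (1 - z) + z / (1 - z) * (1 / (1 - z)) - 1 / (1 - z) ^ 2 = 0 := by
    field_simp
    ring
  rw [h2]
  have h4 : (1 / z) • (0 : Matrix (Fin n) (Fin n) ℂ) + (1 / (1 - z)) • (A.transpose * V + V * A + V) -
      (1 / (1 - z)) • (A.transpose * V + V * A) - (z / (1 - z) * (1 / (1 - z))) • (-V) - (1 / (1 - z) ^ 2) • V =
      (1 / (1 - z) + z / (1 - z) * (1 / (1 - z)) - 1 / (1 - z) ^ 2) • V := by module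
  rw [h4, h3, zero_smul]

/-- **the quadratic relations** -/
theorem pair_self (hQ : QO n Q) {z : ℂ} (hz : z ∈ Lens) : (Yn n Q z).transpose * Jz n Q z * Yn n Q z = Jo n Q := by
  rw [← Jz_zero]
  refine pair_gen (F' := fun z => (-(1 / (1 - z) ^ 2)) • cm (Vm n Q)) Ac_nil (sol_c hQ.qe) (sol_c hQ.qe) (fun i j => ?_)
    (fun z hz => ?_) (fun z hz => ?_) hz
  · unfold Jz
    simp only [Matrix.sub_apply, Matrix.smul_apply, smul_eq_mul]
    refine analyticOnNhd_const.sub (AnalyticOnNhd.mul ?_ analyticOnNhd_const)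
    refine analyticOnNhd_id.div (analyticOnNhd_const.sub analyticOnNhd_id) fun w hw => ?_
    rw [Metric.mem_ball, dist_zero_right] at hw
    exact one_sub_ne hw
  · intro i j
    have h1 := one_sub_ne (mem_Lens.1 hz).1
    unfold Jz
    simp only [Matrix.sub_apply, Matrix.smul_apply, smul_eq_mul]
    have h2 : HasDerivAt (fun w : ℂ => w / (1 - w)) ((1 * (1 - z) - z * (-1)) / (1 - z) ^ 2) z :=
      (hasDerivAt_id z).div (by simpa using (hasDerivAt_id z).const_sub 1) h1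
    refine ((h2.mul_const (cm (Vm n Q) i j)).const_sub (Jo n Q i j)).congr_deriv ?_
    rw [← neg_mul]
    congr 1
    ring
  · exact Jz_rel hQ (Complex.slitPlane_ne_zero (slit_Lens hz)) (one_sub_ne (mem_Lens.1 hz).1)

end Pool.Agent.E8helper3.HO
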